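import Mathlib
import Pool.Agent.Lib_helper59.LR2.Cell

/-!
# BLR: exponential moments from tails, asymptotic inequalities
-/

set_option autoImplicit false
set_option linter.unusedSectionVars false
set_option linter.unusedVariables false

open Finset Filter

namespace Pool.Agent.LRC

open Pool.Agent.LR2

section Tail

variable {Y : Type} [Fintype Y] {ν V : Y → ℝ} {a b : ℝ}

theorem blr_level (hν : IsPr ν)
    (h : ∀ q : Y → ℝ, IsPr q → ∀ s : ℝ, 0 ≤ s → (∀ y, q y ≤ Real.exp s * ν y) →
      ∑ y, q y * V y ≤ a + b * s) (A : Finset Y) (hp : 0 < ∑ y ∈ A, ν y) :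
    ∑ y ∈ A, ν y * V y ≤ (∑ y ∈ A, ν y) * (a + b * (-Real.log (∑ y ∈ A, ν y))) := by
  classical
  set p := ∑ y ∈ A, ν y with hpd
  have hp1 : p ≤ 1 := by
    rw [hpd, ← hν.sum]
    exact Finset.sum_le_sum_of_subset_of_nonneg (Finset.subset_univ A)
      (fun y _ _ => hν.nonneg y)
  have hq : IsPr (fun y => if y ∈ A then ν y / p else 0) := by
    refine ⟨fun y => ?_, ?_⟩
    · split_ifs
      · exact div_nonneg (hν.nonneg y) hp.le
      · exact le_rfl
    · rw [Finset.sum_ite_mem, Finset.univ_inter, ← Finset.sum_div, ← hpd]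
      exact div_self hp.ne'
  have h1 := h _ hq (-Real.log p) (by
    have := Real.log_nonpos hp.le hp1
    linarith) (fun y => by
      rw [Real.exp_neg, Real.exp_log hp]
      split_ifs
      · rw [div_eq_inv_mul]
      · exact mul_nonneg (inv_nonneg.mpr hp.le) (hν.nonneg y))
  have h2 : ∑ y, (if y ∈ A then ν y / p else 0) * V y = (∑ y ∈ A, ν y * V y) / p := by
    have h3 : ∀ y, (if y ∈ A then ν y / p else 0) * V y = if y ∈ A then ν y * V y / p else 0 := by
      intro y
      split_ifs
      · ring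
      · ring
    simp only [h3]
    rw [Finset.sum_ite_mem, Finset.univ_inter, Finset.sum_div]
  rw [h2, div_le_iff₀ hp] at h1
  linarith

theorem blr_prob (hν : IsPr ν) (hb : 0 ≤ b)
    (h : ∀ q : Y → ℝ, IsPr q → ∀ s : ℝ, 0 ≤ s → (∀ y, q y ≤ Real.exp s * ν y) →
      ∑ y, q y * V y ≤ a + b * s) (s : ℝ) :
    ∑ y, ν y * (if a + b * s < V y then 1 else 0) ≤ Real.exp (-s) := by
  classical
  have e0 : ∑ y, ν y * (if a + b * s < V y then 1 else 0) =
      ∑ y ∈ Finset.univ.filter (fun y => a + b * s < V y), ν y := by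
    rw [Finset.sum_filter]
    apply Finset.sum_congr rfl
    intro y _
    split_ifs <;> simp
  rw [e0]
  by_contra hc
  push Not at hc
  set A := Finset.univ.filter (fun y => a + b * s < V y) with hA
  set p := ∑ y ∈ A, ν y with hpd
  have hp : 0 < p := lt_trans (Real.exp_pos _) hc
  have h1 := blr_level hν h A hp
  rw [← hpd] at h1
  have hL : -Real.log p < s := by
    have := Real.log_lt_log (Real.exp_pos _) hc
    rw [Real.log_exp] at this
    linarith
  have h2 : (a + b * s) * p < ∑ y ∈ A, ν y * V y := by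
    have h3 : ∃ y ∈ A, 0 < ν y := by
      by_contra hcon
      push Not at hcon
      have : p ≤ 0 := Finset.sum_nonpos hcon
      linarith
    obtain ⟨y0, hy0, hy1⟩ := h3
    rw [hpd, Finset.mul_sum]
    apply Finset.sum_lt_sum
    · intro y hy
      have h4 : a + b * s < V y := (Finset.mem_filter.mp hy).2
      have := mul_le_mul_of_nonneg_left h4.le (hν.nonneg y)
      linarith
    · refine ⟨y0, hy0, ?_⟩
      have h4 : a + b * s < V y0 := (Finset.mem_filter.mp hy0).2
      have := mul_lt_mul_of_pos_left h4 hy1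
      linarith
  have h3 : p * (a + b * (-Real.log p)) ≤ (a + b * s) * p := by
    have h4 := mul_le_mul_of_nonneg_left hL.le hb
    have h5 := mul_le_mul_of_nonneg_left h4 hp.le
    linarith
  linarith

theorem exp_half_le : Real.exp (1 / 2) ≤ 1.6488 := by
  have h1 : Real.exp (1 / 2) ^ 2 = Real.exp 1 := by
    rw [← Real.exp_nat_mul]
    norm_num
  have h2 := Real.exp_one_lt_d9
  have h3 := Real.exp_pos (1 / 2)
  by_contra hc
  push Not at hc
  nlinarith

/-- exponential moments from exponential tails -/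
theorem blr_exp (hν : IsPr ν) (hV : ∀ y, 0 ≤ V y) (hb : 0 < b)
    (h : ∀ q : Y → ℝ, IsPr q → ∀ s : ℝ, 0 ≤ s → (∀ y, q y ≤ Real.exp s * ν y) →
      ∑ y, q y * V y ≤ a + b * s) {l : ℝ} (hl : 0 ≤ l) (hlb : l * b ≤ 1 / 2) :
    ∑ y, ν y * Real.exp (l * V y) ≤ 3 * Real.exp (l * a) := by
  classical
  obtain ⟨K, hK⟩ : ∃ K : ℕ, ∀ y, V y ≤ a + b * K := by
    obtain ⟨K, hK⟩ := exists_nat_ge ((|a| + ∑ y, V y) / b)
    refine ⟨K, fun y => ?_⟩
    have h1 : V y ≤ ∑ y, V y := Finset.single_le_sum (fun y _ => hV y) (Finset.mem_univ y)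
    have h2 : (|a| + ∑ y, V y) ≤ K * b := (div_le_iff₀ hb).mp hK
    have h3 := neg_abs_le a
    linarith
  set r := Real.exp (1 / 2) with hr
  have hr1 : 1 < r := by
    rw [hr]
    exact Real.one_lt_exp_iff.mpr (by norm_num)
  have hr2 : r ≤ 1.6488 := exp_half_le
  -- pointwise bound
  have key : ∀ N : ℕ, ∀ v : ℝ, v ≤ a + b * N → Real.exp (l * v) ≤ Real.exp (l * a) *
      (1 + ∑ k ∈ Finset.range N, (r - 1) * r ^ k * (if a + b * k < v then 1 else 0)) := by
    intro N
    induction N with
    | zero =>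
      intro v hv
      simp only [Nat.cast_zero, mul_zero, add_zero, Finset.range_zero, Finset.sum_empty] at hv ⊢
      rw [mul_one]
      exact Real.exp_le_exp.mpr (mul_le_mul_of_nonneg_left hv hl)
    | succ N ih =>
      intro v hv
      rw [Finset.sum_range_succ]
      by_cases hc : a + b * N < v
      · rw [if_pos hc]
        have h1 : ∀ k ∈ Finset.range N, (r - 1) * r ^ k * (if a + b * k < v then (1 : ℝ) else 0) =
            (r - 1) * r ^ k := by
          intro k hk
          rw [if_pos, mul_one]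
          have h2 : (k : ℝ) ≤ N := by exact_mod_cast (Finset.mem_range.mp hk).le
          have h3 := mul_le_mul_of_nonneg_left h2 hb.le
          linarith
        rw [Finset.sum_congr rfl h1, ← Finset.mul_sum]
        have h2 : (r - 1) * ∑ k ∈ Finset.range N, r ^ k = r ^ N - 1 := by
          rw [mul_comm]
          exact geom_sum_mul r N
        rw [h2]
        have h3 : 1 + (r ^ N - 1 + (r - 1) * r ^ N * 1) = r ^ (N + 1) := by ring
        rw [h3]
        have h4 : r ^ (N + 1) = Real.exp (((N + 1 : ℕ) : ℝ) * (1 / 2)) := by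
          rw [hr, Real.exp_nat_mul]
        rw [h4, ← Real.exp_add]
        apply Real.exp_le_exp.mpr
        have h5 := mul_le_mul_of_nonneg_left hv hl
        have h6 : l * b * ((N + 1 : ℕ) : ℝ) ≤ 1 / 2 * ((N + 1 : ℕ) : ℝ) :=
          mul_le_mul_of_nonneg_right hlb (by positivity)
        push_cast at h5 h6 ⊢
        linarith
      · rw [if_neg hc, mul_zero, add_zero]
        push Not at hc
        exact ih v hc
  have s1 : ∑ y, ν y * Real.exp (l * V y) ≤ Real.exp (l * a) *
      (1 + ∑ k ∈ Finset.range K, (r - 1) * r ^ k * Real.exp (-(k : ℝ))) := by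
    calc ∑ y, ν y * Real.exp (l * V y) ≤ ∑ y, ν y * (Real.exp (l * a) *
          (1 + ∑ k ∈ Finset.range K, (r - 1) * r ^ k * (if a + b * k < V y then 1 else 0))) :=
          Finset.sum_le_sum fun y _ => mul_le_mul_of_nonneg_left (key K _ (hK y)) (hν.nonneg y)
      _ = Real.exp (l * a) * (∑ y, ν y + ∑ k ∈ Finset.range K, (r - 1) * r ^ k *
          ∑ y, ν y * (if a + b * k < V y then 1 else 0)) := by
          have e1 : ∀ y, ν y * (Real.exp (l * a) * (1 + ∑ k ∈ Finset.range K, (r - 1) * r ^ k *
              (if a + b * k < V y then 1 else 0))) = Real.exp (l * a) * (ν y +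
              ∑ k ∈ Finset.range K, (r - 1) * r ^ k * (ν y *
                (if a + b * k < V y then 1 else 0))) := by
            intro y
            have e2 : ν y * ∑ k ∈ Finset.range K, (r - 1) * r ^ k *
                (if a + b * k < V y then (1 : ℝ) else 0) =
                ∑ k ∈ Finset.range K, (r - 1) * r ^ k * (ν y *
                (if a + b * k < V y then 1 else 0)) := by
              rw [Finset.mul_sum]
              apply Finset.sum_congr rfl
              intro k _
              ring
            rw [← e2]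
            ring
          simp only [e1]
          rw [← Finset.mul_sum, Finset.sum_add_distrib, Finset.sum_comm]
          simp only [← Finset.mul_sum]
      _ ≤ _ := by
          apply mul_le_mul_of_nonneg_left _ (Real.exp_pos _).le
          rw [hν.sum]
          apply add_le_add le_rfl
          apply Finset.sum_le_sum
          intro k _
          apply mul_le_mul_of_nonneg_left (blr_prob hν hb.le h k)
          have : 0 < r ^ k := by positivity
          exact mul_nonneg (by linarith) this.le
  have s2 : ∑ k ∈ Finset.range K, (r - 1) * r ^ k * Real.exp (-(k : ℝ)) ≤ r := by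
    have e1 : ∀ k : ℕ, (r - 1) * r ^ k * Real.exp (-(k : ℝ)) = (r - 1) * (1 / r) ^ k := by
      intro k
      have e2 : Real.exp (-(k : ℝ)) = (1 / r ^ 2) ^ k := by
        have e3 : r ^ 2 = Real.exp 1 := by
          rw [hr, ← Real.exp_nat_mul]
          norm_num
        rw [e3, one_div, ← Real.exp_neg, ← Real.exp_nat_mul]
        congr 1
        ring
      rw [e2, mul_assoc, ← mul_pow]
      congr 2
      field_simp
    simp only [e1, ← Finset.mul_sum]
    have e3 : ∑ k ∈ Finset.range K, (1 / r) ^ k ≤ r / (r - 1) := by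
      have e4 : (∑ k ∈ Finset.range K, (1 / r) ^ k) * (1 / r - 1) = (1 / r) ^ K - 1 :=
        geom_sum_mul (1 / r) K
      have e5 : 0 ≤ (1 / r) ^ K := by positivity
      have e6 : (∑ k ∈ Finset.range K, (1 / r) ^ k) * (1 - 1 / r) ≤ 1 := by nlinarith
      have e7 : 1 - 1 / r = (r - 1) / r := by field_simp
      rw [e7] at e6
      rw [le_div_iff₀ (by linarith)]
      have e8 : (∑ k ∈ Finset.range K, (1 / r) ^ k) * ((r - 1) / r) * r =
          (∑ k ∈ Finset.range K, (1 / r) ^ k) * (r - 1) := by field_simp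
      have e9 := mul_le_mul_of_nonneg_right e6 (by linarith : 0 ≤ r)
      linarith
    calc (r - 1) * ∑ k ∈ Finset.range K, (1 / r) ^ k ≤ (r - 1) * (r / (r - 1)) :=
          mul_le_mul_of_nonneg_left e3 (by linarith)
      _ = r := by
          have : r - 1 ≠ 0 := by linarith
          field_simp
  calc _ ≤ _ := s1
    _ ≤ Real.exp (l * a) * (1 + r) :=
        mul_le_mul_of_nonneg_left (by linarith) (Real.exp_pos _).le
    _ ≤ Real.exp (l * a) * 3 := mul_le_mul_of_nonneg_left (by linarith) (Real.exp_pos _).le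
    _ = _ := mul_comm _ _

end Tail

section Asy

theorem ev_pow (C : ℝ) {α β : ℝ} (h : α < β) : ∀ᶠ R : ℝ in atTop, C * R ^ α ≤ R ^ β := by
  have h1 := (tendsto_rpow_atTop (sub_pos.mpr h)).eventually_ge_atTop C
  filter_upwards [h1, eventually_gt_atTop 0] with R h2 h3
  have h4 : R ^ β = R ^ (β - α) * R ^ α := by
    rw [← Real.rpow_add h3]
    congr 1
    ring
  rw [h4]
  exact mul_le_mul_of_nonneg_right h2 (Real.rpow_nonneg h3.le _)

theorem ev_log (C : ℝ) {α : ℝ} (h : 0 < α) : ∀ᶠ R : ℝ in atTop, C * Real.log R ≤ R ^ α := by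
  have h1 := isLittleO_log_rpow_atTop h
  have h2 := h1.bound (show (0 : ℝ) < 1 / (|C| + 1) by positivity)
  filter_upwards [h2, eventually_gt_atTop 1] with R h3 h4
  have h5 : 0 ≤ Real.log R := Real.log_nonneg h4.le
  rw [Real.norm_of_nonneg h5, Real.norm_of_nonneg (Real.rpow_nonneg (by linarith) _)] at h3
  have h6 : C * Real.log R ≤ (|C| + 1) * Real.log R :=
    mul_le_mul_of_nonneg_right (by linarith [le_abs_self C]) h5
  have h7 := mul_le_mul_of_nonneg_left h3 (by positivity : 0 ≤ |C| + 1)
  have h8 : (|C| + 1) * (1 / (|C| + 1) * R ^ α) = R ^ α := by field_simp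
  linarith

/-- exponentials of powers beat powers -/
theorem ev_exp (k : ℝ) {α : ℝ} (h : 0 < α) (c : ℝ) (hc : 0 < c) :
    ∀ᶠ R : ℝ in atTop, Real.exp (-(c * R ^ α)) ≤ R ^ (-k) := by
  filter_upwards [ev_log (k / c) h, eventually_gt_atTop 0] with R h1 h2
  have e0 : R ^ (-k) = Real.exp (Real.log R * (-k)) := Real.rpow_def_of_pos h2 _
  rw [e0]
  apply Real.exp_le_exp.mpr
  have h3 := mul_le_mul_of_nonneg_left h1 hc.le
  have h4 : c * (k / c * Real.log R) = k * Real.log R := by field_simp
  rw [h4] at h3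
  linarith

end Asy

end Pool.Agent.LRC
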