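import Pool.Agent.Lib_helper83.LRC.BLRa

/-!
# BLR: the numerical part
-/

set_option autoImplicit false
set_option linter.unusedSectionVars false
set_option linter.unusedVariables false

open Finset Filter

namespace Pool.Agent.LRC

open Pool.Agent.LR2

theorem blrb_s1 {L X : ℝ} (e1 : X = L ^ 2) (h : 9 * 1 ≤ L) :
    2 + 2 * L - L ^ 2 / 2 ≤ -(1 / 4 * X) := by
  rw [e1]
  nlinarith

theorem blrb_s2 {t u : ℝ} (h : 0 < t * u) : 15 / 2 * (t * u) ≤ 4 * u * (4 * t) := by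
  have : 4 * u * (4 * t) = 16 * (t * u) := by ring
  linarith

theorem blrb_s3 {a : ℝ} (h : 1 ≤ a) : a + 2 * a ^ 2 ≤ 3 * a ^ 2 := by
  nlinarith

theorem blrb_s4 {a x : ℝ} (h : 1 ≤ a) (h1 : a ≤ 8 * x) : a ^ 2 ≤ 64 * x ^ 2 := by
  nlinarith

theorem blrb_s5 {R E F : ℝ} (h8 : 8 ≤ R) (h1 : R ≤ E) (h2 : E ≤ F) : R + 2 ≤ F * 4 := by
  linarith

theorem blrb_s6 {a b l t T : ℝ} (h1 : 6 * a ≤ T) (h2 : 6 * b ≤ T) (hT : T = b * t)
    (h3 : 30 * l ≤ t) (hb : 0 ≤ b) : 2 * a + 2 * b + b * (10 * l) ≤ T := by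
  have e3 : 10 * l ≤ t / 3 := by linarith
  have := mul_le_mul_of_nonneg_left e3 hb
  linarith

theorem blrb_s7 {l X : ℝ} (h1 : 2 * l ≤ X) (h2 : 4 * 1 ≤ X) : l + 2 ≤ X := by
  linarith

theorem blrb_s8 {C a b : ℝ} (h : 100 * C * a ≤ b) : C * a ≤ b / 100 := by
  linarith

/-- the list of inequalities needed in BLR -/
structure BN (R s c : ℝ) : Prop where
  R8 : 8 ≤ R
  n1 : 1792 * R ^ (s / 2 - 31 / 5 * c) ≤ R ^ (-(6 * c)) / 100
  n2 : 420 * R ^ (5 / 2 * c - 1 / 2 + s) ≤ R ^ (-(6 * c)) / 100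
  n3 : 32256 * R ^ (-(13 / 2 * c) + 5 / 2 * s) ≤ R ^ (-(6 * c)) / 100
  n3b : 84 * R ^ (-(73 / 10 * c) + s) ≤ R ^ (-(6 * c)) / 100
  n4 : 129024 * R ^ (-(13 / 2 * c) + s) ≤ R ^ (-(6 * c)) / 100
  n5 : 672 * R ^ (c / 2 + s - 1) ≤ R ^ (-(6 * c)) / 100
  n6 : 44 * R ^ (-(10 * c)) ≤ R ^ (-(6 * c)) / 100
  n6b : 15138816 * R ^ (-(8 * c) + 2 * s) ≤ R ^ (-(6 * c)) / 100
  n7 : 64512 * R ^ (-(9 * c) + s) ≤ R ^ (-(6 * c)) / 100
  n9 : 5505024 * R ^ (-(13 * c) + 2 * s) ≤ R ^ (-(6 * c)) / 100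
  n10 : 24 * R ^ (-(5 * c) - 8) ≤ R ^ (-(6 * c)) / 100
  nd : Real.log R + 2 ≤ R ^ (s / 4)
  ne : Real.exp (-(1 / 2 * R ^ (2 * c - s))) ≤ R ^ (-(1 : ℝ))
  nL : Real.exp (2 + 2 * R ^ (s / 8) - (R ^ (s / 8)) ^ 2 / 2) ≤ R ^ (-(10 : ℝ))
  nθ : 1536 * R ^ (-(10 * c)) ≤ R ^ (-(c + s))
  nlam : 40 * R ^ (-(c + 2 * s)) ≤ R ^ (-(c + s))
  nb : 2 ≤ R ^ (c + s)
  nN : 2 * R ^ (1 / 2 + c) + 2 * R ^ (1 / 2 + s) + R ^ (1 / 2 + s) * (10 * Real.log R) ≤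
    R ^ (1 / 2 + c + s)
  nm : 4 * R ^ (1 / 2 - 100 * c) ≤ R ^ (1 / 2 - 33 * c - 3 / 2 * s)
  nbad : 16 * R ^ (-(19 / 2) + c + s) ≤ R ^ (-c)

theorem BN_ev {s c : ℝ} (hs : 0 < s) (hsc : 100 * s ≤ c) (hc : c ≤ 1 / 1000) :
    ∀ᶠ R : ℝ in atTop, BN R s c := by
  have hc0 : 0 < c := by linarith
  have e : ∀ (C : ℝ) {α β : ℝ}, α < β → ∀ᶠ R : ℝ in atTop, C * R ^ α ≤ R ^ β / 100 := by
    intro C α β h
    filter_upwards [ev_pow (100 * C) h] with R hR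
    exact blrb_s8 hR
  filter_upwards [eventually_ge_atTop 100,
    e 1792 (show s / 2 - 31 / 5 * c < -(6 * c) by linarith),
    e 420 (show 5 / 2 * c - 1 / 2 + s < -(6 * c) by linarith),
    e 32256 (show -(13 / 2 * c) + 5 / 2 * s < -(6 * c) by linarith),
    e 84 (show -(73 / 10 * c) + s < -(6 * c) by linarith),
    e 129024 (show -(13 / 2 * c) + s < -(6 * c) by linarith),
    e 672 (show c / 2 + s - 1 < -(6 * c) by linarith),
    e 44 (show -(10 * c) < -(6 * c) by linarith),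
    e 15138816 (show -(8 * c) + 2 * s < -(6 * c) by linarith),
    e 64512 (show -(9 * c) + s < -(6 * c) by linarith),
    e 5505024 (show -(13 * c) + 2 * s < -(6 * c) by linarith),
    e 24 (show -(5 * c) - 8 < -(6 * c) by linarith),
    ev_log 2 (show 0 < s / 4 by linarith),
    ev_pow 4 (show (0 : ℝ) < s / 4 by linarith),
    ev_exp 1 (show 0 < 2 * c - s by linarith) (1 / 2) (by norm_num),
    ev_exp 10 (show 0 < s / 4 by linarith) (1 / 4) (by norm_num),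
    ev_pow 9 (show (0 : ℝ) < s / 8 by linarith),
    ev_pow 1536 (show -(10 * c) < -(c + s) by linarith),
    ev_pow 40 (show -(c + 2 * s) < -(c + s) by linarith),
    ev_pow 2 (show (0 : ℝ) < c + s by linarith),
    ev_pow 6 (show 1 / 2 + c < 1 / 2 + c + s by linarith),
    ev_pow 6 (show 1 / 2 + s < 1 / 2 + c + s by linarith),
    ev_log 30 (show 0 < c by linarith),
    ev_pow 4 (show 1 / 2 - 100 * c < 1 / 2 - 33 * c - 3 / 2 * s by linarith),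
    ev_pow 16 (show -(19 / 2) + c + s < -c by linarith)]
    with R hR h1 h2 h3 h3b h4 h5 h6 h6b h7 h9 h10 hd1 hd2 he hL1 hL2 hθ hlam hb hN1 hN2 hN3 hm hbad
  have hR0 : 0 < R := lt_of_lt_of_le (by norm_num) hR
  refine ⟨le_trans (by norm_num) hR, h1, h2, h3, h3b, h4, h5, h6, h6b, h7, h9, h10, ?_, he, ?_, hθ,
    hlam, ?_, ?_, hm, hbad⟩
  · rw [Real.rpow_zero] at hd2
    exact blrb_s7 hd1 hd2
  · rw [Real.rpow_zero] at hL2
    refine le_trans (Real.exp_le_exp.mpr ?_) hL1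
    have e1 : R ^ (s / 4) = (R ^ (s / 8)) ^ 2 := by
      rw [← Real.rpow_natCast, ← Real.rpow_mul hR0.le]
      congr 1
      push_cast
      ring
    exact blrb_s1 e1 hL2
  · rw [Real.rpow_zero, mul_one] at hb
    exact hb
  · have e2 : R ^ (1 / 2 + c + s) = R ^ (1 / 2 + s) * R ^ c := by
      rw [← Real.rpow_add hR0]
      congr 1
      ring
    exact blrb_s6 hN1 hN2 e2 hN3 (Real.rpow_nonneg hR0.le _)

/-- the parameters of BLR -/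
structure BPar (R s c : ℝ) (a m K' d : ℕ) (rt Θ θ q L : ℝ) : Prop where
  ha : 0 < a
  hm : 0 < m
  hK : 0 < K'
  hd : 1 ≤ d
  hrt : 0 < rt
  hrt2 : rt ^ 2 = m
  hq : q = R ^ ((1 / 2 + c + s) / 4)
  hL : L = R ^ (s / 8)
  hΘ : Θ = (L * q) ^ 2
  hθ : θ = a * rt / (4 * Θ)
  m_ge : R ^ (1 / 2 - 33 * c - 3 / 2 * s) ≤ m
  θ_ge : R ^ (-(5 * c)) ≤ θ
  θ_le : θ ≤ 4 * R ^ (-(5 * c))
  rtΘ : rt * Θ ≤ 2 * R ^ (1 / 2 - 16 * c)
  tilt : (m : ℝ) * (a + 2 * a ^ 2) ≤ 384 * R ^ (1 / 2 - 9 * c + 3 / 2 * s)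
  K_ge : R ^ (1 / 2 - 49 / 5 * c) ≤ K'
  K_le : (K' : ℝ) / 2 ≤ R ^ (1 / 2 - 49 / 5 * c)
  d_pow : R + 2 ≤ (4 : ℝ) ^ d
  d_sq : (d : ℝ) ^ 2 ≤ R ^ (s / 2)

theorem exists_par {R s c : ℝ} (hs : 0 < s) (hsc : 100 * s ≤ c) (hc : c ≤ 1 / 1000)
    (h : BN R s c) : ∃ (a m K' d : ℕ) (rt Θ θ q L : ℝ), BPar R s c a m K' d rt Θ θ q L := by
  have hR0 : 0 < R := by have := h.R8; linarith
  have hR1 : 1 ≤ R := by have := h.R8; linarith
  have hc0 : 0 < c := by linarith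
  set m0 : ℝ := R ^ (1 / 2 - 33 * c - 3 / 2 * s) with hm0
  set K0 : ℝ := R ^ (1 / 2 - 49 / 5 * c) with hK0
  set x0 : ℝ := R ^ (12 * c + 3 / 2 * s) with hx0
  have m1 : 1 ≤ m0 := Real.one_le_rpow hR1 (by linarith)
  have K1 : 1 ≤ K0 := Real.one_le_rpow hR1 (by linarith)
  have x1 : 1 ≤ x0 := Real.one_le_rpow hR1 (by linarith)
  set m := ⌈m0⌉₊ with hm
  set K' := ⌈K0⌉₊ with hK'
  set a := ⌈4 * x0⌉₊ with ha
  set d := ⌈Real.log R⌉₊ + 1 with hd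
  have mg : m0 ≤ m := Nat.le_ceil _
  have ml : (m : ℝ) ≤ 2 * m0 := by
    have := (Nat.ceil_lt_add_one (by linarith : 0 ≤ m0)).le
    linarith
  have Kg : K0 ≤ K' := Nat.le_ceil _
  have Kl : (K' : ℝ) ≤ 2 * K0 := by
    have := (Nat.ceil_lt_add_one (by linarith : 0 ≤ K0)).le
    linarith
  have ag : 4 * x0 ≤ a := Nat.le_ceil _
  have al : (a : ℝ) ≤ 8 * x0 := by
    have := (Nat.ceil_lt_add_one (by linarith : 0 ≤ 4 * x0)).le
    linarith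
  have al' : (a : ℝ) ≤ 5 * x0 := by
    have := (Nat.ceil_lt_add_one (by linarith : 0 ≤ 4 * x0)).le
    linarith
  have ha0 : 0 < a := Nat.ceil_pos.mpr (by linarith)
  have hm0' : 0 < m := Nat.ceil_pos.mpr (by linarith)
  have hK0' : 0 < K' := Nat.ceil_pos.mpr (by linarith)
  have ha1 : (1 : ℝ) ≤ a := by exact_mod_cast ha0
  have hmr : (0 : ℝ) < m := by exact_mod_cast hm0'
  set rt := Real.sqrt m with hrt
  have hrt0 : 0 < rt := Real.sqrt_pos.mpr hmr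
  have hrt2 : rt ^ 2 = m := Real.sq_sqrt hmr.le
  set y0 : ℝ := R ^ (1 / 4 - 33 / 2 * c - 3 / 4 * s) with hy0
  have y0p : 0 < y0 := Real.rpow_pos_of_pos hR0 _
  have y2 : y0 ^ 2 = m0 := by
    rw [hy0, hm0, ← Real.rpow_natCast, ← Real.rpow_mul hR0.le]
    congr 1
    push_cast
    ring
  have rg : y0 ≤ rt := by
    apply Real.le_sqrt_of_sq_le
    rw [y2]
    exact mg
  have rl : rt ≤ 3 / 2 * y0 := by
    rw [hrt]
    apply Real.sqrt_le_iff.mpr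
    refine ⟨by positivity, ?_⟩
    rw [mul_pow, y2]
    linarith
  set q : ℝ := R ^ ((1 / 2 + c + s) / 4) with hq
  set L : ℝ := R ^ (s / 8) with hL
  set Θ : ℝ := (L * q) ^ 2 with hΘ
  have hΘ' : Θ = R ^ (1 / 4 + c / 2 + 3 / 4 * s) := by
    rw [hΘ, hL, hq, ← Real.rpow_add hR0, ← Real.rpow_natCast, ← Real.rpow_mul hR0.le]
    congr 1
    push_cast
    ring
  have hΘ0 : 0 < Θ := by rw [hΘ']; exact Real.rpow_pos_of_pos hR0 _
  set θ : ℝ := a * rt / (4 * Θ) with hθ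
  have e1 : x0 * y0 = Θ * R ^ (-(5 * c)) := by
    rw [hΘ', hx0, hy0, ← Real.rpow_add hR0, ← Real.rpow_add hR0]
    congr 1
    ring
  have e2 : y0 * Θ = R ^ (1 / 2 - 16 * c) := by
    rw [hΘ', hy0, ← Real.rpow_add hR0]
    congr 1
    ring
  have e3 : m0 * x0 ^ 2 = R ^ (1 / 2 - 9 * c + 3 / 2 * s) := by
    rw [hx0, hm0, ← Real.rpow_natCast, ← Real.rpow_mul hR0.le, ← Real.rpow_add hR0]
    congr 1
    push_cast
    ring
  refine ⟨a, m, K', d, rt, Θ, θ, q, L, ha0, hm0', hK0', by omega, hrt0, hrt2, rfl, rfl, rfl, rfl, mg,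
    ?_, ?_, ?_, ?_, Kg, by linarith, ?_, ?_⟩
  · rw [hθ, le_div_iff₀ (by positivity)]
    calc R ^ (-(5 * c)) * (4 * Θ) = 4 * (Θ * R ^ (-(5 * c))) := by ring
      _ = (4 * x0) * y0 := by rw [← e1]; ring
      _ ≤ a * rt := mul_le_mul ag rg y0p.le (by linarith)
  · rw [hθ, div_le_iff₀ (by positivity)]
    calc (a : ℝ) * rt ≤ (5 * x0) * (3 / 2 * y0) := mul_le_mul al' rl hrt0.le (by linarith)
      _ = 15 / 2 * (x0 * y0) := by ring
      _ = 15 / 2 * (Θ * R ^ (-(5 * c))) := by rw [e1]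
      _ ≤ _ := by
          exact blrb_s2 (mul_pos hΘ0 (Real.rpow_pos_of_pos hR0 _))
  · calc rt * Θ ≤ (3 / 2 * y0) * Θ := mul_le_mul_of_nonneg_right rl hΘ0.le
      _ = 3 / 2 * (y0 * Θ) := by ring
      _ = 3 / 2 * R ^ (1 / 2 - 16 * c) := by rw [e2]
      _ ≤ _ := by
          have : 0 < R ^ (1 / 2 - 16 * c) := Real.rpow_pos_of_pos hR0 _
          linarith
  · have h1 : (a : ℝ) + 2 * a ^ 2 ≤ 3 * a ^ 2 := blrb_s3 ha1
    have h2 : (a : ℝ) ^ 2 ≤ 64 * x0 ^ 2 := blrb_s4 ha1 al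
    calc (m : ℝ) * (a + 2 * a ^ 2) ≤ (2 * m0) * (3 * (64 * x0 ^ 2)) :=
          mul_le_mul ml (by linarith) (by positivity) (by linarith)
      _ = 384 * (m0 * x0 ^ 2) := by ring
      _ = _ := by rw [e3]
  · have h1 : R ≤ Real.exp (⌈Real.log R⌉₊ : ℝ) := by
      calc R = Real.exp (Real.log R) := (Real.exp_log hR0).symm
        _ ≤ _ := Real.exp_le_exp.mpr (Nat.le_ceil _)
    have h2 : Real.exp (⌈Real.log R⌉₊ : ℝ) ≤ (4 : ℝ) ^ ⌈Real.log R⌉₊ := by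
      have h3 : Real.exp (⌈Real.log R⌉₊ : ℝ) = Real.exp 1 ^ ⌈Real.log R⌉₊ := by
        rw [← Real.exp_nat_mul, mul_one]
      rw [h3]
      apply pow_le_pow_left₀ (Real.exp_pos _).le
      have := Real.exp_one_lt_d9
      linarith
    rw [hd, pow_succ]
    exact blrb_s5 h.R8 h1 h2
  · have h1 : (d : ℝ) ≤ R ^ (s / 4) := by
      have h2 := (Nat.ceil_lt_add_one (Real.log_nonneg hR1)).le
      have h3 := h.nd
      rw [hd]
      push_cast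
      linarith
    calc (d : ℝ) ^ 2 ≤ (R ^ (s / 4)) ^ 2 := by gcongr
      _ = R ^ (s / 2) := by
          rw [← Real.rpow_natCast, ← Real.rpow_mul hR0.le]
          congr 1
          push_cast
          ring

end Pool.Agent.LRC
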