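import Pool.Agent.Lib_helper83.LRC.BLRb

/-!
# BLR: the right-hand side of `blm_vec`
-/

set_option autoImplicit false
set_option linter.unusedSectionVars false
set_option linter.unusedVariables false

open Finset Filter

namespace Pool.Agent.LRC

open Pool.Agent.LR2

theorem blr_num {R s c : ℝ} (hs : 0 < s) (hsc : 100 * s ≤ c) (hc : c ≤ 1 / 1000)
    (h : BN R s c) {a m K' d : ℕ} {rt Θ θ q L : ℝ} (p : BPar R s c a m K' d rt Θ θ q L)
    {T lam l lam' ext ε : ℝ} (hT : T = R ^ (5 / 2 * c)) (hlam : lam = R ^ (-(c / 2) - s))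
    (hl : l = R ^ (-(c + s)) / 4) (hlam' : lam' = R ^ (-(1 / 2) + s)) (hext : ext ≤ R ^ (-(10 * c)))
    (hε : ε * q ^ 2 ≤ R ^ (-(8 : ℝ))) :
    32 * (d : ℝ) ^ 2 * (rt * Θ) / K' * (2 * 14) +
      3 * T * (2 * ((3 / 2 * lam' + 2 * (lam' / 2)) * (2 * 14) +
        lam' / 2 * ((m * (a + 2 * a ^ 2) + K' / 2) * (2 * 14) + 2)) +
        (0 + 24 * θ ^ 2 / l * (2 * 14))) +
      6 * (4 / lam * Real.exp (-(lam * T / 2)) * (2 * 14) +
        8 / 3 * (2 * ext + 96 * θ ^ 2 / l ^ 2 * (2 * 14))) +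
      2 * ((6 + 3 * 1) * (2 * θ ^ 2 / l * (2 * 14)) +
        3 / 1 * (2 * ext + 96 * θ ^ 2 / l ^ 2 * (2 * 14)) +
        96 * θ ^ 3 / l ^ 2 * (2 * 14)) + θ * (6 * ε * q ^ 2) ≤ R ^ (-(6 * c)) * (12 / 100) := by
  have hR0 : 0 < R := by have := h.R8; linarith
  have hR1 : 1 ≤ R := by have := h.R8; linarith
  have hc0 : 0 < c := by linarith
  have hP : ∀ x : ℝ, 0 < R ^ x := fun x => Real.rpow_pos_of_pos hR0 x
  have hadd : ∀ x y : ℝ, R ^ x * R ^ y = R ^ (x + y) := fun x y => (Real.rpow_add hR0 x y).symm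
  have hinv : ∀ x : ℝ, (R ^ x)⁻¹ = R ^ (-x) := fun x => (Real.rpow_neg hR0.le x).symm
  have hθ0 : 0 ≤ θ := (hP _).le.trans p.θ_ge
  have hT0 : 0 < T := by rw [hT]; exact hP _
  have hlam0 : 0 < lam := by rw [hlam]; exact hP _
  have hl0 : 0 < l := by rw [hl]; have := hP (-(c + s)); linarith
  have hlam'0 : 0 < lam' := by rw [hlam']; exact hP _
  have hK0 : (0 : ℝ) < K' := by exact_mod_cast p.hK
  -- squares and cubes of θ
  have hθ2 : θ ^ 2 ≤ 16 * R ^ (-(10 * c)) := by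
    calc θ ^ 2 ≤ (4 * R ^ (-(5 * c))) ^ 2 := by
          have := p.θ_le
          gcongr
      _ = 16 * (R ^ (-(5 * c)) * R ^ (-(5 * c))) := by ring
      _ = _ := by
          rw [hadd]
          congr 2
          ring
  have hθ3 : θ ^ 3 ≤ 64 * R ^ (-(15 * c)) := by
    calc θ ^ 3 ≤ (4 * R ^ (-(5 * c))) ^ 3 := by
          have := p.θ_le
          gcongr
      _ = 64 * (R ^ (-(5 * c)) * R ^ (-(5 * c)) * R ^ (-(5 * c))) := by ring
      _ = _ := by
          rw [hadd, hadd]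
          congr 2
          ring
  have hl1 : 1 / l = 4 * R ^ (c + s) := by
    rw [hl, one_div, inv_div, div_eq_mul_inv, hinv]
    congr 2
    ring
  have hl2 : 1 / l ^ 2 = 16 * R ^ (2 * c + 2 * s) := by
    have e1 : 1 / l ^ 2 = (1 / l) ^ 2 := by rw [div_pow, one_pow]
    rw [e1, hl1, mul_pow, sq (R ^ (c + s)), hadd]
    norm_num
    congr 1
    ring
  -- the terms
  have t1 : 32 * (d : ℝ) ^ 2 * (rt * Θ) / K' * (2 * 14) ≤ R ^ (-(6 * c)) / 100 := by
    have e1 : (d : ℝ) ^ 2 * (rt * Θ) / K' ≤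
        R ^ (s / 2) * (2 * R ^ (1 / 2 - 16 * c)) / R ^ (1 / 2 - 49 / 5 * c) := by
      have h1 := p.d_sq
      have h2 := p.rtΘ
      have h3 := p.K_ge
      have h4 : 0 ≤ rt * Θ := by
        have := p.hrt
        have h5 : 0 ≤ Θ := by rw [p.hΘ]; positivity
        positivity
      have h6 := hP (s / 2)
      have h7 := hP (1 / 2 - 49 / 5 * c)
      gcongr
    have e2 : R ^ (s / 2) * (2 * R ^ (1 / 2 - 16 * c)) / R ^ (1 / 2 - 49 / 5 * c) =
        2 * R ^ (s / 2 - 31 / 5 * c) := by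
      rw [div_eq_mul_inv, hinv]
      calc _ = 2 * (R ^ (s / 2) * R ^ (1 / 2 - 16 * c) * R ^ (-(1 / 2 - 49 / 5 * c))) := by ring
        _ = _ := by
            rw [hadd, hadd]
            congr 2
            ring
    rw [e2] at e1
    have := h.n1
    have e3 : 32 * (d : ℝ) ^ 2 * (rt * Θ) / K' * (2 * 14) = 896 * ((d : ℝ) ^ 2 * (rt * Θ) / K') := by
      ring
    rw [e3]
    linarith
  have hTl : T * lam' = R ^ (5 / 2 * c - 1 / 2 + s) := by
    rw [hT, hlam', hadd]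
    congr 1
    ring
  have t2 : 420 * (T * lam') ≤ R ^ (-(6 * c)) / 100 := by
    rw [hTl]
    exact h.n2
  have t3 : 84 * (T * lam') * (m * (a + 2 * a ^ 2)) ≤ R ^ (-(6 * c)) / 100 := by
    calc 84 * (T * lam') * (m * (a + 2 * a ^ 2)) ≤
          84 * R ^ (5 / 2 * c - 1 / 2 + s) * (384 * R ^ (1 / 2 - 9 * c + 3 / 2 * s)) := by
          rw [hTl]
          exact mul_le_mul_of_nonneg_left p.tilt (by have := hP (5 / 2 * c - 1 / 2 + s); positivity)
      _ = 32256 * (R ^ (5 / 2 * c - 1 / 2 + s) * R ^ (1 / 2 - 9 * c + 3 / 2 * s)) := by ring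
      _ = 32256 * R ^ (-(13 / 2 * c) + 5 / 2 * s) := by
          rw [hadd]
          congr 2
          ring
      _ ≤ _ := h.n3
  have t3b : 84 * (T * lam') * (K' / 2) ≤ R ^ (-(6 * c)) / 100 := by
    calc 84 * (T * lam') * (K' / 2) ≤
          84 * R ^ (5 / 2 * c - 1 / 2 + s) * R ^ (1 / 2 - 49 / 5 * c) := by
          rw [hTl]
          exact mul_le_mul_of_nonneg_left p.K_le (by have := hP (5 / 2 * c - 1 / 2 + s); positivity)
      _ = 84 * (R ^ (5 / 2 * c - 1 / 2 + s) * R ^ (1 / 2 - 49 / 5 * c)) := by ring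
      _ = 84 * R ^ (-(73 / 10 * c) + s) := by
          rw [hadd]
          congr 2
          ring
      _ ≤ _ := h.n3b
  have t4 : 2016 * (T * (θ ^ 2 * (1 / l))) ≤ R ^ (-(6 * c)) / 100 := by
    calc 2016 * (T * (θ ^ 2 * (1 / l))) ≤
          2016 * (R ^ (5 / 2 * c) * ((16 * R ^ (-(10 * c))) * (4 * R ^ (c + s)))) := by
          rw [hl1, hT]
          have h1 := hP (5 / 2 * c)
          have h2 := hP (c + s)
          gcongr
      _ = 129024 * (R ^ (5 / 2 * c) * R ^ (-(10 * c)) * R ^ (c + s)) := by ring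
      _ = 129024 * R ^ (-(13 / 2 * c) + s) := by
          rw [hadd, hadd]
          congr 2
          ring
      _ ≤ _ := h.n4
  have t5 : 672 * (1 / lam * Real.exp (-(lam * T / 2))) ≤ R ^ (-(6 * c)) / 100 := by
    have e1 : 1 / lam = R ^ (c / 2 + s) := by
      rw [hlam, one_div, hinv]
      congr 1
      ring
    have e2 : lam * T = R ^ (2 * c - s) := by
      rw [hlam, hT, hadd]
      congr 1
      ring
    have e3 : -(lam * T / 2) = -(1 / 2 * R ^ (2 * c - s)) := by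
      rw [e2]
      ring
    rw [e1, e3]
    calc 672 * (R ^ (c / 2 + s) * Real.exp (-(1 / 2 * R ^ (2 * c - s)))) ≤
          672 * (R ^ (c / 2 + s) * R ^ (-(1 : ℝ))) := by
          have h1 := hP (c / 2 + s)
          have h2 := h.ne
          gcongr
      _ = 672 * R ^ (c / 2 + s - 1) := by
          rw [hadd]
          congr 2
      _ ≤ _ := h.n5
  have t6 : 44 * ext ≤ R ^ (-(6 * c)) / 100 := by
    have := h.n6
    linarith
  have t6b : 59136 * (θ ^ 2 * (1 / l ^ 2)) ≤ R ^ (-(6 * c)) / 100 := by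
    calc 59136 * (θ ^ 2 * (1 / l ^ 2)) ≤
          59136 * ((16 * R ^ (-(10 * c))) * (16 * R ^ (2 * c + 2 * s))) := by
          rw [hl2]
          have h2 := hP (2 * c + 2 * s)
          gcongr
      _ = 15138816 * (R ^ (-(10 * c)) * R ^ (2 * c + 2 * s)) := by ring
      _ = 15138816 * R ^ (-(8 * c) + 2 * s) := by
          rw [hadd]
          congr 2
          ring
      _ ≤ _ := h.n6b
  have t7 : 1008 * (θ ^ 2 * (1 / l)) ≤ R ^ (-(6 * c)) / 100 := by
    calc 1008 * (θ ^ 2 * (1 / l)) ≤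
          1008 * ((16 * R ^ (-(10 * c))) * (4 * R ^ (c + s))) := by
          rw [hl1]
          have h2 := hP (c + s)
          gcongr
      _ = 64512 * (R ^ (-(10 * c)) * R ^ (c + s)) := by ring
      _ = 64512 * R ^ (-(9 * c) + s) := by
          rw [hadd]
          congr 2
          ring
      _ ≤ _ := h.n7
  have t9 : 5376 * (θ ^ 3 * (1 / l ^ 2)) ≤ R ^ (-(6 * c)) / 100 := by
    calc 5376 * (θ ^ 3 * (1 / l ^ 2)) ≤
          5376 * ((64 * R ^ (-(15 * c))) * (16 * R ^ (2 * c + 2 * s))) := by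
          rw [hl2]
          have h2 := hP (2 * c + 2 * s)
          gcongr
      _ = 5505024 * (R ^ (-(15 * c)) * R ^ (2 * c + 2 * s)) := by ring
      _ = 5505024 * R ^ (-(13 * c) + 2 * s) := by
          rw [hadd]
          congr 2
          ring
      _ ≤ _ := h.n9
  have t10 : θ * (6 * ε * q ^ 2) ≤ R ^ (-(6 * c)) / 100 := by
    calc θ * (6 * ε * q ^ 2) = 6 * (θ * (ε * q ^ 2)) := by ring
      _ ≤ 6 * (θ * R ^ (-(8 : ℝ))) := by
          have := mul_le_mul_of_nonneg_left hε hθ0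
          linarith
      _ ≤ 6 * (4 * R ^ (-(5 * c)) * R ^ (-(8 : ℝ))) := by
          have := mul_le_mul_of_nonneg_right p.θ_le (hP (-(8 : ℝ))).le
          linarith
      _ = 24 * (R ^ (-(5 * c)) * R ^ (-(8 : ℝ))) := by ring
      _ = 24 * R ^ (-(5 * c) - 8) := by
          rw [hadd]
          congr 2
      _ ≤ _ := h.n10
  have e0 : 32 * (d : ℝ) ^ 2 * (rt * Θ) / K' * (2 * 14) +
      3 * T * (2 * ((3 / 2 * lam' + 2 * (lam' / 2)) * (2 * 14) +
        lam' / 2 * ((m * (a + 2 * a ^ 2) + K' / 2) * (2 * 14) + 2)) +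
        (0 + 24 * θ ^ 2 / l * (2 * 14))) +
      6 * (4 / lam * Real.exp (-(lam * T / 2)) * (2 * 14) +
        8 / 3 * (2 * ext + 96 * θ ^ 2 / l ^ 2 * (2 * 14))) +
      2 * ((6 + 3 * 1) * (2 * θ ^ 2 / l * (2 * 14)) +
        3 / 1 * (2 * ext + 96 * θ ^ 2 / l ^ 2 * (2 * 14)) +
        96 * θ ^ 3 / l ^ 2 * (2 * 14)) + θ * (6 * ε * q ^ 2) =
      32 * (d : ℝ) ^ 2 * (rt * Θ) / K' * (2 * 14) + 420 * (T * lam') + 6 * (T * lam') +
      84 * (T * lam') * (m * (a + 2 * a ^ 2)) + 84 * (T * lam') * (K' / 2) +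
      2016 * (T * (θ ^ 2 * (1 / l))) + 672 * (1 / lam * Real.exp (-(lam * T / 2))) + 44 * ext +
      59136 * (θ ^ 2 * (1 / l ^ 2)) + 1008 * (θ ^ 2 * (1 / l)) + 5376 * (θ ^ 3 * (1 / l ^ 2)) +
      θ * (6 * ε * q ^ 2) := by ring
  rw [e0]
  have hTl0 : 0 ≤ T * lam' := by positivity
  linarith

end Pool.Agent.LRC
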