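import Pool.Agent.Lib_helper94.LRC.Defs
import Pool.Agent.Lib_helper59.LR2.P4
import Pool.Agent.Lib_helper83.LRC.BLRa

/-!
# BLR: linear algebra, tails, the reduced kernel
-/

set_option autoImplicit false
set_option linter.unusedSectionVars false
set_option linter.unusedVariables false

open Finset Matrix

namespace Pool.Agent.LRC

open Pool.Agent.LR2

section One

variable {Y : Type} [Fintype Y] {ν V : Y → ℝ} {a b : ℝ}

theorem blr_one (hν : IsPr ν) (hV : ∀ y, 0 ≤ V y) (ha : 0 ≤ a) (hb : 0 ≤ b)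
    (h : ∀ q : Y → ℝ, IsPr q → ∀ s : ℝ, 0 ≤ s → (∀ y, q y ≤ Real.exp s * ν y) →
      ∑ y, q y * V y ≤ a + b * s) {s : ℝ} (hs : 1 ≤ s) :
    ∑ y, ν y * (if a + b * s < V y then V y else 0) ≤ Real.exp (-s) * (a + b * s) := by
  classical
  have h1 : ∑ y, ν y * (if a + b * s < V y then V y else 0) =
      ∑ y ∈ Finset.univ.filter (fun y => a + b * s < V y), ν y * V y := by
    rw [Finset.sum_filter]
    refine Finset.sum_congr rfl fun y _ => ?_
    split_ifs <;> simp
  have h2 : ∑ y ∈ Finset.univ.filter (fun y => a + b * s < V y), ν y ≤ Real.exp (-s) := by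
    refine le_trans (le_of_eq ?_) (blr_prob hν hb h s)
    rw [Finset.sum_filter]
    refine Finset.sum_congr rfl fun y _ => ?_
    split_ifs <;> simp
  rw [h1]
  set A := Finset.univ.filter (fun y => a + b * s < V y) with hA
  set p := ∑ y ∈ A, ν y with hpd
  have hp0 : 0 ≤ p := Finset.sum_nonneg fun y _ => hν.nonneg y
  have hR : 0 ≤ Real.exp (-s) * (a + b * s) :=
    mul_nonneg (Real.exp_pos _).le (by nlinarith)
  rcases hp0.eq_or_lt with hp | hp
  · have h3 : ∀ y ∈ A, ν y = 0 := by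
      intro y hy
      exact (Finset.sum_eq_zero_iff_of_nonneg fun y _ => hν.nonneg y).mp hp.symm y hy
    rw [Finset.sum_eq_zero fun y hy => by rw [h3 y hy, zero_mul]]
    exact hR
  · have h3 := blr_level hν h A hp
    rw [← hpd] at h3
    refine le_trans h3 ?_
    set L := -Real.log p with hLd
    have hpL : p = Real.exp (-L) := by rw [hLd, neg_neg, Real.exp_log hp]
    have hL : s ≤ L := by
      have := (Real.log_le_iff_le_exp hp).mpr h2
      linarith
    have hea : Real.exp (-L) ≤ Real.exp (-s) := Real.exp_le_exp.mpr (by linarith)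
    have heb : Real.exp (-L) * L ≤ Real.exp (-s) * s := by
      have h4 : Real.exp (-s) = Real.exp (-L) * Real.exp (L - s) := by
        rw [← Real.exp_add]; ring_nf
      have h5 : L - s + 1 ≤ Real.exp (L - s) := Real.add_one_le_exp _
      have h6 : L ≤ Real.exp (L - s) * s := by nlinarith
      rw [h4, mul_assoc]
      exact mul_le_mul_of_nonneg_left h6 (Real.exp_pos _).le
    rw [hpL]
    have h7 := mul_le_mul_of_nonneg_left hea ha
    have h8 := mul_le_mul_of_nonneg_left heb hb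
    nlinarith

end One

section Ker

variable {X Y : Type} [Fintype X] [Fintype Y] {μ : X → ℝ} {ν : Y → ℝ} {M : X → Y → ℝ}

theorem blr_rank (μ : X → ℝ) (ν : Y → ℝ) (M : X → Y → ℝ) :
    (Matrix.of fun x y => ctd μ ν M x y / 4).rank ≤ (Matrix.of M).rank := by
  classical
  have h := rank_pull (fun x x' : X => ((if x = x' then (1 : ℝ) else 0) - μ x') / 4)
    (fun y y' : Y => (if y = y' then (1 : ℝ) else 0) - ν y') M
  have e : (Matrix.of fun x y => ∑ x', ∑ y', ((if x = x' then (1 : ℝ) else 0) - μ x') / 4 *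
      ((if y = y' then (1 : ℝ) else 0) - ν y') * M x' y') =
      Matrix.of fun x y => ctd μ ν M x y / 4 := by
    ext x y
    simp only [Matrix.of_apply]
    have e1 : ∀ x', ∑ y', ((if x = x' then (1 : ℝ) else 0) - μ x') / 4 *
        ((if y = y' then (1 : ℝ) else 0) - ν y') * M x' y' =
        ((if x = x' then (1 : ℝ) else 0) - μ x') / 4 * (M x' y - rmean ν M x') := by
      intro x'
      have e2 : M x' y - rmean ν M x' =
          ∑ y', ((if y = y' then (1 : ℝ) else 0) - ν y') * M x' y' := by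
        simp only [sub_mul, Finset.sum_sub_distrib, ite_mul, one_mul, zero_mul,
          Finset.sum_ite_eq, Finset.mem_univ, if_true]
        rfl
      rw [e2, Finset.mul_sum]
      apply Finset.sum_congr rfl
      intro y' _
      ring
    simp only [e1]
    have e3 : ∀ x', ((if x = x' then (1 : ℝ) else 0) - μ x') / 4 * (M x' y - rmean ν M x') =
        ((if x = x' then (M x' y - rmean ν M x') else 0) - μ x' * M x' y +
          μ x' * rmean ν M x') / 4 := by
      intro x'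
      split_ifs <;> ring
    simp only [e3]
    rw [← Finset.sum_div, Finset.sum_add_distrib, Finset.sum_sub_distrib, Finset.sum_ite_eq,
      if_pos (Finset.mem_univ x), ← em_row]
    unfold ctd cmean
    ring
  rw [e] at h
  exact h

theorem blr_mean (hμ : IsPr μ) (hν : IsPr ν) :
    em μ ν (fun x y => ctd μ ν M x y / 4) = 0 := by
  have h := (ctd_cen hμ hν M).row
  unfold LR2.em
  apply Finset.sum_eq_zero
  intro x _
  have e1 : ∀ y, μ x * ν y * (ctd μ ν M x y / 4) = μ x / 4 * (ν y * ctd μ ν M x y) := by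
    intro y
    ring
  simp only [e1]
  rw [← Finset.mul_sum, h, mul_zero]

theorem blr_abs (hμ : IsPr μ) (hν : IsPr ν) (hM : ∀ x y, M x y = 1 ∨ M x y = -1) (x : X) (y : Y) :
    |ctd μ ν M x y / 4| ≤ 1 := by
  have h := ctd_abs hμ hν (M := M) (fun x y => by
    rcases hM x y with h | h <;> rw [h] <;> norm_num) x y
  rw [abs_div, abs_of_pos (by norm_num : (0 : ℝ) < 4)]
  linarith

theorem blr_upr {lam : ℝ} (h : ∀ (p : X → ℝ) (q : Y → ℝ), IsPr p → IsPr q → AC p μ → AC q ν →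
    em p q (ctd μ ν M) ≤ 2 * lam * (KL p μ + KL q ν) + 6 * lam) :
    UPR μ ν (fun x y => ctd μ ν M x y / 4) 0 (3 / 2 * lam) (lam / 2) := by
  intro p q hp hq hpa hqa
  have h1 := h p q hp hq hpa hqa
  have e : em p q (fun x y => ctd μ ν M x y / 4) = 1 / 4 * em p q (ctd μ ν M) := by
    rw [← em_smul]
    congr 1
    funext x y
    ring
  rw [e]
  linarith

end Ker

section Lin

variable {ι A : Type} [Fintype ι] [DecidableEq ι] [Fintype A]

/-- the quadratic form of an average of rank one matrices -/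
theorem blr_quad (gam : A → ℝ) (w : A → ι → ℝ) (v : ι → ℝ) :
    v ⬝ᵥ ((Matrix.of fun i j => ∑ a, gam a * (w a i * w a j)) *ᵥ v) =
      ∑ a, gam a * (w a ⬝ᵥ v) ^ 2 := by
  simp only [dotProduct, mulVec, Matrix.of_apply, sq, Finset.mul_sum,
    Finset.sum_mul]
  have e1 : ∀ i, ∑ j, ∑ a, v i * (gam a * (w a i * w a j) * v j) =
      ∑ a, ∑ j, v i * (gam a * (w a i * w a j) * v j) := fun i => Finset.sum_comm
  simp only [e1]
  rw [Finset.sum_comm]
  apply Finset.sum_congr rfl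
  intro a _
  apply Finset.sum_congr rfl
  intro i _
  apply Finset.sum_congr rfl
  intro j _
  ring

theorem blr_quad_symm (gam : A → ℝ) (w : A → ι → ℝ) :
    (Matrix.of fun i j => ∑ a, gam a * (w a i * w a j))ᵀ =
      Matrix.of fun i j => ∑ a, gam a * (w a i * w a j) := by
  ext i j
  simp only [Matrix.transpose_apply, Matrix.of_apply]
  apply Finset.sum_congr rfl
  intro a _
  ring

/-- projections -/
theorem blr_proj {P : Matrix ι ι ℝ} (h : IsProj P) (v : ι → ℝ) :
    (P *ᵥ v) ⬝ᵥ (P *ᵥ v) = v ⬝ᵥ (P *ᵥ v) := by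
  rw [← dot_symm_mulVec h.1, Matrix.mulVec_mulVec, h.2]

theorem blr_proj_nonneg {P : Matrix ι ι ℝ} (h : IsProj P) (v : ι → ℝ) :
    0 ≤ v ⬝ᵥ (P *ᵥ v) := by
  rw [← blr_proj h]
  exact dot_self_nonneg _

theorem blr_proj_le {P : Matrix ι ι ℝ} (h : IsProj P) (v : ι → ℝ) :
    v ⬝ᵥ (P *ᵥ v) ≤ v ⬝ᵥ v := by
  have h1 := dot_self_nonneg (v - P *ᵥ v)
  simp only [sub_dotProduct, dotProduct_sub] at h1
  rw [blr_proj h, dotProduct_comm (P *ᵥ v) v] at h1
  linarith

/-- a vector of the range of `P` only sees `P z` -/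
theorem blr_range {P : Matrix ι ι ℝ} (h : IsProj P) {ψ : ι → ℝ} (hψ : P *ᵥ ψ = ψ) (v : ι → ℝ) :
    ψ ⬝ᵥ (P *ᵥ v) = ψ ⬝ᵥ v := by
  rw [dot_symm_mulVec h.1, hψ]

theorem blr_cs {P : Matrix ι ι ℝ} (h : IsProj P) {ψ : ι → ℝ} (hψ : P *ᵥ ψ = ψ)
    (h1 : ψ ⬝ᵥ ψ ≤ 1) (v : ι → ℝ) : (ψ ⬝ᵥ v) ^ 2 ≤ v ⬝ᵥ (P *ᵥ v) := by
  rw [← blr_range h hψ, ← blr_proj h]
  calc (ψ ⬝ᵥ (P *ᵥ v)) ^ 2 ≤ (ψ ⬝ᵥ ψ) * ((P *ᵥ v) ⬝ᵥ (P *ᵥ v)) := dot_cs _ _
    _ ≤ 1 * ((P *ᵥ v) ⬝ᵥ (P *ᵥ v)) := mul_le_mul_of_nonneg_right h1 (dot_self_nonneg _)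
    _ = _ := one_mul _

end Lin

end Pool.Agent.LRC
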