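import Pool.Agent.Lib_helper83.LRC.BLRb
import Pool.Agent.Lib_helper83.LRC.BLRd

/-!
# BLR: the main step
-/

set_option autoImplicit false
set_option linter.unusedSectionVars false
set_option linter.unusedVariables false

open Finset Matrix

namespace Pool.Agent.LRC

open Pool.Agent.LR2

/-- weights on `Option A` -/
def blrG {A : Type} [Fintype A] (gam : A → ℝ) : Option A → ℝ
  | none => 1 - ∑ a, gam a
  | some a => gam a

theorem blrG_nonneg {A : Type} [Fintype A] {gam : A → ℝ} (h0 : ∀ a, 0 ≤ gam a)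
    (h1 : ∑ a, gam a ≤ 1) : ∀ o, 0 ≤ blrG gam o
  | none => by simp only [blrG]; linarith
  | some a => h0 a

theorem blrG_sum {A : Type} [Fintype A] (gam : A → ℝ) (F : Option A → ℝ) (h0 : F none = 0) :
    ∑ o, blrG gam o * F o = ∑ a, gam a * F (some a) := by
  rw [Fintype.sum_option, h0, mul_zero, zero_add]
  rfl

theorem blrG_one {A : Type} [Fintype A] (gam : A → ℝ) : ∑ o, blrG gam o = 1 := by
  rw [Fintype.sum_option]
  simp only [blrG]
  ring

/-- truncated fields, indexed by `Fin n` -/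
noncomputable def blrE {Y ι A : Type} [Fintype ι] (z : Y → ι → ℝ) (Fa : A → Matrix ι ι ℝ) (N1 : ℝ) :
    Option A → Y → Fin (Fintype.card ι) → ℝ
  | none, _, _ => 0
  | some a, y, i => if N1 < z y ⬝ᵥ (Fa a *ᵥ z y) then 0 else
      (Fa a *ᵥ z y) ((Fintype.equivFin ι).symm i)

noncomputable def blrF {X ι A : Type} [Fintype ι] (ψ : X → A → ι → ℝ) :
    Option A → X → Fin (Fintype.card ι) → ℝ
  | none, _, _ => 0
  | some a, x, i => ψ x a ((Fintype.equivFin ι).symm i)

theorem blrF_sq {X ι A : Type} [Fintype ι] {ψ : X → A → ι → ℝ} (h : ∀ x a, ψ x a ⬝ᵥ ψ x a ≤ 1) :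
    ∀ (o : Option A) (x : X), ∑ i, blrF ψ o x i ^ 2 ≤ 1
  | none, x => by simp [blrF]
  | some a, x => by
      simp only [blrF]
      rw [Equiv.sum_comp (Fintype.equivFin ι).symm (fun k => ψ x a k ^ 2)]
      refine le_trans (le_of_eq ?_) (h x a)
      simp only [dotProduct, sq]

theorem blrE_sq {Y ι A : Type} [Fintype ι] [DecidableEq ι] {z : Y → ι → ℝ}
    {Fa : A → Matrix ι ι ℝ} (hP : ∀ a, IsProj (Fa a)) {N1 : ℝ} (hN : 0 ≤ N1) :
    ∀ (o : Option A) (y : Y), ∑ i, blrE z Fa N1 o y i ^ 2 ≤ N1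
  | none, y => by simpa [blrE] using hN
  | some a, y => by
      simp only [blrE]
      split_ifs with hc
      · simpa using hN
      · rw [Equiv.sum_comp (Fintype.equivFin ι).symm (fun k => (Fa a *ᵥ z y) k ^ 2)]
        push Not at hc
        refine le_trans (le_of_eq ?_) hc
        rw [← blr_proj (hP a)]
        simp only [dotProduct, sq]

theorem blr_field {X Y ι A : Type} [Fintype ι] [DecidableEq ι] {z : Y → ι → ℝ}
    {Fa : A → Matrix ι ι ℝ} (hP : ∀ a, IsProj (Fa a)) (N1 : ℝ) {ψ : X → A → ι → ℝ}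
    (hψ : ∀ x a, Fa a *ᵥ ψ x a = ψ x a) (a : A) (x : X) (y : Y) :
    ∑ i, blrF ψ (some a) x i * blrE z Fa N1 (some a) y i =
      if N1 < z y ⬝ᵥ (Fa a *ᵥ z y) then 0 else ψ x a ⬝ᵥ z y := by
  simp only [blrF, blrE]
  split_ifs with hc
  · simp
  · rw [Equiv.sum_comp (Fintype.equivFin ι).symm (fun k => ψ x a k * (Fa a *ᵥ z y) k)]
    exact blr_range (hP a) (hψ x a) (z y)

theorem blr_field0 {X Y ι A : Type} [Fintype ι] {z : Y → ι → ℝ} {Fa : A → Matrix ι ι ℝ}
    (N1 : ℝ) {ψ : X → A → ι → ℝ} (x : X) (y : Y) :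
    ∑ i, blrF ψ none x i * blrE z Fa N1 none y i = 0 := by
  simp [blrF, blrE]

/-- exponential moments of averages of squares of linear fields -/
theorem blr_moment {R s c : ℝ} (hN : BN R s c) {X Y ι A : Type}
    [Fintype X] [Fintype Y] [Fintype ι] [DecidableEq ι] [Fintype A] {μ : X → ℝ} {ν : Y → ℝ}
    {z : Y → ι → ℝ} (hμ : IsPr μ) (hν : IsPr ν) (f5 : FT ν z (fun _ => 1) (R ^ (1 / 2 + s)))
    {gam : A → ℝ} {Fa : A → Matrix ι ι ℝ} (h0 : ∀ a, 0 ≤ gam a) (h1 : ∑ a, gam a ≤ 1)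
    (hP : ∀ a, IsProj (Fa a))
    (hsp : ∀ v : ι → ℝ, ∑ a, gam a * (v ⬝ᵥ (Fa a *ᵥ v)) ≤ R ^ (-(1 / 2) + c) * (v ⬝ᵥ v))
    {w : X → A → ι → ℝ} (hw : ∀ x a, Fa a *ᵥ w x a = w x a)
    (hw1 : ∀ x a, w x a ⬝ᵥ w x a ≤ 1) (N1 : ℝ) :
    LR2.em μ ν (fun x y => Real.exp (2 * (R ^ (-(c + s)) / 4) * ∑ o, blrG gam o *
      (∑ i, blrF w o x i * blrE z Fa N1 o y i) ^ 2)) ≤ 14 := by
  have hR0 : 0 < R := by have := hN.R8; linarith
  have hl0 : 0 < R ^ (-(c + s)) := Real.rpow_pos_of_pos hR0 _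
  have hb0 : 0 < R ^ (c + s) := Real.rpow_pos_of_pos hR0 _
  have hlb : R ^ (-(c + s)) * R ^ (c + s) = 1 := by
    rw [← Real.rpow_add hR0]
    simp
  have key : ∀ x, ∑ y, ν y * Real.exp (2 * (R ^ (-(c + s)) / 4) * ∑ o, blrG gam o *
      (∑ i, blrF w o x i * blrE z Fa N1 o y i) ^ 2) ≤ 14 := by
    intro x
    set V : Y → ℝ := fun y => ∑ a, gam a * (w x a ⬝ᵥ z y) ^ 2 with hV
    have hV0 : ∀ y, 0 ≤ V y := fun y =>
      Finset.sum_nonneg fun a _ => mul_nonneg (h0 a) (sq_nonneg _)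
    have hpt : ∀ y, ∑ o, blrG gam o * (∑ i, blrF w o x i * blrE z Fa N1 o y i) ^ 2 ≤ V y := by
      intro y
      rw [blrG_sum _ _ (by rw [blr_field0]; ring)]
      apply Finset.sum_le_sum
      intro a _
      apply mul_le_mul_of_nonneg_left _ (h0 a)
      rw [blr_field hP N1 hw]
      split_ifs
      · have := sq_nonneg (w x a ⬝ᵥ z y)
        simpa using this
      · exact le_rfl
    set K : Matrix ι ι ℝ := Matrix.of fun i j => ∑ a, gam a * (w x a i * w x a j) with hK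
    have hKV : ∀ v : ι → ℝ, v ⬝ᵥ (K *ᵥ v) = ∑ a, gam a * (w x a ⬝ᵥ v) ^ 2 := by
      intro v
      rw [hK, blr_quad]
    have htail : ∀ q : Y → ℝ, IsPr q → ∀ t : ℝ, 0 ≤ t → (∀ y, q y ≤ Real.exp t * ν y) →
        ∑ y, q y * V y ≤ (2 + 2 * R ^ (c + s)) + R ^ (c + s) * t := by
      intro q hq t ht hqt
      have h2 := f5 q hq t ht hqt K (R ^ (-(1 / 2) + c)) (blr_quad_symm _ _)
        (fun v => by
          rw [hKV]
          exact Finset.sum_nonneg fun a _ => mul_nonneg (h0 a) (sq_nonneg _))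
        (fun v => by
          rw [hKV]
          refine le_trans ?_ (hsp v)
          apply Finset.sum_le_sum
          intro a _
          exact mul_le_mul_of_nonneg_left (blr_cs (hP a) (hw x a) (hw1 x a) v) (h0 a))
      have e1 : ∑ y, q y * (z y ⬝ᵥ (K *ᵥ z y)) = ∑ y, q y * V y := by
        apply Finset.sum_congr rfl
        intro y _
        rw [hKV]
      have e2 : ∑ i, (1 : ℝ) * K i i ≤ 1 := by
        have e3 : ∑ i, (1 : ℝ) * K i i = ∑ a, gam a * (w x a ⬝ᵥ w x a) := by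
          simp only [hK, Matrix.of_apply, one_mul, dotProduct]
          rw [Finset.sum_comm]
          apply Finset.sum_congr rfl
          intro a _
          rw [Finset.mul_sum]
        rw [e3]
        calc _ ≤ ∑ a, gam a * 1 := by
              apply Finset.sum_le_sum
              intro a _
              exact mul_le_mul_of_nonneg_left (hw1 x a) (h0 a)
          _ ≤ 1 := by simpa using h1
      have e4 : R ^ (1 / 2 + s) * R ^ (-(1 / 2) + c) = R ^ (c + s) := by
        rw [← Real.rpow_add hR0]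
        congr 1
        ring
      rw [e1, e4] at h2
      linarith
    have h3 := blr_exp hν hV0 hb0 htail (l := 2 * (R ^ (-(c + s)) / 4)) (by positivity)
      (by nlinarith)
    have h4 : 2 * (R ^ (-(c + s)) / 4) * (2 + 2 * R ^ (c + s)) ≤ 3 / 2 := by
      have h5 : R ^ (-(c + s)) ≤ 1 / 2 := by
        have := hN.nb
        nlinarith
      nlinarith
    have h6 : Real.exp (3 / 2 : ℝ) ≤ 14 / 3 := by
      have e5 : Real.exp (3 / 2 : ℝ) ^ 2 = Real.exp 1 ^ 3 := by
        rw [← Real.exp_nat_mul, ← Real.exp_nat_mul]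
        norm_num
      have e6 := Real.exp_one_lt_d9
      have e7 : Real.exp 1 ^ 3 ≤ (2.7182818286 : ℝ) ^ 3 := by
        have := (Real.exp_pos 1).le
        gcongr
      have e8 : Real.exp (3 / 2 : ℝ) ^ 2 ≤ (14 / 3) ^ 2 := by
        rw [e5]
        refine e7.trans ?_
        norm_num
      exact (abs_le_of_sq_le_sq' e8 (by norm_num)).2
    calc _ ≤ ∑ y, ν y * Real.exp (2 * (R ^ (-(c + s)) / 4) * V y) := by
          apply Finset.sum_le_sum
          intro y _
          apply mul_le_mul_of_nonneg_left _ (hν.nonneg y)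
          apply Real.exp_le_exp.mpr
          exact mul_le_mul_of_nonneg_left (hpt y) (by positivity)
      _ ≤ _ := h3
      _ ≤ 3 * Real.exp (3 / 2) := by
          apply mul_le_mul_of_nonneg_left _ (by norm_num)
          exact Real.exp_le_exp.mpr h4
      _ ≤ 14 := by linarith
  rw [em_row]
  calc _ ≤ ∑ x, μ x * 14 := by
        apply Finset.sum_le_sum
        intro x _
        exact mul_le_mul_of_nonneg_left (key x) (hμ.nonneg x)
    _ = 14 := by rw [← Finset.sum_mul, hμ.sum, one_mul]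

end Pool.Agent.LRC
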