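import Pool.Agent.Lib_helper83.LRC.BLRc
import Pool.Agent.Lib_helper83.LRC.BLRe
import Pool.Agent.Lib_helper83.LR.BLV

/-!
# BLR: the statement without `CoreR`
-/

set_option autoImplicit false
set_option linter.unusedSectionVars false
set_option linter.unusedVariables false

open Finset Matrix

namespace Pool.Agent.LRC

open Pool.Agent.LR2

theorem bf_1 {ε Q a b : ℝ} (hε0 : 0 ≤ ε) (hQ : 1 ≤ Q) (h : ε * Q ≤ a) (hab : a ≤ b)
    (hb : b ≤ 1 / 4) : ε ≤ 1 / 4 :=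
  (le_mul_of_one_le_right hε0 hQ).trans (h.trans (hab.trans hb))

theorem bf_2 {x y : ℝ} (h : x * y = 1) (hy : 2 ≤ y) (hx : 0 < x) : x ≤ 1 / 2 := by
  nlinarith

theorem bf_3 {r R D : ℝ} (h : r ≤ R) (h' : R + 2 ≤ D) : r ≤ D := by linarith

theorem bf_4 {x y V : ℝ} (h4 : |x| ^ 2 ≤ V) (h5 : |y| ^ 2 ≤ V) : |x| * |y| ≤ V := by
  nlinarith [sq_nonneg (|x| - |y|)]

theorem bf_5 {G x : ℝ} (h : G ≤ 1) (hx : 0 < x) : G * (x / 4) ≤ x / 4 := by
  nlinarith

theorem bf_6 {S E x : ℝ} (h4 : |S| - 4 * |E| ≤ |S - 4 * E|) (hS : |S - 4 * E| ≤ x / 4)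
    (hE : |E| ≤ x * (12 / 100)) (hx : 0 < x) : |S| ≤ x := by
  linarith

theorem bf_7 {M m a b v : ℝ} (h1 : 4 * a ≤ b) (h2 : b ≤ m) (h3 : m / 4 < v) : a ≤ v := by
  linarith

theorem bf_8 {t x y : ℝ} (h4 : t ≤ 16 * x) (h : 1536 * x ≤ y) : 24 * t ≤ y / 4 := by
  linarith

theorem bf_9 {x y : ℝ} (h : 40 * x ≤ y) : 10 * x ≤ y / 4 := by
  linarith

section Core

variable {X Y ι A : Type} [Fintype X] [Fintype Y] [Fintype ι] [DecidableEq ι] [Fintype A]
  {μ : X → ℝ} {ν : Y → ℝ} {M : X → Y → ℝ} {z : Y → ι → ℝ} {R s c : ℝ}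

/-- the columns where a field is large -/
theorem blr_bad (hs0 : 0 < s) (hN : BN R s c) (hν : IsPr ν)
    (f5 : FT ν z (fun _ => 1) (R ^ (1 / 2 + s))) {P : Matrix ι ι ℝ} (hP : IsProj P)
    (htr : P.trace ≤ R ^ (1 / 2 + c)) {N1 : ℝ}
    (hN1 : N1 = (2 * R ^ (1 / 2 + c) + 2 * R ^ (1 / 2 + s)) +
      R ^ (1 / 2 + s) * (10 * Real.log R)) :
    ∑ y, ν y * (if N1 < z y ⬝ᵥ (P *ᵥ z y) then z y ⬝ᵥ (P *ᵥ z y) else 0) ≤ R ^ (-c) / 16 := by
  have hR0 : 0 < R := by have := hN.R8; linarith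
  have hp : ∀ x : ℝ, 0 < R ^ x := fun x => Real.rpow_pos_of_pos hR0 x
  have h1 := blr_one hν (V := fun y => z y ⬝ᵥ (P *ᵥ z y)) (fun y => blr_proj_nonneg hP (z y))
    (a := 2 * R ^ (1 / 2 + c) + 2 * R ^ (1 / 2 + s)) (b := R ^ (1 / 2 + s))
    (by have := hp (1 / 2 + c); have := hp (1 / 2 + s); positivity) (hp _).le
    (by
      intro q hq t ht hqt
      have h2 := f5 q hq t ht hqt P 1 hP.1 (fun v => blr_proj_nonneg hP v)
        (fun v => by rw [one_mul]; exact blr_proj_le hP v)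
      have e : ∑ i, (1 : ℝ) * P i i = P.trace := by
        simp only [one_mul, Matrix.trace, Matrix.diag]
      rw [e] at h2
      have h3 := hp (1 / 2 + s)
      have h4 : R ^ (1 / 2 + s) * 1 * (t + 2) = R ^ (1 / 2 + s) * t + 2 * R ^ (1 / 2 + s) := by
        ring
      linarith)
    (s := 10 * Real.log R) (by
      have h2 : Real.exp 1 ≤ R := by
        have := Real.exp_one_lt_d9
        have := hN.R8
        linarith
      have h3 := (Real.le_log_iff_exp_le hR0).mpr h2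
      linarith)
  rw [← hN1] at h1
  refine h1.trans ?_
  have e1 : Real.exp (-(10 * Real.log R)) = R ^ (-(10 : ℝ)) := by
    rw [Real.rpow_def_of_pos hR0]
    congr 1
    ring
  rw [e1]
  calc R ^ (-(10 : ℝ)) * N1 ≤ R ^ (-(10 : ℝ)) * R ^ (1 / 2 + c + s) := by
        apply mul_le_mul_of_nonneg_left _ (hp _).le
        rw [hN1]
        exact hN.nN
    _ = R ^ (-(19 / 2) + c + s) := by
        rw [← Real.rpow_add hR0]
        congr 1
        ring
    _ ≤ _ := by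
        have := hN.nbad
        linarith

theorem blr_core (hs0 : 0 < s) (hs3 : 100 * s ≤ c) (h3 : c ≤ 1 / 1000) (hN : BN R s c)
    (hμ : IsPr μ) (hν : IsPr ν) (sgn : ∀ x y, M x y = 1 ∨ M x y = -1)
    (rank : ((Matrix.of M).rank : ℝ) ≤ R) (f5 : FT ν z (fun _ => 1) (R ^ (1 / 2 + s)))
    (pkl : ∀ (p : X → ℝ) (q : Y → ℝ), IsPr p → IsPr q → AC p μ → AC q ν →
      LR2.em p q (ctd μ ν M) ≤ 2 * R ^ (-(1 / 2) + s) * (KL p μ + KL q ν) +
        6 * R ^ (-(1 / 2) + s))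
    (gam : A → ℝ) (Fa : A → Matrix ι ι ℝ) (h0 : ∀ a, 0 ≤ gam a) (h1 : ∑ a, gam a ≤ 1)
    (hP : ∀ a, IsProj (Fa a)) (htr : ∀ a, (Fa a).trace ≤ R ^ (1 / 2 + c))
    (hsp : ∀ v : ι → ℝ, ∑ a, gam a * (v ⬝ᵥ (Fa a *ᵥ v)) ≤ R ^ (-(1 / 2) + c) * (v ⬝ᵥ v))
    (ψ w : X → A → ι → ℝ) (hψ : ∀ x a, Fa a *ᵥ ψ x a = ψ x a)
    (hw : ∀ x a, Fa a *ᵥ w x a = w x a) (hψ1 : ∀ x a, ψ x a ⬝ᵥ ψ x a ≤ 1)
    (hw1 : ∀ x a, w x a ⬝ᵥ w x a ≤ 1)
    (hext : ∑ x, ∑ a, ∑ y, μ x * gam a * ν y * (if R ^ (1 / 2 - 100 * c) ≤ (ψ x a ⬝ᵥ z y) ^ 2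
        then (ψ x a ⬝ᵥ z y) ^ 2 else 0) ≤ R ^ (-(100 * c))) :
    |∑ x, ∑ a, ∑ y, μ x * gam a * ν y *
        (ctd μ ν M x y * ((ψ x a ⬝ᵥ z y) * (w x a ⬝ᵥ z y)))| ≤ R ^ (-c) := by
  have hR0 : 0 < R := by have := hN.R8; linarith
  have hR1 : 1 ≤ R := by have := hN.R8; linarith
  have hc0 : 0 < c := by linarith
  have hp : ∀ x : ℝ, 0 < R ^ x := fun x => Real.rpow_pos_of_pos hR0 x
  obtain ⟨a, m, K', d, rt, Θ, θ, q, L, p⟩ := exists_par hs0 hs3 h3 hN
  set N1 : ℝ := (2 * R ^ (1 / 2 + c) + 2 * R ^ (1 / 2 + s)) +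
    R ^ (1 / 2 + s) * (10 * Real.log R) with hN1
  have hN10 : 0 ≤ N1 := by
    have h4 := hp (1 / 2 + c)
    have h5 := hp (1 / 2 + s)
    have h6 := Real.log_nonneg hR1
    positivity
  have hq4 : q ^ 4 = R ^ (1 / 2 + c + s) := by
    rw [p.hq, ← Real.rpow_natCast, ← Real.rpow_mul hR0.le]
    congr 1
    push_cast
    ring
  have hNq : N1 ≤ q ^ 4 := by
    rw [hq4]
    exact hN.nN
  have hq1 : 1 ≤ q := by
    rw [p.hq]
    exact Real.one_le_rpow hR1 (by linarith)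
  have hq0 : 0 < q := by linarith
  have hL0 : 0 < L := by rw [p.hL]; exact hp _
  set ε : ℝ := 8 * q ^ 2 * Real.exp (2 + 2 * L - L ^ 2 / 2) with hε
  have hεq : ε * q ^ 2 ≤ R ^ (-(8 : ℝ)) := by
    have h4 : Real.exp (2 + 2 * L - L ^ 2 / 2) ≤ R ^ (-(10 : ℝ)) := by
      rw [p.hL]
      exact hN.nL
    calc ε * q ^ 2 = 8 * q ^ 4 * Real.exp (2 + 2 * L - L ^ 2 / 2) := by rw [hε]; ring
      _ ≤ R * R ^ (1 / 2 + c + s) * R ^ (-(10 : ℝ)) := by
          rw [hq4]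
          have h5 := hp (1 / 2 + c + s)
          exact mul_le_mul (mul_le_mul_of_nonneg_right hN.R8 h5.le) h4 (Real.exp_pos _).le
            (by positivity)
      _ = R ^ (1 : ℝ) * R ^ (1 / 2 + c + s) * R ^ (-(10 : ℝ)) := by rw [Real.rpow_one]
      _ = R ^ (1 + (1 / 2 + c + s) + -10) := by
          rw [← Real.rpow_add hR0, ← Real.rpow_add hR0]
      _ ≤ _ := Real.rpow_le_rpow_of_exponent_le hR1 (by linarith)
  have hε0 : 0 ≤ ε := by rw [hε]; positivity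
  have hε1 : ε ≤ 1 / 4 := by
    have h4 : 1 ≤ q ^ 2 := one_le_pow₀ hq1
    have h5 : R ^ (-(8 : ℝ)) ≤ R ^ (-(1 : ℝ)) :=
      Real.rpow_le_rpow_of_exponent_le hR1 (by norm_num)
    have h6 : R ^ (-(1 : ℝ)) ≤ 1 / 4 := by
      rw [Real.rpow_neg hR0.le, Real.rpow_one, inv_eq_one_div]
      have := hN.R8
      exact one_div_le_one_div_of_le (by norm_num) (le_trans (by norm_num) this)
    exact bf_1 hε0 h4 hεq h5 h6
  have hlb : R ^ (-(c + s)) * R ^ (c + s) = 1 := by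
    rw [← Real.rpow_add hR0]
    simp
  have hl1 : R ^ (-(c + s)) ≤ 1 / 2 := bf_2 hlb hN.nb (hp _)
  -- application of the bilinear theorem
  have H := blm_vec (Z := Option A) hμ hν (M := fun x y => ctd μ ν M x y / 4)
    (blr_abs hμ hν sgn) p.hd (by
      have h4 := blr_rank μ ν M
      have h5 : ((Matrix.of M).rank : ℝ) ≤ ((4 ^ d : ℕ) : ℝ) := by
        push_cast
        exact bf_3 rank p.d_pow
      exact h4.trans (by exact_mod_cast h5))
    (U := 0) (A := 3 / 2 * R ^ (-(1 / 2) + s)) (B := R ^ (-(1 / 2) + s) / 2)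
    (by norm_num) (by have := hp (-(1 / 2) + s); positivity)
    (by have := hp (-(1 / 2) + s); positivity) (blr_upr pkl) (δ := 0)
    (by rw [blr_mean hμ hν]; norm_num)
    (γ := blrG gam) (blrG_nonneg h0 h1) (blrG_one gam)
    (fp := blrF ψ) (fw := blrF w) (e := blrE z Fa N1)
    (blrF_sq hψ1) (blrF_sq hw1) hq1 (fun o y => (blrE_sq hP hN10 o y).trans hNq) hL0
    hε hε1 p.ha p.hm p.hK p.hrt p.hrt2 p.hΘ
    (T := R ^ (5 / 2 * c)) (lam := R ^ (-(c / 2) - s)) (l := R ^ (-(c + s)) / 4) (ρ := 1)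
    (hp _) (hp _) (Real.rpow_le_one_of_one_le_of_nonpos hR1 (by linarith))
    (by have := hp (-(c + s)); linarith) (by linarith) one_pos
    (fun o x y => rfl) (fun o x y => rfl) p.hθ
    (by
      have h4 : θ ^ 2 ≤ 16 * R ^ (-(10 * c)) := by
        have h5 : 0 ≤ θ := (hp _).le.trans p.θ_ge
        calc θ ^ 2 ≤ (4 * R ^ (-(5 * c))) ^ 2 := by
              have := p.θ_le
              gcongr
          _ = 16 * (R ^ (-(5 * c)) * R ^ (-(5 * c))) := by ring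
          _ = _ := by
              rw [← Real.rpow_add hR0]
              congr 2
              ring
      exact bf_8 h4 hN.nθ)
    (by
      have h4 : (R ^ (-(c / 2) - s)) ^ 2 = R ^ (-(c + 2 * s)) := by
        rw [← Real.rpow_natCast, ← Real.rpow_mul hR0.le]
        congr 1
        push_cast
        ring
      rw [h4]
      exact bf_9 hN.nlam)
    (C0 := 14) (ext := R ^ (-(100 * c)))
    (blr_moment hN hμ hν f5 h0 h1 hP hsp hw hw1 N1)
    (blr_moment hN hμ hν f5 h0 h1 hP hsp hψ hψ1 N1)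
    (by
      refine le_trans ?_ hext
      unfold LR2.em
      apply Finset.sum_le_sum
      intro x _
      rw [Finset.sum_comm]
      apply Finset.sum_le_sum
      intro y _
      beta_reduce
      rw [blrG_sum _ _ (by
        rw [blr_field0]
        split_ifs <;> norm_num), Finset.mul_sum]
      apply Finset.sum_le_sum
      intro b _
      rw [blr_field hP N1 hψ]
      have h4 : (if (m : ℝ) / 4 < (if N1 < z y ⬝ᵥ (Fa b *ᵥ z y) then 0 else
          ψ x b ⬝ᵥ z y) ^ 2 then (if N1 < z y ⬝ᵥ (Fa b *ᵥ z y) then 0 else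
          ψ x b ⬝ᵥ z y) ^ 2 else 0) ≤ (if R ^ (1 / 2 - 100 * c) ≤ (ψ x b ⬝ᵥ z y) ^ 2
            then (ψ x b ⬝ᵥ z y) ^ 2 else 0) := by
        have h5 : (0 : ℝ) ≤ (if R ^ (1 / 2 - 100 * c) ≤ (ψ x b ⬝ᵥ z y) ^ 2
            then (ψ x b ⬝ᵥ z y) ^ 2 else 0) := by
          split_ifs
          · positivity
          · exact le_rfl
        by_cases hb : N1 < z y ⬝ᵥ (Fa b *ᵥ z y)
        · rw [if_pos hb]
          refine le_trans (le_of_eq ?_) h5
          simp
        · rw [if_neg hb]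
          by_cases hc : (m : ℝ) / 4 < (ψ x b ⬝ᵥ z y) ^ 2
          · rw [if_pos hc, if_pos]
            exact bf_7 (M := 0) hN.nm p.m_ge hc
          · rw [if_neg hc]
            exact h5
      have h6 : 0 ≤ μ x * gam b * ν y :=
        mul_nonneg (mul_nonneg (hμ.nonneg x) (h0 b)) (hν.nonneg y)
      refine le_trans (le_of_eq ?_) (mul_le_mul_of_nonneg_left h4 h6)
      ring)
  have Hn := blr_num hs0 hs3 h3 hN p rfl rfl rfl rfl
    (ext := R ^ (-(100 * c))) (Real.rpow_le_rpow_of_exponent_le hR1 (by linarith)) hεq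
  have H2 := H.trans Hn
  set E := LR2.em μ ν (fun x y => (ctd μ ν M x y / 4 - 0) * ∑ o, blrG gam o *
    ((∑ i, blrF ψ o x i * blrE z Fa N1 o y i) * (∑ i, blrF w o x i * blrE z Fa N1 o y i)))
    with hE
  have H3 : θ * |E| ≤ R ^ (-(6 * c)) * (12 / 100) := H2
  have hE1 : |E| ≤ R ^ (-c) * (12 / 100) := by
    have h4 : R ^ (-(5 * c)) * |E| ≤ R ^ (-(5 * c)) * (R ^ (-c) * (12 / 100)) := by
      calc R ^ (-(5 * c)) * |E| ≤ θ * |E| := mul_le_mul_of_nonneg_right p.θ_ge (abs_nonneg _)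
        _ ≤ R ^ (-(6 * c)) * (12 / 100) := H3
        _ = R ^ (-(5 * c)) * R ^ (-c) * (12 / 100) := by
            rw [← Real.rpow_add hR0]
            congr 2
            ring
        _ = _ := by ring
    exact le_of_mul_le_mul_left h4 (hp _)
  have hE2 : 4 * E = ∑ x, ∑ b, ∑ y, μ x * gam b * ν y * (ctd μ ν M x y *
      (if N1 < z y ⬝ᵥ (Fa b *ᵥ z y) then 0 else (ψ x b ⬝ᵥ z y) * (w x b ⬝ᵥ z y))) := by
    rw [hE]
    unfold LR2.em
    rw [Finset.mul_sum]
    apply Finset.sum_congr rfl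
    intro x _
    rw [Finset.sum_comm, Finset.mul_sum]
    apply Finset.sum_congr rfl
    intro y _
    beta_reduce
    rw [blrG_sum _ _ (by rw [blr_field0, zero_mul]), Finset.mul_sum, Finset.mul_sum,
      Finset.mul_sum]
    apply Finset.sum_congr rfl
    intro b _
    rw [blr_field hP N1 hψ, blr_field hP N1 hw]
    split_ifs <;> ring
  have hS : ∑ x, ∑ a, ∑ y, μ x * gam a * ν y *
        (ctd μ ν M x y * ((ψ x a ⬝ᵥ z y) * (w x a ⬝ᵥ z y))) - 4 * E =
      ∑ x, ∑ b, ∑ y, μ x * gam b * ν y * (ctd μ ν M x y *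
      (if N1 < z y ⬝ᵥ (Fa b *ᵥ z y) then (ψ x b ⬝ᵥ z y) * (w x b ⬝ᵥ z y) else 0)) := by
    rw [hE2, ← Finset.sum_sub_distrib]
    apply Finset.sum_congr rfl
    intro x _
    rw [← Finset.sum_sub_distrib]
    apply Finset.sum_congr rfl
    intro b _
    rw [← Finset.sum_sub_distrib]
    apply Finset.sum_congr rfl
    intro y _
    split_ifs <;> ring
  have hS2 : |∑ x, ∑ b, ∑ y, μ x * gam b * ν y * (ctd μ ν M x y *
      (if N1 < z y ⬝ᵥ (Fa b *ᵥ z y) then (ψ x b ⬝ᵥ z y) * (w x b ⬝ᵥ z y) else 0))| ≤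
      R ^ (-c) / 4 := by
    have hM : ∀ x y, |ctd μ ν M x y| ≤ 4 := ctd_abs hμ hν (fun x y => by
      rcases sgn x y with h | h <;> rw [h] <;> norm_num)
    have hpt : ∀ x b y, |ctd μ ν M x y * (if N1 < z y ⬝ᵥ (Fa b *ᵥ z y) then
        (ψ x b ⬝ᵥ z y) * (w x b ⬝ᵥ z y) else 0)| ≤
        4 * (if N1 < z y ⬝ᵥ (Fa b *ᵥ z y) then z y ⬝ᵥ (Fa b *ᵥ z y) else 0) := by
      intro x b y
      rw [abs_mul]
      apply mul_le_mul (hM x y) _ (abs_nonneg _) (by norm_num)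
      split_ifs
      · rw [abs_mul]
        have h4 := blr_cs (hP b) (hψ x b) (hψ1 x b) (z y)
        have h5 := blr_cs (hP b) (hw x b) (hw1 x b) (z y)
        rw [← sq_abs] at h4 h5
        exact bf_4 h4 h5
      · simp
    calc _ ≤ ∑ x, ∑ b, ∑ y, μ x * gam b * ν y *
          (4 * (if N1 < z y ⬝ᵥ (Fa b *ᵥ z y) then z y ⬝ᵥ (Fa b *ᵥ z y) else 0)) := by
          refine (Finset.abs_sum_le_sum_abs _ _).trans ?_
          apply Finset.sum_le_sum
          intro x _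
          refine (Finset.abs_sum_le_sum_abs _ _).trans ?_
          apply Finset.sum_le_sum
          intro b _
          refine (Finset.abs_sum_le_sum_abs _ _).trans ?_
          apply Finset.sum_le_sum
          intro y _
          have h6 : 0 ≤ μ x * gam b * ν y :=
            mul_nonneg (mul_nonneg (hμ.nonneg x) (h0 b)) (hν.nonneg y)
          rw [abs_mul, abs_of_nonneg h6]
          exact mul_le_mul_of_nonneg_left (hpt x b y) h6
      _ = ∑ x, ∑ b, μ x * (gam b * (4 * ∑ y, ν y *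
          (if N1 < z y ⬝ᵥ (Fa b *ᵥ z y) then z y ⬝ᵥ (Fa b *ᵥ z y) else 0))) := by
          apply Finset.sum_congr rfl
          intro x _
          apply Finset.sum_congr rfl
          intro b _
          rw [Finset.mul_sum, Finset.mul_sum, Finset.mul_sum]
          apply Finset.sum_congr rfl
          intro y _
          ring
      _ ≤ ∑ x, ∑ b, μ x * (gam b * (4 * (R ^ (-c) / 16))) := by
          apply Finset.sum_le_sum
          intro x _
          apply Finset.sum_le_sum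
          intro b _
          apply mul_le_mul_of_nonneg_left _ (hμ.nonneg x)
          apply mul_le_mul_of_nonneg_left _ (h0 b)
          exact mul_le_mul_of_nonneg_left (blr_bad hs0 hN hν f5 (hP b) (htr b) hN1)
            (by norm_num)
      _ = (∑ x, μ x) * ((∑ b, gam b) * (R ^ (-c) / 4)) := by
          rw [Finset.sum_mul]
          apply Finset.sum_congr rfl
          intro x _
          rw [Finset.sum_mul, Finset.mul_sum]
          apply Finset.sum_congr rfl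
          intro b _
          ring
      _ ≤ _ := by
          rw [hμ.sum, one_mul]
          exact bf_5 h1 (hp (-c))
  rw [← hS] at hS2
  set S := ∑ x, ∑ a, ∑ y, μ x * gam a * ν y *
        (ctd μ ν M x y * ((ψ x a ⬝ᵥ z y) * (w x a ⬝ᵥ z y))) with hSd
  have h4 : |S| - |4 * E| ≤ |S - 4 * E| := abs_sub_abs_le_abs_sub _ _
  have h5 : |4 * E| = 4 * |E| := by
    rw [abs_mul, abs_of_pos (by norm_num : (0 : ℝ) < 4)]
  rw [h5] at h4
  exact bf_6 h4 hS2 hE1 (hp (-c))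

end Core

end Pool.Agent.LRC
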