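import Pool.Agent.Lib_helper94.LRC.Defs
import Pool.Agent.Lib_helper59.LR2.P4

/-!
# X': one label
-/

set_option autoImplicit false
set_option linter.unusedSectionVars false
set_option linter.unusedVariables false

open Finset Matrix

namespace Pool.Agent.LRC

open Pool.Agent.LR2

section Lab

variable {X Y : Type} [Fintype X] [Fintype Y] {μ : X → ℝ} {ν : Y → ℝ} {B : X → Y → ℝ}

open Classical in
/-- normalised indicator -/
noncomputable def xqI (μ : X → ℝ) (S : Finset X) (x : X) : ℝ :=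
  if x ∈ S then (∑ x' ∈ S, μ x')⁻¹ else 0

theorem xqI_sum (μ : X → ℝ) (S : Finset X) (F : X → ℝ) :
    ∑ x, μ x * xqI μ S x * F x = (∑ x' ∈ S, μ x')⁻¹ * ∑ x ∈ S, μ x * F x := by
  classical
  simp only [xqI, mul_ite, ite_mul, mul_zero, zero_mul]
  rw [Finset.sum_ite_mem, Finset.univ_inter, Finset.mul_sum]
  apply Finset.sum_congr rfl
  intro x _
  ring

theorem xqI_one {S : Finset X} (hS : 0 < ∑ x ∈ S, μ x) : ∑ x, μ x * xqI μ S x = 1 := by
  have h := xqI_sum μ S (fun _ => 1)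
  simp only [mul_one] at h
  rw [h]
  exact inv_mul_cancel₀ hS.ne'

theorem xqI_nonneg (hμ : IsPr μ) (S : Finset X) (x : X) : 0 ≤ xqI μ S x := by
  unfold xqI
  split_ifs
  · exact inv_nonneg.mpr (Finset.sum_nonneg fun x _ => hμ.nonneg x)
  · exact le_rfl

theorem xqI_le {S : Finset X} {p : ℝ} (hp : 0 < p) (hS : p ≤ ∑ x ∈ S, μ x) (x : X) :
    xqI μ S x ≤ 1 / p := by
  unfold xqI
  split_ifs
  · rw [one_div]
    exact inv_anti₀ hp hS
  · positivity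

theorem xqI_zero {S : Finset X} {x : X} (hx : x ∉ S) : xqI μ S x = 0 := by
  classical
  unfold xqI
  rw [if_neg hx]

/-- the value of a pair of densities -/
theorem xq_em (S : Finset X) (k : Y → ℝ) (D : ℝ) :
    LR2.em (fun x => μ x * xqI μ S x) (fun y => ν y * (k y / D)) B =
      (∑ x ∈ S, μ x)⁻¹ * ∑ x ∈ S, μ x * ((∑ y, ν y * (B x y * k y)) / D) := by
  rw [← xqI_sum]
  unfold LR2.em
  apply Finset.sum_congr rfl
  intro x _
  rw [Finset.sum_div, Finset.mul_sum]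
  apply Finset.sum_congr rfl
  intro y _
  ring

theorem xq_em_ge (hμ : IsPr μ) {S : Finset X} (hS : 0 < ∑ x ∈ S, μ x) {k : Y → ℝ} {D ℓ : ℝ}
    (hD : 0 < D) (h : ∀ x ∈ S, ℓ ≤ ∑ y, ν y * (B x y * k y)) :
    ℓ / D ≤ LR2.em (fun x => μ x * xqI μ S x) (fun y => ν y * (k y / D)) B := by
  rw [xq_em, inv_mul_eq_div, le_div_iff₀ hS, mul_comm, Finset.sum_mul]
  apply Finset.sum_le_sum
  intro x hx
  exact mul_le_mul_of_nonneg_left (div_le_div_of_nonneg_right (h x hx) hD.le) (hμ.nonneg x)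

theorem xq_em_le (hμ : IsPr μ) {S : Finset X} (hS : 0 < ∑ x ∈ S, μ x) {k : Y → ℝ} {D ℓ : ℝ}
    (hD : 0 < D) (h : ∀ x ∈ S, ∑ y, ν y * (B x y * k y) ≤ ℓ) :
    LR2.em (fun x => μ x * xqI μ S x) (fun y => ν y * (k y / D)) B ≤ ℓ / D := by
  rw [xq_em, inv_mul_eq_div, div_le_iff₀ hS, mul_comm, Finset.sum_mul]
  apply Finset.sum_le_sum
  intro x hx
  exact mul_le_mul_of_nonneg_left (div_le_div_of_nonneg_right (h x hx) hD.le) (hμ.nonneg x)

/-- the small part of a field is harmless -/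
theorem xq_small (hμ : IsPr μ) (hν : IsPr ν) (hrow : ∀ x, ∑ y, ν y * B x y = 0) {lam : ℝ}
    (hlam : 0 < lam)
    (ps : ∀ (p : X → ℝ) (q : Y → ℝ) (s t : ℝ), IsPr p → IsPr q → (∀ x, p x ≤ Real.exp s * μ x) →
      (∀ y, q y ≤ Real.exp t * ν y) → LR2.em p q B ≤ lam * (s + t + 2))
    {h : Y → ℝ} {τ0 : ℝ} (hτ : 2 ≤ τ0) (hh : ∀ y, |h y| ≤ τ0) (h1 : ∑ y, ν y * |h y| ≤ 1)
    {S : Finset X} {p2 : ℝ} (hp2 : 0 < p2) (hS : p2 ≤ ∑ x ∈ S, μ x) {ℓ : ℝ}
    (hx : ∀ x ∈ S, ℓ ≤ ∑ y, ν y * (B x y * h y)) :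
    ℓ ≤ 3 / 2 * τ0 * (lam * (Real.log (1 / p2) + 4)) := by
  have hτ0 : 0 < τ0 := by linarith
  have hS0 : 0 < ∑ x ∈ S, μ x := lt_of_lt_of_le hp2 hS
  set e := ∑ y, ν y * h y with he
  have he1 : |e| ≤ 1 := by
    refine le_trans (Finset.abs_sum_le_sum_abs _ _) (le_trans (le_of_eq ?_) h1)
    apply Finset.sum_congr rfl
    intro y _
    rw [abs_mul, abs_of_nonneg (hν.nonneg y)]
  have he2 := abs_le.mp he1
  set D := τ0 + e with hD
  have hD1 : 1 / 2 * τ0 ≤ D := by linarith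
  have hD2 : D ≤ 3 / 2 * τ0 := by linarith
  have hD0 : 0 < D := by linarith
  set k : Y → ℝ := fun y => τ0 + h y with hk
  have hk0 : ∀ y, 0 ≤ k y := fun y => by
    have := (abs_le.mp (hh y)).1
    simp only [hk]
    linarith
  have hk2 : ∀ y, k y ≤ 2 * τ0 := fun y => by
    have := (abs_le.mp (hh y)).2
    simp only [hk]
    linarith
  have hkD : ∑ y, ν y * k y = D := by
    simp only [hk, mul_add, Finset.sum_add_distrib]
    rw [← Finset.sum_mul, hν.sum, one_mul]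
  have hq : IsPr (fun y => ν y * (k y / D)) := by
    refine ⟨fun y => mul_nonneg (hν.nonneg y) (div_nonneg (hk0 y) hD0.le), ?_⟩
    have : ∀ y, ν y * (k y / D) = ν y * k y / D := fun y => by ring
    simp only [this]
    rw [← Finset.sum_div, hkD]
    exact div_self hD0.ne'
  have hp : IsPr (fun x => μ x * xqI μ S x) :=
    ⟨fun x => mul_nonneg (hμ.nonneg x) (xqI_nonneg hμ S x), xqI_one hS0⟩
  have hkB : ∀ x, ∑ y, ν y * (B x y * k y) = ∑ y, ν y * (B x y * h y) := by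
    intro x
    have e1 : ∀ y, ν y * (B x y * k y) = τ0 * (ν y * B x y) + ν y * (B x y * h y) := by
      intro y
      simp only [hk]
      ring
    simp only [e1]
    rw [Finset.sum_add_distrib, ← Finset.mul_sum, hrow, mul_zero, zero_add]
  have h2 := ps _ _ (Real.log (1 / p2)) (Real.log 4) hp hq
    (fun x => by
      rw [Real.exp_log (by positivity), mul_comm]
      exact mul_le_mul_of_nonneg_right (xqI_le hp2 hS x) (hμ.nonneg x))
    (fun y => by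
      rw [Real.exp_log (by norm_num), mul_comm (4 : ℝ)]
      apply mul_le_mul_of_nonneg_left _ (hν.nonneg y)
      rw [div_le_iff₀ hD0]
      linarith [hk2 y])
  have h3 := xq_em_ge hμ hS0 hD0 (k := k) (ℓ := ℓ) (fun x hxS => by
    rw [hkB]
    exact hx x hxS)
  have h4 := h3.trans h2
  rw [div_le_iff₀ hD0] at h4
  have h5 : Real.log 4 ≤ 2 := by
    have : Real.log 4 = 2 * Real.log 2 := by
      rw [show (4 : ℝ) = 2 ^ 2 by norm_num, Real.log_pow]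
      norm_num
    rw [this]
    have := Real.log_two_lt_d9
    linarith
  have hp21 : p2 ≤ 1 := by
    refine hS.trans ?_
    rw [← hμ.sum]
    exact Finset.sum_le_sum_of_subset_of_nonneg (Finset.subset_univ S) (fun x _ _ => hμ.nonneg x)
  have h6 : 0 ≤ Real.log (1 / p2) := Real.log_nonneg (by
    rw [le_div_iff₀ hp2]
    linarith)
  calc ℓ ≤ lam * (Real.log (1 / p2) + Real.log 4 + 2) * D := h4
    _ ≤ lam * (Real.log (1 / p2) + 4) * (3 / 2 * τ0) := by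
        apply mul_le_mul _ hD2 hD0.le (by positivity)
        apply mul_le_mul_of_nonneg_left _ hlam.le
        linarith
    _ = _ := by ring

/-- a class of rows on which a nonnegative function of the columns is biased -/
theorem xq_class (hμ : IsPr μ) (hν : IsPr ν) (hB : ∀ x y, |B x y| ≤ 4)
    {k : Y → ℝ} (hk0 : ∀ y, 0 ≤ k y) {τ1 : ℝ} (hk1 : ∀ y, k y ≤ τ1)
    {S : Finset X} {p2 : ℝ} (hp2 : 0 < p2) (hS : p2 ≤ ∑ x ∈ S, μ x) {ℓ : ℝ} (hℓ : 0 < ℓ)
    {σ : ℝ} (hσ : |σ| = 1) (hx : ∀ x ∈ S, ℓ ≤ σ * ∑ y, ν y * (B x y * k y)) :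
    ℓ / 4 ≤ ∑ y, ν y * k y ∧ IsPr (fun x => μ x * xqI μ S x) ∧
      IsPr (fun y => ν y * (k y / ∑ y, ν y * k y)) ∧
      (∀ y, k y / (∑ y, ν y * k y) ≤ 4 * τ1 / ℓ) := by
  have hS0 : 0 < ∑ x ∈ S, μ x := lt_of_lt_of_le hp2 hS
  have hne : S.Nonempty := by
    rcases S.eq_empty_or_nonempty with h | h
    · rw [h] at hS0
      simp at hS0
    · exact h
  obtain ⟨x, hxS⟩ := hne
  have h1 : ℓ ≤ 4 * ∑ y, ν y * k y := by
    calc ℓ ≤ σ * ∑ y, ν y * (B x y * k y) := hx x hxS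
      _ ≤ |σ * ∑ y, ν y * (B x y * k y)| := le_abs_self _
      _ = |∑ y, ν y * (B x y * k y)| := by rw [abs_mul, hσ, one_mul]
      _ ≤ ∑ y, |ν y * (B x y * k y)| := Finset.abs_sum_le_sum_abs _ _
      _ ≤ ∑ y, 4 * (ν y * k y) := by
          apply Finset.sum_le_sum
          intro y _
          rw [abs_mul, abs_mul, abs_of_nonneg (hν.nonneg y), abs_of_nonneg (hk0 y)]
          have := mul_le_mul_of_nonneg_right (hB x y) (mul_nonneg (hν.nonneg y) (hk0 y))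
          linarith
      _ = _ := by rw [Finset.mul_sum]
  set D := ∑ y, ν y * k y with hD
  have hD0 : 0 < D := by linarith
  refine ⟨by linarith, ⟨fun x => mul_nonneg (hμ.nonneg x) (xqI_nonneg hμ S x), xqI_one hS0⟩,
    ⟨fun y => mul_nonneg (hν.nonneg y) (div_nonneg (hk0 y) hD0.le), ?_⟩, fun y => ?_⟩
  · have : ∀ y, ν y * (k y / D) = ν y * k y / D := fun y => by ring
    simp only [this]
    rw [← Finset.sum_div, ← hD]
    exact div_self hD0.ne'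
  · have h2 : 0 ≤ τ1 := (hk0 y).trans (hk1 y)
    rw [div_le_div_iff₀ hD0 hℓ]
    calc k y * ℓ ≤ τ1 * (4 * D) := mul_le_mul (hk1 y) h1 hℓ.le h2
      _ = _ := by ring

/-- positive bias is impossible -/
theorem xq_plus (hμ : IsPr μ) (hν : IsPr ν) (hB : ∀ x y, |B x y| ≤ 4) {lam : ℝ}
    (ps : ∀ (p : X → ℝ) (q : Y → ℝ) (s t : ℝ), IsPr p → IsPr q → (∀ x, p x ≤ Real.exp s * μ x) →
      (∀ y, q y ≤ Real.exp t * ν y) → LR2.em p q B ≤ lam * (s + t + 2))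
    {k : Y → ℝ} (hk0 : ∀ y, 0 ≤ k y) {τ1 : ℝ} (hk1 : ∀ y, k y ≤ τ1) (hτ1 : 0 < τ1)
    {τ0 : ℝ} (hτ0 : 0 < τ0) (hkD : ∑ y, ν y * k y ≤ 1 / τ0)
    {S : Finset X} {p2 : ℝ} (hp2 : 0 < p2) (hS : p2 ≤ ∑ x ∈ S, μ x) {ℓ : ℝ} (hℓ : 0 < ℓ)
    (hx : ∀ x ∈ S, ℓ ≤ ∑ y, ν y * (B x y * k y)) :
    ℓ * τ0 ≤ lam * (Real.log (1 / p2) + Real.log (4 * τ1 / ℓ) + 2) := by
  have hS0 : 0 < ∑ x ∈ S, μ x := lt_of_lt_of_le hp2 hS
  obtain ⟨h1, h2, h3, h4⟩ := xq_class hμ hν hB hk0 hk1 hp2 hS hℓ (σ := 1) (by norm_num)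
    (fun x hxS => by rw [one_mul]; exact hx x hxS)
  set D := ∑ y, ν y * k y with hD
  have hD0 : 0 < D := by linarith
  have h5 := xq_em_ge hμ hS0 hD0 hx
  have h6 := ps _ _ (Real.log (1 / p2)) (Real.log (4 * τ1 / ℓ)) h2 h3
    (fun x => by
      rw [Real.exp_log (by positivity), mul_comm]
      exact mul_le_mul_of_nonneg_right (xqI_le hp2 hS x) (hμ.nonneg x))
    (fun y => by
      rw [Real.exp_log (by positivity), mul_comm (4 * τ1 / ℓ)]
      exact mul_le_mul_of_nonneg_left (h4 y) (hν.nonneg y))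
  have h7 : ℓ * τ0 ≤ ℓ / D := by
    rw [le_div_iff₀ hD0]
    calc ℓ * τ0 * D ≤ ℓ * τ0 * (1 / τ0) :=
          mul_le_mul_of_nonneg_left hkD (by positivity)
      _ = ℓ := by field_simp
  linarith

/-- negative bias gives a pair of densities -/
theorem xq_minus (hμ : IsPr μ) (hν : IsPr ν) (hB : ∀ x y, |B x y| ≤ 4)
    {h : Y → ℝ} {k : Y → ℝ} (hk0 : ∀ y, 0 ≤ k y) {τ1 : ℝ} (hk1 : ∀ y, k y ≤ τ1)
    {τ0 : ℝ} (hτ0 : 0 < τ0) (hkh : ∀ y, τ0 * k y ≤ h y ^ 2) (h2 : ∑ y, ν y * h y ^ 2 ≤ 1)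
    {S : Finset X} {p2 : ℝ} (hp2 : 0 < p2) (hS : p2 ≤ ∑ x ∈ S, μ x) {ℓ : ℝ} (hℓ : 0 < ℓ)
    (hx : ∀ x ∈ S, ∑ y, ν y * (B x y * k y) ≤ -ℓ) :
    ∃ (f : X → ℝ) (g : Y → ℝ), (∀ x, 0 ≤ f x) ∧ (∀ x, f x ≤ 1 / p2) ∧ (∀ x, x ∉ S → f x = 0) ∧
      ∑ x, μ x * f x = 1 ∧ (∀ y, 0 ≤ g y) ∧ (∀ y, g y ≤ 4 * τ1 / ℓ) ∧ ∑ y, ν y * g y = 1 ∧
      (∀ y, g y ≤ 4 / (τ0 * ℓ) * h y ^ 2) ∧
      LR2.em (fun x => μ x * f x) (fun y => ν y * g y) B ≤ -(ℓ * τ0) := by
  have hS0 : 0 < ∑ x ∈ S, μ x := lt_of_lt_of_le hp2 hS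
  obtain ⟨h3, h4, h5, h6⟩ := xq_class hμ hν hB hk0 hk1 hp2 hS hℓ (σ := -1) (by norm_num)
    (fun x hxS => by have := hx x hxS; linarith)
  set D := ∑ y, ν y * k y with hD
  have hD0 : 0 < D := by linarith
  have hkD : D * τ0 ≤ 1 := by
    refine le_trans ?_ h2
    rw [hD, Finset.sum_mul]
    apply Finset.sum_le_sum
    intro y _
    have := mul_le_mul_of_nonneg_left (hkh y) (hν.nonneg y)
    linarith
  refine ⟨xqI μ S, fun y => k y / D, xqI_nonneg hμ S, xqI_le hp2 hS, fun x hxS => xqI_zero hxS,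
    h4.sum, fun y => div_nonneg (hk0 y) hD0.le, h6, h5.sum, fun y => ?_, ?_⟩
  · rw [div_le_iff₀ hD0]
    have h7 : 1 ≤ 4 / ℓ * D := by
      rw [div_mul_eq_mul_div, le_div_iff₀ hℓ]
      linarith
    calc k y ≤ h y ^ 2 / τ0 := by
          rw [le_div_iff₀ hτ0]
          linarith [hkh y]
      _ = h y ^ 2 / τ0 * 1 := by ring
      _ ≤ h y ^ 2 / τ0 * (4 / ℓ * D) := mul_le_mul_of_nonneg_left h7 (by positivity)
      _ = _ := by field_simp
  · refine (xq_em_le hμ hS0 hD0 hx).trans ?_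
    rw [neg_div, neg_le_neg_iff, le_div_iff₀ hD0]
    calc ℓ * τ0 * D = ℓ * (D * τ0) := by ring
      _ ≤ ℓ * 1 := mul_le_mul_of_nonneg_left hkD hℓ.le
      _ = ℓ := mul_one ℓ

/-- one label of X' -/
theorem xq_label (hμ : IsPr μ) (hν : IsPr ν) (hB : ∀ x y, |B x y| ≤ 4)
    (hrow : ∀ x, ∑ y, ν y * B x y = 0) {lam : ℝ} (hlam : 0 < lam)
    (ps : ∀ (p : X → ℝ) (q : Y → ℝ) (s t : ℝ), IsPr p → IsPr q → (∀ x, p x ≤ Real.exp s * μ x) →
      (∀ y, q y ≤ Real.exp t * ν y) → LR2.em p q B ≤ lam * (s + t + 2))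
    {h : Y → ℝ} (h2 : ∑ y, ν y * h y ^ 2 ≤ 1) {τ1 e0 : ℝ} (hτ1 : 1 ≤ τ1)
    (tail : ∑ y, ν y * (if τ1 ^ 2 < h y ^ 2 then h y ^ 2 else 0) ≤ e0)
    {S : Finset X} {p1 ℓ τ0 : ℝ} (hp1 : 0 < p1) (hS : p1 ≤ ∑ x ∈ S, μ x) (hℓ : 0 < ℓ)
    (hx : ∀ x ∈ S, ℓ ≤ |∑ y, ν y * (B x y * h y)|) (hτ : 2 ≤ τ0) (hτN : τ0 ≤ τ1)
    (c1 : 16 * e0 ≤ ℓ) (c2 : 3 / 2 * τ0 * (lam * (Real.log (1 / (p1 / 8)) + 4)) < ℓ / 4)
    (c3 : lam * (Real.log (1 / (p1 / 8)) + Real.log (4 * τ1 / (ℓ / 4)) + 2) < ℓ / 4 * τ0) :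
    ∃ (f : X → ℝ) (g : Y → ℝ), (∀ x, 0 ≤ f x) ∧ (∀ x, f x ≤ 1 / (p1 / 8)) ∧
      (∀ x, x ∉ S → f x = 0) ∧
      ∑ x, μ x * f x = 1 ∧ (∀ y, 0 ≤ g y) ∧ (∀ y, g y ≤ 4 * τ1 / (ℓ / 4)) ∧
      ∑ y, ν y * g y = 1 ∧ (∀ y, g y ≤ 4 / (τ0 * (ℓ / 4)) * h y ^ 2) ∧
      LR2.em (fun x => μ x * f x) (fun y => ν y * g y) B ≤ -(ℓ / 4 * τ0) := by
  classical
  have hτ0 : 0 < τ0 := by linarith
  have hp8 : 0 < p1 / 8 := by positivity
  have hℓ4 : 0 < ℓ / 4 := by positivity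
  set h0 : Y → ℝ := fun y => if |h y| < τ0 then h y else 0 with hh0
  set hb : Y → ℝ := fun y => if τ1 ^ 2 < h y ^ 2 then h y else 0 with hhb
  set kp : Y → ℝ := fun y => if τ0 ≤ |h y| ∧ h y ^ 2 ≤ τ1 ^ 2 then max (h y) 0 else 0 with hkp
  set km : Y → ℝ := fun y => if τ0 ≤ |h y| ∧ h y ^ 2 ≤ τ1 ^ 2 then max (-h y) 0 else 0 with hkm
  have hdec : ∀ y, h y = h0 y + hb y + kp y - km y := by
    intro y
    simp only [hh0, hhb, hkp, hkm]
    by_cases c : |h y| < τ0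
    · have c' : ¬ τ1 ^ 2 < h y ^ 2 := by
        rw [not_lt, ← sq_abs (h y)]
        have := abs_nonneg (h y)
        nlinarith
      have c'' : ¬ (τ0 ≤ |h y| ∧ h y ^ 2 ≤ τ1 ^ 2) := fun h' => absurd c (not_lt.mpr h'.1)
      rw [if_pos c, if_neg c', if_neg c'', if_neg c'']
      ring
    · by_cases c' : τ1 ^ 2 < h y ^ 2
      · have c'' : ¬ (τ0 ≤ |h y| ∧ h y ^ 2 ≤ τ1 ^ 2) := fun h' => absurd c' (not_lt.mpr h'.2)
        rw [if_neg c, if_pos c', if_neg c'', if_neg c'']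
        ring
      · have c'' : τ0 ≤ |h y| ∧ h y ^ 2 ≤ τ1 ^ 2 := ⟨not_lt.mp c, not_lt.mp c'⟩
        rw [if_neg c, if_neg c', if_pos c'', if_pos c'']
        rcases le_total 0 (h y) with h' | h'
        · rw [max_eq_left h', max_eq_right (by linarith)]
          ring
        · rw [max_eq_right h', max_eq_left (by linarith)]
          ring
  have hk : ∀ y, (0 ≤ kp y ∧ kp y ≤ τ1 ∧ τ0 * kp y ≤ h y ^ 2) ∧
      (0 ≤ km y ∧ km y ≤ τ1 ∧ τ0 * km y ≤ h y ^ 2) := by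
    intro y
    simp only [hkp, hkm]
    by_cases c'' : τ0 ≤ |h y| ∧ h y ^ 2 ≤ τ1 ^ 2
    · rw [if_pos c'', if_pos c'']
      have d1 : |h y| ≤ τ1 := abs_le_of_sq_le_sq c''.2 (by linarith)
      have d2 : max (h y) 0 ≤ |h y| := max_le (le_abs_self _) (abs_nonneg _)
      have d3 : max (-h y) 0 ≤ |h y| := max_le (neg_le_abs _) (abs_nonneg _)
      have d4 : τ0 * |h y| ≤ h y ^ 2 := by
        rw [← sq_abs (h y)]
        nlinarith [abs_nonneg (h y), c''.1]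
      have d5 := mul_le_mul_of_nonneg_left d2 hτ0.le
      have d6 := mul_le_mul_of_nonneg_left d3 hτ0.le
      exact ⟨⟨le_max_right _ _, by linarith, by linarith⟩,
        ⟨le_max_right _ _, by linarith, by linarith⟩⟩
    · rw [if_neg c'', if_neg c'']
      have := sq_nonneg (h y)
      exact ⟨⟨le_rfl, by linarith, by linarith⟩, ⟨le_rfl, by linarith, by linarith⟩⟩
  have hkD : ∀ k : Y → ℝ, (∀ y, τ0 * k y ≤ h y ^ 2) → ∑ y, ν y * k y ≤ 1 / τ0 := by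
    intro k hk'
    rw [le_div_iff₀ hτ0, Finset.sum_mul]
    refine le_trans ?_ h2
    apply Finset.sum_le_sum
    intro y _
    have := mul_le_mul_of_nonneg_left (hk' y) (hν.nonneg y)
    linarith
  -- the small part
  have hh1 : ∑ y, ν y * |h0 y| ≤ 1 := by
    have d1 : ∑ y, ν y * |h0 y| ≤ ∑ y, ν y * ((1 + h y ^ 2) / 2) := by
      apply Finset.sum_le_sum
      intro y _
      apply mul_le_mul_of_nonneg_left _ (hν.nonneg y)
      simp only [hh0]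
      split_ifs
      · rw [← sq_abs (h y)]
        nlinarith [sq_nonneg (|h y| - 1)]
      · rw [abs_zero]
        positivity
    have d2 : ∑ y, ν y * ((1 + h y ^ 2) / 2) = (1 + ∑ y, ν y * h y ^ 2) / 2 := by
      have : ∀ y, ν y * ((1 + h y ^ 2) / 2) = (ν y + ν y * h y ^ 2) / 2 := fun y => by ring
      simp only [this]
      rw [← Finset.sum_div, Finset.sum_add_distrib, hν.sum]
    linarith
  have hh0τ : ∀ y, |h0 y| ≤ τ0 := by
    intro y
    simp only [hh0]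
    split_ifs with c
    · exact c.le
    · rw [abs_zero]
      exact hτ0.le
  -- the big part
  have hbig : ∀ x, |∑ y, ν y * (B x y * hb y)| ≤ ℓ / 4 := by
    intro x
    calc |∑ y, ν y * (B x y * hb y)| ≤ ∑ y, |ν y * (B x y * hb y)| :=
          Finset.abs_sum_le_sum_abs _ _
      _ ≤ ∑ y, 4 * (ν y * (if τ1 ^ 2 < h y ^ 2 then h y ^ 2 else 0)) := by
          apply Finset.sum_le_sum
          intro y _
          rw [abs_mul, abs_mul, abs_of_nonneg (hν.nonneg y)]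
          simp only [hhb]
          split_ifs with c
          · have d1 : 1 ≤ |h y| := by
              rw [← sq_abs (h y)] at c
              nlinarith [abs_nonneg (h y)]
            have d2 : |h y| ≤ h y ^ 2 := by
              rw [← sq_abs (h y)]
              nlinarith
            have d3 : |B x y| * |h y| ≤ 4 * h y ^ 2 :=
              mul_le_mul (hB x y) d2 (abs_nonneg _) (by norm_num)
            have := mul_le_mul_of_nonneg_left d3 (hν.nonneg y)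
            linarith
          · simp
      _ = 4 * ∑ y, ν y * (if τ1 ^ 2 < h y ^ 2 then h y ^ 2 else 0) := by rw [Finset.mul_sum]
      _ ≤ 4 * e0 := by linarith
      _ ≤ ℓ / 4 := by linarith
  -- the classes
  set A : (Y → ℝ) → ℝ → Finset X := fun k σ =>
    S.filter (fun x => ℓ / 4 ≤ σ * ∑ y, ν y * (B x y * k y)) with hA
  have hcover : S ⊆ (((A h0 1 ∪ A h0 (-1)) ∪ (A kp 1 ∪ A km 1)) ∪ (A kp (-1) ∪ A km (-1))) := by
    intro x hxS
    have d1 := hx x hxS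
    have d2 : ∑ y, ν y * (B x y * h y) = ∑ y, ν y * (B x y * h0 y) +
        ∑ y, ν y * (B x y * hb y) + ∑ y, ν y * (B x y * kp y) - ∑ y, ν y * (B x y * km y) := by
      rw [← Finset.sum_add_distrib, ← Finset.sum_add_distrib, ← Finset.sum_sub_distrib]
      apply Finset.sum_congr rfl
      intro y _
      have e := hdec y
      calc ν y * (B x y * h y) = ν y * (B x y * (h0 y + hb y + kp y - km y)) := by rw [← e]
        _ = _ := by ring
    have d3 := hbig x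
    simp only [hA, Finset.mem_union, Finset.mem_filter, hxS, true_and, one_mul]
    by_contra hcon
    push Not at hcon
    obtain ⟨⟨⟨e1, e2⟩, e3, e4⟩, e5, e6⟩ := hcon
    rw [d2] at d1
    have d4 := abs_le.mp d3
    have : |∑ y, ν y * (B x y * h0 y) + ∑ y, ν y * (B x y * hb y) +
        ∑ y, ν y * (B x y * kp y) - ∑ y, ν y * (B x y * km y)| < ℓ := by
      rw [abs_lt]
      constructor <;> linarith
    linarith
  have hsub : ∑ x ∈ S, μ x ≤ ((∑ x ∈ A h0 1, μ x + ∑ x ∈ A h0 (-1), μ x) +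
      (∑ x ∈ A kp 1, μ x + ∑ x ∈ A km 1, μ x)) +
      (∑ x ∈ A kp (-1), μ x + ∑ x ∈ A km (-1), μ x) := by
    have hun : ∀ U V : Finset X, ∑ x ∈ U ∪ V, μ x ≤ ∑ x ∈ U, μ x + ∑ x ∈ V, μ x := by
      intro U V
      have := Finset.sum_union_inter (s₁ := U) (s₂ := V) (f := μ)
      have h' : 0 ≤ ∑ x ∈ U ∩ V, μ x := Finset.sum_nonneg fun x _ => hμ.nonneg x
      linarith
    have d1 := Finset.sum_le_sum_of_subset_of_nonneg hcover (fun x _ _ => hμ.nonneg x)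
    have d2 := hun ((A h0 1 ∪ A h0 (-1)) ∪ (A kp 1 ∪ A km 1)) (A kp (-1) ∪ A km (-1))
    have d3 := hun (A h0 1 ∪ A h0 (-1)) (A kp 1 ∪ A km 1)
    have d4 := hun (A h0 1) (A h0 (-1))
    have d5 := hun (A kp 1) (A km 1)
    have d6 := hun (A kp (-1)) (A km (-1))
    linarith
  have s1 : ∑ x ∈ A h0 1, μ x < p1 / 8 := by
    by_contra hcon
    push Not at hcon
    have := xq_small hμ hν hrow hlam ps hτ hh0τ hh1 hp8 hcon (ℓ := ℓ / 4) (fun x hxA => by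
      have := (Finset.mem_filter.mp hxA).2
      rwa [one_mul] at this)
    linarith
  have s2 : ∑ x ∈ A h0 (-1), μ x < p1 / 8 := by
    by_contra hcon
    push Not at hcon
    have := xq_small hμ hν hrow hlam ps hτ (h := fun y => -h0 y)
      (fun y => by rw [abs_neg]; exact hh0τ y) (by simp only [abs_neg]; exact hh1) hp8 hcon
      (ℓ := ℓ / 4) (fun x hxA => by
        have h' := (Finset.mem_filter.mp hxA).2
        have e : ∑ y, ν y * (B x y * -h0 y) = -1 * ∑ y, ν y * (B x y * h0 y) := by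
          rw [Finset.mul_sum]
          apply Finset.sum_congr rfl
          intro y _
          ring
        rw [e]
        exact h')
    linarith
  have s3 : ∑ x ∈ A kp 1, μ x < p1 / 8 := by
    by_contra hcon
    push Not at hcon
    have := xq_plus hμ hν hB ps (fun y => (hk y).1.1) (fun y => (hk y).1.2.1) (by linarith) hτ0
      (hkD kp fun y => (hk y).1.2.2) hp8 hcon hℓ4 (fun x hxA => by
      have := (Finset.mem_filter.mp hxA).2
      rwa [one_mul] at this)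
    linarith
  have s4 : ∑ x ∈ A km 1, μ x < p1 / 8 := by
    by_contra hcon
    push Not at hcon
    have := xq_plus hμ hν hB ps (fun y => (hk y).2.1) (fun y => (hk y).2.2.1) (by linarith) hτ0
      (hkD km fun y => (hk y).2.2.2) hp8 hcon hℓ4 (fun x hxA => by
      have := (Finset.mem_filter.mp hxA).2
      rwa [one_mul] at this)
    linarith
  by_cases c : p1 / 8 ≤ ∑ x ∈ A kp (-1), μ x
  · obtain ⟨f, g, f0, f1, f2, f3, g0, g1, g2, g3, hem⟩ := xq_minus hμ hν hB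
      (fun y => (hk y).1.1) (fun y => (hk y).1.2.1) hτ0 (fun y => (hk y).1.2.2) h2 hp8 c hℓ4
      (fun x hxA => by
        have := (Finset.mem_filter.mp hxA).2
        linarith)
    exact ⟨f, g, f0, f1, fun x hxS => f2 x (fun h' => hxS (Finset.mem_filter.mp h').1), f3, g0,
      g1, g2, g3, hem⟩
  · have c' : p1 / 8 ≤ ∑ x ∈ A km (-1), μ x := by
      push Not at c
      linarith
    obtain ⟨f, g, f0, f1, f2, f3, g0, g1, g2, g3, hem⟩ := xq_minus hμ hν hB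
      (fun y => (hk y).2.1) (fun y => (hk y).2.2.1) hτ0 (fun y => (hk y).2.2.2) h2 hp8 c' hℓ4
      (fun x hxA => by
        have := (Finset.mem_filter.mp hxA).2
        linarith)
    exact ⟨f, g, f0, f1, fun x hxS => f2 x (fun h' => hxS (Finset.mem_filter.mp h').1), f3, g0,
      g1, g2, g3, hem⟩

end Lab

end Pool.Agent.LRC
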