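import Pool.Agent.Lib_helper83.LRC.BLRd
import Pool.Agent.Lib_helper59.LR2.Gibbs

/-!
# X': resolution, selection of labels
-/

set_option autoImplicit false
set_option linter.unusedSectionVars false
set_option linter.unusedVariables false

open Finset Matrix

namespace Pool.Agent.LRC

open Pool.Agent.LR2

section Res

variable {X ι Z : Type} [Fintype X] [Fintype ι] [DecidableEq ι] [Fintype Z]
  {μ : X → ℝ} {be : X → ι → ℝ} {V : ι → ℝ} {kap : ℝ}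

/-- KL form of `FT` -/
theorem xq_ftKL (hμ : IsPr μ) (h : FT μ be V kap) (hkap : 0 < kap) {K : Matrix ι ι ℝ} {c : ℝ}
    (hc : 0 < c) (hK : Kᵀ = K) (h0 : ∀ w, 0 ≤ w ⬝ᵥ (K *ᵥ w))
    (h1 : ∀ w, w ⬝ᵥ (K *ᵥ w) ≤ c * (w ⬝ᵥ w)) {p : X → ℝ} (hp : IsPr p) (hac : AC p μ) :
    ∑ x, p x * (be x ⬝ᵥ (K *ᵥ be x)) ≤ 2 * ∑ i, V i * K i i + 2 * (kap * c) * (KL p μ + 2) := by
  have h2 := kl_up hμ (h := fun x => be x ⬝ᵥ (K *ᵥ be x))
    (K := 2 * ∑ i, V i * K i i + 2 * (kap * c)) (lam := kap * c) (by positivity)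
    (fun q s hq hs hqs => by
      have := h q hq s hs hqs K c hK h0 h1
      calc _ ≤ _ := this
        _ = _ := by ring) hp hac
  calc _ ≤ _ := h2
    _ = _ := by ring

/-- resolution: densities dominated by squares of linear forms in spread directions -/
theorem xq_R (hμ : IsPr μ) (h : FT μ be V kap) (hkap : 0 < kap) {V0 : ℝ} (hV0 : 0 ≤ V0)
    (hV : ∀ i, V i ≤ V0) {γ : Z → ℝ} (hγ : ∀ z, 0 ≤ γ z) {u : Z → ι → ℝ}
    (hu : ∀ z, u z ⬝ᵥ u z ≤ 1) {sp : ℝ} (hsp0 : 0 < sp)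
    (hsp : ∀ w : ι → ℝ, ∑ z, γ z * (u z ⬝ᵥ w) ^ 2 ≤ sp * (w ⬝ᵥ w)) {f : Z → X → ℝ} {A1 : ℝ}
    (hA1 : 0 ≤ A1) (hf : ∀ z, γ z ≠ 0 → ∀ x, f z x ≤ A1 * (u z ⬝ᵥ be x) ^ 2) {L : ℝ}
    (hL : 4 * A1 * V0 ≤ L) {p : X → ℝ} (hp : IsPr p) (hac : AC p μ) :
    ∑ z, γ z * (if L < mean p (f z) then mean p (f z) else 0) ≤
      8 * A1 * kap * sp * (1 + KL p μ) := by
  set γ' : Z → ℝ := fun z => if L < mean p (f z) then γ z else 0 with hγ'
  have hγ'0 : ∀ z, 0 ≤ γ' z := fun z => by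
    simp only [hγ']
    split_ifs
    · exact hγ z
    · exact le_rfl
  have hγ'1 : ∀ z, γ' z ≤ γ z := fun z => by
    simp only [hγ']
    split_ifs
    · exact le_rfl
    · exact hγ z
  have hS : ∑ z, γ z * (if L < mean p (f z) then mean p (f z) else 0) =
      ∑ z, γ' z * mean p (f z) := by
    apply Finset.sum_congr rfl
    intro z _
    simp only [hγ']
    split_ifs <;> ring
  rw [hS]
  set S := ∑ z, γ' z * mean p (f z) with hSd
  have hΓ : L * ∑ z, γ' z ≤ S := by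
    rw [hSd, Finset.mul_sum]
    apply Finset.sum_le_sum
    intro z _
    simp only [hγ']
    split_ifs with c
    · have := mul_le_mul_of_nonneg_left c.le (hγ z)
      linarith
    · simp
  set K : Matrix ι ι ℝ := Matrix.of fun i j => ∑ z, γ' z * (u z i * u z j) with hK
  have hKq : ∀ w : ι → ℝ, w ⬝ᵥ (K *ᵥ w) = ∑ z, γ' z * (u z ⬝ᵥ w) ^ 2 := fun w => by
    rw [hK, blr_quad]
  have h1 := xq_ftKL hμ h hkap hsp0 (K := K) (blr_quad_symm _ _)
    (fun w => by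
      rw [hKq]
      exact Finset.sum_nonneg fun z _ => mul_nonneg (hγ'0 z) (sq_nonneg _))
    (fun w => by
      rw [hKq]
      refine le_trans ?_ (hsp w)
      exact Finset.sum_le_sum fun z _ => mul_le_mul_of_nonneg_right (hγ'1 z) (sq_nonneg _))
    hp hac
  have h2 : ∑ i, V i * K i i ≤ V0 * ∑ z, γ' z := by
    calc ∑ i, V i * K i i ≤ ∑ i, V0 * K i i := by
          apply Finset.sum_le_sum
          intro i _
          apply mul_le_mul_of_nonneg_right (hV i)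
          simp only [hK, Matrix.of_apply]
          exact Finset.sum_nonneg fun z _ => mul_nonneg (hγ'0 z) (mul_self_nonneg _)
      _ = V0 * ∑ z, γ' z * (u z ⬝ᵥ u z) := by
          rw [← Finset.mul_sum]
          congr 1
          simp only [hK, Matrix.of_apply, dotProduct]
          rw [Finset.sum_comm]
          apply Finset.sum_congr rfl
          intro z _
          rw [Finset.mul_sum]
      _ ≤ V0 * ∑ z, γ' z * 1 := by
          apply mul_le_mul_of_nonneg_left _ hV0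
          exact Finset.sum_le_sum fun z _ => mul_le_mul_of_nonneg_left (hu z) (hγ'0 z)
      _ = _ := by simp
  have h3 : S ≤ A1 * ∑ x, p x * (be x ⬝ᵥ (K *ᵥ be x)) := by
    have e1 : ∑ x, p x * (be x ⬝ᵥ (K *ᵥ be x)) = ∑ z, γ' z * ∑ x, p x * (u z ⬝ᵥ be x) ^ 2 := by
      simp only [hKq, Finset.mul_sum]
      rw [Finset.sum_comm]
      apply Finset.sum_congr rfl
      intro z _
      apply Finset.sum_congr rfl
      intro x _
      ring
    rw [e1, hSd, Finset.mul_sum]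
    apply Finset.sum_le_sum
    intro z _
    by_cases c : γ z = 0
    · have : γ' z = 0 := le_antisymm ((hγ'1 z).trans c.le) (hγ'0 z)
      rw [this]
      simp
    · have e2 : mean p (f z) ≤ A1 * ∑ x, p x * (u z ⬝ᵥ be x) ^ 2 := by
        unfold mean
        rw [Finset.mul_sum]
        apply Finset.sum_le_sum
        intro x _
        have := mul_le_mul_of_nonneg_left (hf z c x) (hp.nonneg x)
        linarith
      have := mul_le_mul_of_nonneg_left e2 (hγ'0 z)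
      linarith
  have hk := KL_nonneg hp hμ hac
  have hΓ0 : 0 ≤ ∑ z, γ' z := Finset.sum_nonneg fun z _ => hγ'0 z
  have h4 : 4 * A1 * V0 * ∑ z, γ' z ≤ S := (mul_le_mul_of_nonneg_right hL hΓ0).trans hΓ
  have h5 : S ≤ A1 * (2 * (V0 * ∑ z, γ' z) + 2 * (kap * sp) * (KL p μ + 2)) := by
    refine h3.trans (mul_le_mul_of_nonneg_left ?_ hA1)
    linarith
  have h6 : 0 ≤ A1 * (kap * sp) := by positivity
  have h7 : S ≤ 4 * (A1 * (kap * sp)) * (KL p μ + 2) := by nlinarith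
  calc S ≤ 4 * (A1 * (kap * sp)) * (KL p μ + 2) := h7
    _ ≤ 4 * (A1 * (kap * sp)) * (2 * (1 + KL p μ)) :=
        mul_le_mul_of_nonneg_left (by linarith) (by positivity)
    _ = _ := by ring

end Res

section Lev

variable {Y : Type} [Fintype Y] {ν V : Y → ℝ} {a b : ℝ}

theorem xq_lev (hν : IsPr ν) (ha : 0 ≤ a) (hb : 0 ≤ b)
    (h : ∀ q : Y → ℝ, IsPr q → ∀ s : ℝ, 0 ≤ s → (∀ y, q y ≤ Real.exp s * ν y) →
      ∑ y, q y * V y ≤ a + b * s) {s : ℝ} (hs : 1 ≤ s) (A : Finset Y)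
    (hA : ∑ y ∈ A, ν y ≤ Real.exp (-s)) :
    ∑ y ∈ A, ν y * V y ≤ Real.exp (-s) * (a + b * s) := by
  classical
  set p := ∑ y ∈ A, ν y with hpd
  have hp0 : 0 ≤ p := Finset.sum_nonneg fun y _ => hν.nonneg y
  have hR : 0 ≤ Real.exp (-s) * (a + b * s) :=
    mul_nonneg (Real.exp_pos _).le (by nlinarith)
  rcases hp0.eq_or_lt with hp | hp
  · have h3 : ∀ y ∈ A, ν y = 0 := by
      intro y hy
      exact (Finset.sum_eq_zero_iff_of_nonneg fun y _ => hν.nonneg y).mp hp.symm y hy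
    rw [Finset.sum_eq_zero fun y hy => by rw [h3 y hy, zero_mul]]
    exact hR
  · have h3 := blr_level hν h A hp
    rw [← hpd] at h3
    refine le_trans h3 ?_
    set L := -Real.log p with hLd
    have hpL : p = Real.exp (-L) := by rw [hLd, neg_neg, Real.exp_log hp]
    have hL : s ≤ L := by
      have := (Real.log_le_iff_le_exp hp).mpr hA
      linarith
    have hea : Real.exp (-L) ≤ Real.exp (-s) := Real.exp_le_exp.mpr (by linarith)
    have heb : Real.exp (-L) * L ≤ Real.exp (-s) * s := by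
      have h4 : Real.exp (-s) = Real.exp (-L) * Real.exp (L - s) := by
        rw [← Real.exp_add]; ring_nf
      have h5 : L - s + 1 ≤ Real.exp (L - s) := Real.add_one_le_exp _
      have h6 : L ≤ Real.exp (L - s) * s := by nlinarith
      rw [h4, mul_assoc]
      exact mul_le_mul_of_nonneg_left h6 (Real.exp_pos _).le
    rw [hpL]
    have h7 := mul_le_mul_of_nonneg_left hea ha
    have h8 := mul_le_mul_of_nonneg_left heb hb
    nlinarith

end Lev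

section Sel

variable {X ι Z : Type} [Fintype X] [Fintype ι] [DecidableEq ι] [Fintype Z]
  {μ : X → ℝ} {be : X → ι → ℝ} {V : ι → ℝ} {kap : ℝ}

/-- tails of a linear form -/
theorem xq_lin (h : FT μ be V kap) {V0 : ℝ} (hV : ∀ i, V i ≤ V0) (v : ι → ℝ) :
    ∀ q : X → ℝ, IsPr q → ∀ s : ℝ, 0 ≤ s → (∀ x, q x ≤ Real.exp s * μ x) →
      ∑ x, q x * (v ⬝ᵥ be x) ^ 2 ≤ (2 * V0 + 2 * kap) * (v ⬝ᵥ v) + kap * (v ⬝ᵥ v) * s := by
  intro q hq s hs hqs
  set K : Matrix ι ι ℝ := Matrix.of fun i j => ∑ a : Unit, (fun _ : Unit => (1 : ℝ)) a *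
    ((fun _ : Unit => v) a i * (fun _ : Unit => v) a j) with hK
  have hKq : ∀ w : ι → ℝ, w ⬝ᵥ (K *ᵥ w) = (v ⬝ᵥ w) ^ 2 := fun w => by
    rw [hK, blr_quad]
    simp
  have h1 := h q hq s hs hqs K (v ⬝ᵥ v) (blr_quad_symm _ _)
    (fun w => by rw [hKq]; exact sq_nonneg _) (fun w => by rw [hKq]; exact dot_cs v w)
  simp only [hKq] at h1
  have h2 : ∑ i, V i * K i i ≤ V0 * (v ⬝ᵥ v) := by
    simp only [hK, Matrix.of_apply, Finset.univ_unique, Finset.sum_singleton, one_mul, dotProduct]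
    rw [Finset.mul_sum]
    exact Finset.sum_le_sum fun i _ => mul_le_mul_of_nonneg_right (hV i) (mul_self_nonneg _)
  calc _ ≤ _ := h1
    _ ≤ 2 * (V0 * (v ⬝ᵥ v)) + kap * (v ⬝ᵥ v) * (s + 2) := by linarith
    _ = _ := by ring

/-- the rows where a form is large -/
noncomputable def xqX (be : X → ι → ℝ) (θ0 : ℝ) (v : ι → ℝ) : Finset X :=
  Finset.univ.filter fun x => θ0 ≤ (v ⬝ᵥ be x) ^ 2

theorem xqX_sum (be : X → ι → ℝ) (θ0 : ℝ) (v : ι → ℝ) (μ : X → ℝ) :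
    ∑ x, μ x * (if θ0 ≤ (v ⬝ᵥ be x) ^ 2 then (v ⬝ᵥ be x) ^ 2 else 0) =
      ∑ x ∈ xqX be θ0 v, μ x * (v ⬝ᵥ be x) ^ 2 := by
  unfold xqX
  rw [Finset.sum_filter]
  apply Finset.sum_congr rfl
  intro x _
  split_ifs <;> simp

/-- the label is selected -/
def xqSel (μ : X → ℝ) (be : X → ι → ℝ) (θ0 Nv p1 : ℝ) (v : ι → ℝ) : Prop :=
  v ⬝ᵥ v ≤ Nv ∧ p1 ≤ ∑ x ∈ xqX be θ0 v, μ x

open Classical in
theorem xq_sel (hμ : IsPr μ) (h : FT μ be V kap) (hkap : 0 ≤ kap) {V0 : ℝ} (hV0 : 0 ≤ V0)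
    (hV : ∀ i, V i ≤ V0) (hmom : ∀ v : ι → ℝ, ∑ x, μ x * (v ⬝ᵥ be x) ^ 2 ≤ V0 * (v ⬝ᵥ v))
    {w : Z → ℝ} (hw : ∀ ζ, 0 ≤ w ζ) (hw1 : ∑ ζ, w ζ ≤ 1) (v : Z → ι → ℝ) {θ0 Nv ev t1 : ℝ}
    (hNv : 0 ≤ Nv) (ht1 : 1 ≤ t1)
    (hev : ∑ ζ, w ζ * (if Nv < v ζ ⬝ᵥ v ζ then v ζ ⬝ᵥ v ζ else 0) ≤ ev) :
    ∑ ζ, w ζ * ∑ x, μ x * (if θ0 ≤ (v ζ ⬝ᵥ be x) ^ 2 then (v ζ ⬝ᵥ be x) ^ 2 else 0) ≤
      V0 * ev + Real.exp (-t1) * ((2 * V0 + 2 * kap) * Nv + kap * Nv * t1) +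
      V0 * Nv * ∑ ζ, (if xqSel μ be θ0 Nv (Real.exp (-t1)) (v ζ) then w ζ else 0) := by
  set E := Real.exp (-t1) * ((2 * V0 + 2 * kap) * Nv + kap * Nv * t1) with hE
  have hE0 : 0 ≤ E := by
    rw [hE]
    have := (Real.exp_pos (-t1)).le
    have : 0 ≤ t1 := by linarith
    positivity
  have hT0 : ∀ ζ, ∑ x, μ x * (if θ0 ≤ (v ζ ⬝ᵥ be x) ^ 2 then (v ζ ⬝ᵥ be x) ^ 2 else 0) ≤
      V0 * (v ζ ⬝ᵥ v ζ) := by
    intro ζ
    refine le_trans ?_ (hmom (v ζ))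
    apply Finset.sum_le_sum
    intro x _
    apply mul_le_mul_of_nonneg_left _ (hμ.nonneg x)
    split_ifs
    · exact le_rfl
    · exact sq_nonneg _
  have key : ∀ ζ, ∑ x, μ x * (if θ0 ≤ (v ζ ⬝ᵥ be x) ^ 2 then (v ζ ⬝ᵥ be x) ^ 2 else 0) ≤
      V0 * (if Nv < v ζ ⬝ᵥ v ζ then v ζ ⬝ᵥ v ζ else 0) + E +
      V0 * Nv * (if xqSel μ be θ0 Nv (Real.exp (-t1)) (v ζ) then 1 else 0) := by
    intro ζ
    by_cases c1 : Nv < v ζ ⬝ᵥ v ζ
    · rw [if_pos c1]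
      have h1 := hT0 ζ
      have h2 : 0 ≤ V0 * Nv * (if xqSel μ be θ0 Nv (Real.exp (-t1)) (v ζ) then (1 : ℝ) else 0) := by
        split_ifs
        · positivity
        · simp
      linarith
    · rw [if_neg c1]
      push Not at c1
      by_cases c2 : Real.exp (-t1) ≤ ∑ x ∈ xqX be θ0 (v ζ), μ x
      · rw [if_pos ⟨c1, c2⟩]
        have h1 := hT0 ζ
        have h2 := mul_le_mul_of_nonneg_left c1 hV0
        linarith
      · rw [if_neg (fun h' => c2 h'.2)]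
        push Not at c2
        rw [xqX_sum]
        have h1 := xq_lev hμ (a := (2 * V0 + 2 * kap) * Nv) (b := kap * Nv) (by positivity)
          (by positivity) (V := fun x => (v ζ ⬝ᵥ be x) ^ 2) (fun q hq s hs hqs => by
            have h2 := xq_lin h hV (v ζ) q hq s hs hqs
            have h3 := mul_le_mul_of_nonneg_left c1 (by positivity : 0 ≤ 2 * V0 + 2 * kap)
            have h4 := mul_le_mul_of_nonneg_right (mul_le_mul_of_nonneg_left c1 hkap) hs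
            linarith) ht1 _ c2.le
        linarith
  calc _ ≤ ∑ ζ, w ζ * (V0 * (if Nv < v ζ ⬝ᵥ v ζ then v ζ ⬝ᵥ v ζ else 0) + E +
        V0 * Nv * (if xqSel μ be θ0 Nv (Real.exp (-t1)) (v ζ) then 1 else 0)) :=
        Finset.sum_le_sum fun ζ _ => mul_le_mul_of_nonneg_left (key ζ) (hw ζ)
    _ = V0 * ∑ ζ, w ζ * (if Nv < v ζ ⬝ᵥ v ζ then v ζ ⬝ᵥ v ζ else 0) + E * ∑ ζ, w ζ +
        V0 * Nv * ∑ ζ, (if xqSel μ be θ0 Nv (Real.exp (-t1)) (v ζ) then w ζ else 0) := by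
        rw [Finset.mul_sum, Finset.mul_sum, Finset.mul_sum, ← Finset.sum_add_distrib,
          ← Finset.sum_add_distrib]
        apply Finset.sum_congr rfl
        intro ζ _
        split_ifs <;> ring
    _ ≤ _ := by
        have h1 := mul_le_mul_of_nonneg_left hev hV0
        have h2 := mul_le_mul_of_nonneg_left hw1 hE0
        linarith

/-- selected labels have large vectors -/
theorem xq_sel_ge (hμ : IsPr μ) {V0 : ℝ}
    (hmom : ∀ v : ι → ℝ, ∑ x, μ x * (v ⬝ᵥ be x) ^ 2 ≤ V0 * (v ⬝ᵥ v)) {θ0 Nv p1 : ℝ}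
    (hθ0 : 0 ≤ θ0) {v : ι → ℝ} (hv : xqSel μ be θ0 Nv p1 v) :
    θ0 * p1 ≤ V0 * (v ⬝ᵥ v) := by
  calc θ0 * p1 ≤ θ0 * ∑ x ∈ xqX be θ0 v, μ x := mul_le_mul_of_nonneg_left hv.2 hθ0
    _ ≤ ∑ x ∈ xqX be θ0 v, μ x * (v ⬝ᵥ be x) ^ 2 := by
        rw [Finset.mul_sum]
        apply Finset.sum_le_sum
        intro x hx
        have := (Finset.mem_filter.mp hx).2
        have := mul_le_mul_of_nonneg_left this (hμ.nonneg x)
        linarith
    _ ≤ ∑ x, μ x * (v ⬝ᵥ be x) ^ 2 :=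
        Finset.sum_le_sum_of_subset_of_nonneg (Finset.subset_univ _)
          (fun x _ _ => mul_nonneg (hμ.nonneg x) (sq_nonneg _))
    _ ≤ _ := hmom v

end Sel

end Pool.Agent.LRC
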