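import Pool.Agent.Lib_helper83.LRC.BLRa

/-!
# X': the numerical part
-/

set_option autoImplicit false
set_option linter.unusedSectionVars false
set_option linter.unusedVariables false

open Finset Filter

namespace Pool.Agent.LRC

theorem xc_1 {l X : ℝ} (g1 : 2 * l ≤ X) (g2 : 20 * 1 ≤ X) : l + 10 ≤ X := by linarith

theorem xc_2 {A B P T l t : ℝ} (v1 : 6 * A ≤ T) (v2 : 6 * B ≤ T) (e1 : P = B) (e2 : T = B * t)
    (g3 : 30 * l ≤ t) (hB : 0 ≤ B) : 2 * A + 2 * P + P * (10 * l) ≤ T := by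
  have e3 : 10 * l ≤ t / 3 := by linarith
  have := mul_le_mul_of_nonneg_left e3 hB
  rw [e1]
  linarith

theorem xc_3 {a b : ℝ} (h : 4 * a ≤ b) : a ≤ b / 4 := by linarith

theorem xc_4 {l t : ℝ} (g4 : 8 * l ≤ t) (g5 : 32 * 1 ≤ t) : 4 + l ≤ t / 4 := by linarith

theorem xc_5 {B T l t : ℝ} (a1 : 6 * 1 ≤ T) (a2 : 6 * B ≤ T) (e2 : T = B * t)
    (g3 : 30 * l ≤ t) (hB : 0 ≤ B) : 2 + 2 * B + B * (10 * l) ≤ T := by
  have e3 : 10 * l ≤ t / 3 := by linarith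
  have := mul_le_mul_of_nonneg_left e3 hB
  linarith

theorem xc_6 {l t : ℝ} (g3 : 30 * l ≤ t) (hl : 10 ≤ l) :
    l + 7 ≤ t ∧ 2 * l + 10 ≤ t ∧ l + 2 ≤ t ∧ l + 3 ≤ t :=
  ⟨by linarith, by linarith, by linarith, by linarith⟩

theorem xc_7 {a b x : ℝ} (h : 100 * a ≤ b) (ha : 0 < a) (hx : x ≤ a) : 3 / 2 * x < b / 4 := by
  linarith

theorem xc_8 {a b x : ℝ} (h : 100 * a ≤ b) (ha : 0 < a) (hx : x ≤ a) : x < b / 4 := by
  linarith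

theorem xc_9 {l t y a b : ℝ} (h2 : l + 2 ≤ t) (h3 : l + 3 ≤ t) (ht : 0 < t) (hy : 1 ≤ y)
    (e : y * t = a) (h : 10 * a ≤ b) : 2 * y * (l + 2) + l + 3 ≤ b := by
  have h4 : l + 3 ≤ y * t := by nlinarith
  have h5 : y * (l + 2) ≤ y * t := mul_le_mul_of_nonneg_left h2 (by linarith)
  have h6 : 0 < y * t := by positivity
  have h7 : 2 * y * (l + 2) = 2 * (y * (l + 2)) := by ring
  rw [h7]
  rw [e] at h4 h5 h6
  linarith

theorem xc_10 {C a b : ℝ} (h : 100 * C * a ≤ b) : C * a ≤ b / 100 := by linarith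

/-- the list of inequalities needed in X' -/
structure XN (R s c : ℝ) : Prop where
  R8 : 8 ≤ R
  lg1 : 10 ≤ Real.log R
  lg : Real.log R + 10 ≤ R ^ (s / 4)
  nv : 2 * R ^ (3 / 2 + c) + 2 * (R ^ (1 / 2 + s) * R ^ (1 + 2 * c)) +
    R ^ (1 / 2 + s) * R ^ (1 + 2 * c) * (10 * Real.log R) ≤ R ^ (3 / 2 + 2 * c + 2 * s)
  e1 : R ^ (-(1 : ℝ) + s) * (R ^ (-(10 : ℝ)) * R ^ (3 / 2 + 2 * c + 2 * s)) ≤ R ^ (1 / 2 - c) / 4
  e2 : R ^ (1 / 2 - c - 2 * s) * (4 + Real.log R) ≤ R ^ (1 / 2 - c) / 4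
  ga : 2 * R ^ (-(3 * c) - 4 * s) ≤ R ^ (-(3 * c) - 3 * s)
  t1 : 2 + 2 * R ^ (1 / 2 + s) + R ^ (1 / 2 + s) * (10 * Real.log R) ≤ R ^ (1 / 2 + 2 * s)
  t0 : 2 ≤ R ^ (1 / 4 - 3 * c)
  c1 : 16 * (R ^ (-(10 : ℝ)) * R ^ (1 / 2 + 2 * s)) ≤ R ^ (-(1 / 4) - 2 * c - s)
  c2 : 3 / 2 * (R ^ (-(1 / 4) - 3 * c + s) * (Real.log R + 7)) < R ^ (-(1 / 4) - 2 * c - s) / 4
  c3 : R ^ (-(1 / 2) + s) * (2 * Real.log R + 10) < R ^ (-(5 * c) - s) / 4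
  f1 : 8 * R ^ (1 / 2 + 3 * c + 5 * s) ≤ R ^ (1 / 2 + 4 * c)
  f2 : 16 * R ^ (1 / 2 + 2 * c + 2 * s) ≤ R ^ (1 / 2 + 4 * c)
  l1 : 32 * R ^ (7 * c + 8 * s) ≤ R ^ (8 * c)
  l2 : 64 * R ^ (5 * c + s) ≤ R ^ (8 * c)
  r1 : 64 * R ^ (-(1 / 2) + 16 * c + 18 * s) ≤ R ^ (-(1 / 2) + 17 * c)
  r2 : 128 * R ^ (-(1 / 2) + 14 * c + 12 * s) ≤ R ^ (-(1 / 2) + 17 * c)
  k1 : 2 * R ^ (23 * c) * (Real.log R + 2) + Real.log R + 3 ≤ R ^ (24 * c)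
  m1 : 200 * R ^ (-(7 * c) + s / 2) ≤ R ^ (-(5 * c) - s) / 100
  m2 : 4 * R ^ (40 * c - 1 / 2 + s) ≤ R ^ (-(5 * c) - s) / 100
  m3 : 4 * R ^ (-(6 * c)) ≤ R ^ (-(5 * c) - s) / 100
  m4 : 4 * R ^ (-(1 / 2) + 41 * c) ≤ R ^ (-(5 * c) - s) / 100

theorem XN_ev {s c : ℝ} (hs : 0 < s) (hsc : 100 * s ≤ c) (hc : c ≤ 1 / 1000) :
    ∀ᶠ R : ℝ in atTop, XN R s c := by
  have hc0 : 0 < c := by linarith
  have e : ∀ (C : ℝ) {α β : ℝ}, α < β → ∀ᶠ R : ℝ in atTop, C * R ^ α ≤ R ^ β / 100 := by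
    intro C α β h
    filter_upwards [ev_pow (100 * C) h] with R hR
    exact xc_10 hR
  filter_upwards [eventually_ge_atTop 100, eventually_ge_atTop (Real.exp 10),
    ev_log 2 (show 0 < s / 4 by linarith),
    ev_pow 20 (show (0 : ℝ) < s / 4 by linarith),
    ev_pow 6 (show 3 / 2 + c < 3 / 2 + 2 * c + 2 * s by linarith),
    ev_pow 6 (show 3 / 2 + 2 * c + s < 3 / 2 + 2 * c + 2 * s by linarith),
    ev_log 30 (show 0 < s by linarith),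
    ev_pow 4 (show -(1 : ℝ) + s + (-10 + (3 / 2 + 2 * c + 2 * s)) < 1 / 2 - c by linarith),
    ev_log 8 (show 0 < 2 * s by linarith),
    ev_pow 32 (show (0 : ℝ) < 2 * s by linarith),
    ev_pow 2 (show -(3 * c) - 4 * s < -(3 * c) - 3 * s by linarith),
    ev_pow 6 (show (0 : ℝ) < 1 / 2 + 2 * s by linarith),
    ev_pow 6 (show 1 / 2 + s < 1 / 2 + 2 * s by linarith),
    ev_pow 2 (show (0 : ℝ) < 1 / 4 - 3 * c by linarith),
    ev_pow 16 (show -(10 : ℝ) + (1 / 2 + 2 * s) < -(1 / 4) - 2 * c - s by linarith),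
    ev_pow 100 (show -(1 / 4) - 3 * c + s + s < -(1 / 4) - 2 * c - s by linarith),
    ev_pow 100 (show -(1 / 2) + s + s < -(5 * c) - s by linarith),
    ev_pow 8 (show 1 / 2 + 3 * c + 5 * s < 1 / 2 + 4 * c by linarith),
    ev_pow 16 (show 1 / 2 + 2 * c + 2 * s < 1 / 2 + 4 * c by linarith),
    ev_pow 32 (show 7 * c + 8 * s < 8 * c by linarith),
    ev_pow 64 (show 5 * c + s < 8 * c by linarith),
    ev_pow 64 (show -(1 / 2) + 16 * c + 18 * s < -(1 / 2) + 17 * c by linarith),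
    ev_pow 128 (show -(1 / 2) + 14 * c + 12 * s < -(1 / 2) + 17 * c by linarith),
    ev_pow 10 (show 23 * c + s < 24 * c by linarith),
    e 200 (show -(7 * c) + s / 2 < -(5 * c) - s by linarith),
    e 4 (show 40 * c - 1 / 2 + s < -(5 * c) - s by linarith),
    e 4 (show -(6 * c) < -(5 * c) - s by linarith),
    e 4 (show -(1 / 2) + 41 * c < -(5 * c) - s by linarith)]
    with R hR hRe g1 g2 v1 v2 g3 h4 g4 g5 h5 a1 a2 h6 h7 h8 h9 b1 b2 b3 b4 b5 b6 b7 m1 m2 m3 m4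
  have hR0 : 0 < R := lt_of_lt_of_le (by norm_num) hR
  have hR1 : 1 ≤ R := le_trans (by norm_num) hR
  have hp : ∀ x : ℝ, 0 < R ^ x := fun x => Real.rpow_pos_of_pos hR0 x
  have hadd : ∀ x y : ℝ, R ^ x * R ^ y = R ^ (x + y) := fun x y => (Real.rpow_add hR0 x y).symm
  have hlog : 10 ≤ Real.log R := by
    rw [Real.le_log_iff_exp_le hR0]
    exact hRe
  rw [Real.rpow_zero] at g2 g5 a1 h6
  obtain ⟨l7, l10, l2, l3⟩ := xc_6 g3 hlog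
  refine ⟨le_trans (by norm_num) hR, hlog, xc_1 g1 g2, ?_, ?_, ?_, h5, ?_, (mul_one (2 : ℝ)) ▸ h6,
    ?_, ?_, ?_, b1, b2, b3, b4, b5, b6, ?_, m1, m2, m3, m4⟩
  · refine xc_2 (t := R ^ s) v1 v2 ?_ ?_ g3 (hp _).le
    · rw [hadd]
      congr 1
      ring
    · rw [hadd]
      congr 1
      ring
  · rw [hadd, hadd]
    exact xc_3 h4
  · calc _ ≤ R ^ (1 / 2 - c - 2 * s) * (R ^ (2 * s) / 4) :=
          mul_le_mul_of_nonneg_left (xc_4 g4 g5) (hp _).le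
      _ = R ^ (1 / 2 - c - 2 * s) * R ^ (2 * s) / 4 := by rw [mul_div_assoc]
      _ = _ := by
          rw [hadd]
          congr 2
          ring
  · refine xc_5 (t := R ^ s) a1 a2 ?_ g3 (hp _).le
    rw [hadd]
    congr 1
    ring
  · rw [hadd]
    exact h7
  · refine xc_7 h8 (hp _) ?_
    rw [← hadd (-(1 / 4) - 3 * c + s) s]
    exact mul_le_mul_of_nonneg_left l7 (hp _).le
  · refine xc_8 h9 (hp _) ?_
    rw [← hadd (-(1 / 2) + s) s]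
    exact mul_le_mul_of_nonneg_left l10 (hp _).le
  · exact xc_9 l2 l3 (hp s) (Real.one_le_rpow hR1 (by positivity)) (hadd (23 * c) s) b7

end Pool.Agent.LRC
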