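import Pool.Agent.Lib_helper83.LRC.XQa
import Pool.Agent.Lib_helper83.LRC.XQb
import Pool.Agent.Lib_helper83.LRC.XQc
import Pool.Agent.Lib_helper59.LR2.PB3

/-!
# X': the statement without `CoreR`
-/

set_option autoImplicit false
set_option linter.unusedSectionVars false
set_option linter.unusedVariables false

open Finset Matrix

namespace Pool.Agent.LRC

open Pool.Agent.LR2

section Lin

variable {Y ι A : Type} [Fintype Y] [Fintype ι] [DecidableEq ι] [Fintype A] {ν : Y → ℝ}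
  {z : Y → ι → ℝ}

theorem xq_dot (R : Matrix ι ι ℝ) (a b : ι → ℝ) : a ⬝ᵥ (R *ᵥ b) = (Rᵀ *ᵥ a) ⬝ᵥ b := by
  rw [Matrix.dotProduct_mulVec, Matrix.mulVec_transpose]

/-- tails of the norms of the label vectors -/
theorem xq_nv (hν : IsPr ν) {rho : ℝ} (hrho : 0 ≤ rho) (f5 : FT ν z (fun _ => 1) rho)
    {R : Matrix ι ι ℝ} {c0 H : ℝ} (hR : OpB R c0) (hH : hs R ≤ H) {Nv t : ℝ} (ht : 1 ≤ t)
    (hNv : Nv = (2 * H + 2 * (rho * c0 ^ 2)) + rho * c0 ^ 2 * t) :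
    ∑ y, ν y * (if Nv < (Rᵀ *ᵥ z y) ⬝ᵥ (Rᵀ *ᵥ z y) then (Rᵀ *ᵥ z y) ⬝ᵥ (Rᵀ *ᵥ z y) else 0) ≤
      Real.exp (-t) * Nv := by
  have hq : ∀ w : ι → ℝ, w ⬝ᵥ ((R * Rᵀ) *ᵥ w) = (Rᵀ *ᵥ w) ⬝ᵥ (Rᵀ *ᵥ w) := fun w => by
    rw [← Matrix.mulVec_mulVec, xq_dot]
  have hH0 : 0 ≤ H := (hs_nonneg R).trans hH
  rw [hNv]
  apply blr_one hν (V := fun y => (Rᵀ *ᵥ z y) ⬝ᵥ (Rᵀ *ᵥ z y)) (fun y => dot_self_nonneg _)
    (by positivity) (by positivity) _ ht
  intro q hqp s hs hqs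
  have h1 := f5 q hqp s hs hqs (R * Rᵀ) (c0 ^ 2) (by
    rw [Matrix.transpose_mul, Matrix.transpose_transpose]) (fun w => by
      rw [hq]
      exact dot_self_nonneg _) (fun w => by
      rw [hq]
      exact hR.transpose w)
  simp only [hq] at h1
  have h2 : ∑ i, (1 : ℝ) * (R * Rᵀ) i i = LRC.hs R := by
    unfold LRC.hs
    apply Finset.sum_congr rfl
    intro i _
    rw [one_mul, Matrix.mul_apply]
    apply Finset.sum_congr rfl
    intro j _
    rw [Matrix.transpose_apply, sq]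
  rw [h2] at h1
  calc _ ≤ _ := h1
    _ ≤ 2 * H + rho * c0 ^ 2 * (s + 2) := by linarith
    _ = _ := by ring

/-- spread of the label vectors -/
theorem xq_spread (hz : Iso ν z) (gam : A → ℝ) (Ra : A → Matrix ι ι ℝ) (w : ι → ℝ) :
    ∑ ζ : A × Y, gam ζ.1 * ν ζ.2 * (((Ra ζ.1)ᵀ *ᵥ z ζ.2) ⬝ᵥ w) ^ 2 =
      ∑ a, gam a * ((Ra a *ᵥ w) ⬝ᵥ (Ra a *ᵥ w)) := by
  rw [Fintype.sum_prod_type]
  apply Finset.sum_congr rfl
  intro a _
  rw [← hz.avg_dot (Ra a *ᵥ w) (Ra a *ᵥ w), Finset.mul_sum]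
  apply Finset.sum_congr rfl
  intro y _
  rw [← xq_dot, dotProduct_comm (z y)]
  ring

end Lin

section Label

variable {X Y ι : Type} [Fintype X] [Fintype Y] [Fintype ι] [DecidableEq ι]
  {μ : X → ℝ} {ν : Y → ℝ} {M : X → Y → ℝ} {be : X → ι → ℝ} {z : Y → ι → ℝ} {R s c : ℝ}

/-- one label, in powers of `R` -/
theorem xq_lab (hs0 : 0 < s) (hsc : 100 * s ≤ c) (hc : c ≤ 1 / 1000) (hN : XN R s c)
    (hμ : IsPr μ) (hν : IsPr ν) (sgn : ∀ x y, M x y = 1 ∨ M x y = -1)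
    (ps : ∀ (p : X → ℝ) (q : Y → ℝ) (s' t : ℝ), IsPr p → IsPr q →
      (∀ x, p x ≤ Real.exp s' * μ x) → (∀ y, q y ≤ Real.exp t * ν y) →
      LR2.em p q (ctd μ ν M) ≤ R ^ (-(1 / 2) + s) * (s' + t + 2))
    (bez : ∀ x i, be x i = ∑ y, ν y * (ctd μ ν M x y * z y i)) (iso : Iso ν z)
    (f5 : FT ν z (fun _ => 1) (R ^ (1 / 2 + s))) {u : ι → ℝ} (hu : u ⬝ᵥ u ≤ 1) {S : Finset X}
    (hS : R ^ (-(1 / 2) - 3 * c - 5 * s) ≤ ∑ x ∈ S, μ x)
    (hx : ∀ x ∈ S, (R ^ (-(1 / 4) - 2 * c - s)) ^ 2 ≤ (u ⬝ᵥ be x) ^ 2) :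
    ∃ (f : X → ℝ) (g : Y → ℝ), (∀ x, 0 ≤ f x) ∧ (∀ x, f x ≤ R ^ (1 / 2 + 4 * c)) ∧
      ∑ x, μ x * f x = 1 ∧ (∀ y, 0 ≤ g y) ∧ (∀ y, g y ≤ R ^ (1 / 2 + 4 * c)) ∧
      ∑ y, ν y * g y = 1 ∧ (∀ x, f x ≤ 8 * R ^ (1 + 7 * c + 7 * s) * (u ⬝ᵥ be x) ^ 2) ∧
      (∀ y, g y ≤ 16 * R ^ (5 * c + s) * (u ⬝ᵥ z y) ^ 2) ∧
      LR2.em (fun x => μ x * f x) (fun y => ν y * g y) (ctd μ ν M) ≤
        -(R ^ (-(5 * c) - s) / 4) := by
  have hR0 : 0 < R := by have := hN.R8; linarith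
  have hR1 : 1 ≤ R := by have := hN.R8; linarith
  have hc0 : 0 < c := by linarith
  have hp : ∀ x : ℝ, 0 < R ^ x := fun x => Real.rpow_pos_of_pos hR0 x
  have hadd : ∀ x y : ℝ, R ^ x * R ^ y = R ^ (x + y) := fun x y => (Real.rpow_add hR0 x y).symm
  have hinv : ∀ x : ℝ, (R ^ x)⁻¹ = R ^ (-x) := fun x => (Real.rpow_neg hR0.le x).symm
  have hlog := hN.lg1
  set ρ := R ^ (1 / 2 + s) with hρ
  set ℓ := R ^ (-(1 / 4) - 2 * c - s) with hℓ
  set τ0 := R ^ (1 / 4 - 3 * c) with hτ0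
  set N1 : ℝ := (2 * 1 + 2 * ρ) * 1 + ρ * 1 * (10 * Real.log R) with hN1
  have hρ0 : 0 < ρ := hp _
  have hℓ0 : 0 < ℓ := hp _
  have hN1p : 1 ≤ N1 := by
    rw [hN1]
    have : 0 ≤ ρ * 1 * (10 * Real.log R) := by positivity
    nlinarith
  have hN1le : N1 ≤ R ^ (1 / 2 + 2 * s) := by
    rw [hN1]
    have := hN.t1
    linarith
  set τ1 := Real.sqrt N1 with hτ1
  have hτ1sq : τ1 ^ 2 = N1 := Real.sq_sqrt (by linarith)
  have hτ1one : 1 ≤ τ1 := Real.one_le_sqrt.mpr hN1p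
  have hτ1le : τ1 ≤ R ^ (1 / 4 + s) := by
    rw [hτ1]
    apply Real.sqrt_le_iff.mpr
    refine ⟨(hp _).le, ?_⟩
    rw [sq, hadd]
    refine hN1le.trans (le_of_eq ?_)
    congr 1
    ring
  have hdot : ∀ x, ∑ y, ν y * (ctd μ ν M x y * (u ⬝ᵥ z y)) = u ⬝ᵥ be x := by
    intro x
    simp only [dotProduct, bez, Finset.mul_sum]
    rw [Finset.sum_comm]
    apply Finset.sum_congr rfl
    intro i _
    apply Finset.sum_congr rfl
    intro y _
    ring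
  have hh2 : ∑ y, ν y * (u ⬝ᵥ z y) ^ 2 ≤ 1 := by
    have h1 := iso.avg_dot u u
    refine le_trans (le_of_eq ?_) hu
    rw [← h1]
    apply Finset.sum_congr rfl
    intro y _
    ring
  have hexp : Real.exp (-(10 * Real.log R)) = R ^ (-(10 : ℝ)) := by
    rw [Real.rpow_def_of_pos hR0]
    congr 1
    ring
  have htail : ∑ y, ν y * (if τ1 ^ 2 < (u ⬝ᵥ z y) ^ 2 then (u ⬝ᵥ z y) ^ 2 else 0) ≤
      R ^ (-(10 : ℝ)) * N1 := by
    have h1 := blr_one hν (V := fun y => (u ⬝ᵥ z y) ^ 2) (fun y => sq_nonneg _)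
      (a := (2 * 1 + 2 * ρ) * 1) (b := ρ * 1) (by positivity) (by positivity)
      (fun q hq t ht hqt => by
        have h2 := xq_lin f5 (V0 := 1) (fun i => le_rfl) u q hq t ht hqt
        have h3 := mul_le_mul_of_nonneg_left hu (by positivity : (0 : ℝ) ≤ 2 * 1 + 2 * ρ)
        have h4 := mul_le_mul_of_nonneg_right (mul_le_mul_of_nonneg_left hu hρ0.le) ht
        linarith) (s := 10 * Real.log R) (by linarith)
    rw [hexp, ← hN1, ← hτ1sq] at h1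
    rw [← hτ1sq]
    exact h1
  have hp1 : 1 / (R ^ (-(1 / 2) - 3 * c - 5 * s) / 8) = 8 * R ^ (1 / 2 + 3 * c + 5 * s) := by
    rw [one_div, inv_div, div_eq_mul_inv, hinv]
    congr 2
    ring
  have hlog8 : Real.log 8 ≤ 3 := by
    have e : Real.log 8 = 3 * Real.log 2 := by
      rw [show (8 : ℝ) = 2 ^ 3 by norm_num, Real.log_pow]
      norm_num
    rw [e]
    have := Real.log_two_lt_d9
    linarith
  have hlog16 : Real.log 16 ≤ 3 := by
    have e : Real.log 16 = 4 * Real.log 2 := by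
      rw [show (16 : ℝ) = 2 ^ 4 by norm_num, Real.log_pow]
      norm_num
    rw [e]
    have := Real.log_two_lt_d9
    linarith
  have hlg1 : Real.log (1 / (R ^ (-(1 / 2) - 3 * c - 5 * s) / 8)) ≤ Real.log R + 3 := by
    rw [hp1, Real.log_mul (by norm_num) (hp _).ne', Real.log_rpow hR0]
    have : (1 / 2 + 3 * c + 5 * s) * Real.log R ≤ 1 * Real.log R :=
      mul_le_mul_of_nonneg_right (by linarith) (by linarith)
    linarith
  have hτℓ : 4 * τ1 / (ℓ / 4) ≤ 16 * R ^ (1 / 2 + 2 * c + 2 * s) := by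
    calc 4 * τ1 / (ℓ / 4) = 16 * τ1 * ℓ⁻¹ := by
          field_simp
          ring
      _ ≤ 16 * R ^ (1 / 4 + s) * ℓ⁻¹ := by
          apply mul_le_mul_of_nonneg_right _ (inv_nonneg.mpr hℓ0.le)
          linarith
      _ = 16 * (R ^ (1 / 4 + s) * R ^ (-(-(1 / 4) - 2 * c - s))) := by
          rw [hℓ, hinv]
          ring
      _ = _ := by
          rw [hadd]
          congr 2
          ring
  have hlg2 : Real.log (4 * τ1 / (ℓ / 4)) ≤ Real.log R + 3 := by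
    have h1 : Real.log (4 * τ1 / (ℓ / 4)) ≤ Real.log (16 * R ^ (1 / 2 + 2 * c + 2 * s)) :=
      Real.log_le_log (by positivity) hτℓ
    rw [Real.log_mul (by norm_num) (hp _).ne', Real.log_rpow hR0] at h1
    have : (1 / 2 + 2 * c + 2 * s) * Real.log R ≤ 1 * Real.log R :=
      mul_le_mul_of_nonneg_right (by linarith) (by linarith)
    linarith
  have hℓτ : ℓ / 4 * τ0 = R ^ (-(5 * c) - s) / 4 := by
    calc ℓ / 4 * τ0 = ℓ * τ0 / 4 := by ring
      _ = _ := by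
          rw [hℓ, hτ0, hadd]
          congr 2
          ring
  have hB := ctd_abs hμ hν (M := M) (fun x y => by
      rcases sgn x y with h | h <;> rw [h] <;> norm_num)
  obtain ⟨f, g, f0, f1, f2, f3, g0, g1, g2, g3, hem⟩ := xq_label hμ hν hB (ctd_cen hμ hν M).row
    (hp (-(1 / 2) + s)) ps hh2 hτ1one htail (hp (-(1 / 2) - 3 * c - 5 * s)) hS hℓ0
    (fun x hxS => by
      rw [hdot]
      exact le_trans (le_abs_self ℓ) (sq_le_sq.mp (hx x hxS))) hN.t0 (by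
      rw [hτ1]
      apply Real.le_sqrt_of_sq_le
      calc τ0 ^ 2 = R ^ (1 / 2 - 6 * c) := by
            rw [sq, hτ0, hadd]
            congr 1
            ring
        _ ≤ ρ := Real.rpow_le_rpow_of_exponent_le hR1 (by linarith)
        _ ≤ N1 := by
            rw [hN1]
            have : 0 ≤ ρ * 1 * (10 * Real.log R) := by positivity
            linarith) (by
      have h1 := mul_le_mul_of_nonneg_left hN1le (hp (-(10 : ℝ))).le
      have := hN.c1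
      linarith) (by
      calc 3 / 2 * τ0 * (R ^ (-(1 / 2) + s) *
            (Real.log (1 / (R ^ (-(1 / 2) - 3 * c - 5 * s) / 8)) + 4)) ≤
            3 / 2 * τ0 * (R ^ (-(1 / 2) + s) * (Real.log R + 7)) := by
            apply mul_le_mul_of_nonneg_left _ (by have := hp (1 / 4 - 3 * c); positivity)
            apply mul_le_mul_of_nonneg_left _ (hp _).le
            linarith
        _ = 3 / 2 * (τ0 * R ^ (-(1 / 2) + s) * (Real.log R + 7)) := by ring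
        _ = 3 / 2 * (R ^ (-(1 / 4) - 3 * c + s) * (Real.log R + 7)) := by
            have e : τ0 * R ^ (-(1 / 2) + s) = R ^ (-(1 / 4) - 3 * c + s) := by
              rw [hτ0, hadd]
              congr 1
              ring
            rw [e]
        _ < ℓ / 4 := hN.c2) (by
      rw [hℓτ]
      refine lt_of_le_of_lt ?_ hN.c3
      apply mul_le_mul_of_nonneg_left _ (hp _).le
      linarith)
  refine ⟨f, g, f0, fun x => (f1 x).trans ?_, f3, g0, fun y => (g1 y).trans (hτℓ.trans hN.f2), g2,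
    fun x => ?_, fun y => (g3 y).trans (le_of_eq ?_), hem.trans (le_of_eq ?_)⟩
  · rw [hp1]
    exact hN.f1
  · by_cases hxS : x ∈ S
    · calc f x ≤ 1 / (R ^ (-(1 / 2) - 3 * c - 5 * s) / 8) := f1 x
        _ = 8 * R ^ (1 / 2 + 3 * c + 5 * s) := hp1
        _ = 8 * R ^ (1 + 7 * c + 7 * s) * ℓ ^ 2 := by
            rw [sq, hℓ, hadd, mul_assoc, hadd]
            congr 2
            ring
        _ ≤ _ := mul_le_mul_of_nonneg_left (hx x hxS)
            (by have := hp (1 + 7 * c + 7 * s); positivity)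
    · rw [f2 x hxS]
      have := hp (1 + 7 * c + 7 * s)
      positivity
  · congr 1
    have e1 : 4 / (τ0 * (ℓ / 4)) = 16 * (τ0 * ℓ)⁻¹ := by
      field_simp
      ring
    rw [e1, hτ0, hℓ, hadd, hinv]
    congr 2
    ring
  · rw [hℓτ]

end Label

end Pool.Agent.LRC
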