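import Pool.Agent.Lib_helper83.LRC.XQc

/-!
# X': the parameters of PB
-/

set_option autoImplicit false
set_option linter.unusedSectionVars false
set_option linter.unusedVariables false

open Finset Filter

namespace Pool.Agent.LRC

theorem xq_num {R s c : ℝ} (hs0 : 0 < s) (hsc : 100 * s ≤ c) (hc : c ≤ 1 / 1000)
    (hN : XN R s c) : ∃ (d G : ℕ), 1 ≤ d ∧ 0 < G ∧ R ≤ (4 : ℝ) ^ d ∧
      ∀ F θ π κ L e1 lam : ℝ, F = R ^ (1 / 2 + 4 * c) → θ = R ^ (-(6 * c)) → π = θ / (2 * F) →
        κ = G * π * (Real.log (F / θ) + 2) → L = R ^ (8 * c) → e1 = R ^ (-(1 / 2) + 17 * c) →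
        lam = R ^ (-(1 / 2) + s) →
        L ^ 2 * (200 * (d : ℝ) ^ 2 / (π * G) + 4 * (0 + 0 * (κ + Real.log (F / θ) + 1)) +
          2 * (3 / 2 * lam + 2 * (lam / 2) * (κ + Real.log (F / θ) + 1))) + 4 * θ +
          4 * e1 * (1 + κ) < R ^ (-(5 * c) - s) / 16 := by
  have hR0 : 0 < R := by have := hN.R8; linarith
  have hR1 : 1 ≤ R := by have := hN.R8; linarith
  have hc0 : 0 < c := by linarith
  have hp : ∀ x : ℝ, 0 < R ^ x := fun x => Real.rpow_pos_of_pos hR0 x
  have hadd : ∀ x y : ℝ, R ^ x * R ^ y = R ^ (x + y) := fun x y => (Real.rpow_add hR0 x y).symm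
  have hinv : ∀ x : ℝ, (R ^ x)⁻¹ = R ^ (-x) := fun x => (Real.rpow_neg hR0.le x).symm
  have hlog := hN.lg1
  set π0 : ℝ := R ^ (-(6 * c)) / (2 * R ^ (1 / 2 + 4 * c)) with hπ0
  have hF0 := hp (1 / 2 + 4 * c)
  have hθ0 := hp (-(6 * c))
  have hπ0p : 0 < π0 := by rw [hπ0]; positivity
  have hπ01 : π0 ≤ 1 := by
    rw [hπ0, div_le_one (by positivity)]
    have h1 : R ^ (-(6 * c)) ≤ 1 := Real.rpow_le_one_of_one_le_of_nonpos hR1 (by linarith)
    have h2 : 1 ≤ R ^ (1 / 2 + 4 * c) := Real.one_le_rpow hR1 (by linarith)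
    linarith
  refine ⟨⌈Real.log R⌉₊ + 1, ⌈R ^ (23 * c) / π0⌉₊, by omega,
    Nat.ceil_pos.mpr (div_pos (hp _) hπ0p), ?_, ?_⟩
  · have h1 : R ≤ Real.exp (⌈Real.log R⌉₊ : ℝ) := by
      calc R = Real.exp (Real.log R) := (Real.exp_log hR0).symm
        _ ≤ _ := Real.exp_le_exp.mpr (Nat.le_ceil _)
    have h2 : Real.exp (⌈Real.log R⌉₊ : ℝ) ≤ (4 : ℝ) ^ ⌈Real.log R⌉₊ := by
      have h3 : Real.exp (⌈Real.log R⌉₊ : ℝ) = Real.exp 1 ^ ⌈Real.log R⌉₊ := by
        rw [← Real.exp_nat_mul, mul_one]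
      rw [h3]
      apply pow_le_pow_left₀ (Real.exp_pos _).le
      have := Real.exp_one_lt_d9
      linarith
    rw [pow_succ]
    nlinarith
  · intro F θ π κ L e1 lam hF hθ hπ hκ hL he1 hlam
    have hπe : π = π0 := by rw [hπ, hF, hθ]
    set G : ℕ := ⌈R ^ (23 * c) / π0⌉₊ with hG
    have hG1 : R ^ (23 * c) ≤ π * G := by
      have := Nat.le_ceil (R ^ (23 * c) / π0)
      rw [div_le_iff₀ hπ0p] at this
      rw [hπe]
      linarith
    have hG2 : G * π ≤ 2 * R ^ (23 * c) := by
      have h1 := (Nat.ceil_lt_add_one (by have := hp (23 * c); positivity :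
        0 ≤ R ^ (23 * c) / π0)).le
      rw [← hG] at h1
      have h2 := mul_le_mul_of_nonneg_right h1 hπ0p.le
      rw [add_mul, div_mul_cancel₀ _ hπ0p.ne', one_mul] at h2
      have h3 : 1 ≤ R ^ (23 * c) := Real.one_le_rpow hR1 (by linarith)
      rw [hπe]
      linarith
    have hFθ : F / θ = R ^ (1 / 2 + 10 * c) := by
      rw [hF, hθ, div_eq_mul_inv, hinv, hadd]
      congr 1
      ring
    have hlg : Real.log (F / θ) ≤ Real.log R := by
      rw [hFθ, Real.log_rpow hR0]
      have : (1 / 2 + 10 * c) * Real.log R ≤ 1 * Real.log R :=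
        mul_le_mul_of_nonneg_right (by linarith) (by linarith)
      linarith
    have hlg0 : 0 ≤ Real.log (F / θ) := by
      rw [hFθ, Real.log_rpow hR0]
      have : 0 ≤ Real.log R := by linarith
      positivity
    have hGπ0 : 0 ≤ G * π := by
      rw [hπe]
      positivity
    have hκ0 : 0 ≤ κ := by rw [hκ]; positivity
    have hκ1 : κ ≤ 2 * R ^ (23 * c) * (Real.log R + 2) := by
      rw [hκ]
      exact mul_le_mul hG2 (by linarith) (by linarith) (by have := hp (23 * c); positivity)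
    have hk : κ + Real.log (F / θ) + 3 ≤ R ^ (24 * c) := by
      have := hN.k1
      linarith
    have hL2 : L ^ 2 = R ^ (16 * c) := by
      rw [hL, sq, hadd]
      congr 1
      ring
    have hd : ((⌈Real.log R⌉₊ + 1 : ℕ) : ℝ) ^ 2 ≤ R ^ (s / 2) := by
      have h1 : ((⌈Real.log R⌉₊ + 1 : ℕ) : ℝ) ≤ R ^ (s / 4) := by
        have h2 := (Nat.ceil_lt_add_one (Real.log_nonneg hR1)).le
        have h3 := hN.lg
        push_cast
        linarith
      calc _ ≤ (R ^ (s / 4)) ^ 2 := by gcongr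
        _ = R ^ (s / 2) := by
            rw [sq, hadd]
            congr 1
            ring
    set d : ℝ := ((⌈Real.log R⌉₊ + 1 : ℕ) : ℝ) with hdd
    have ta : L ^ 2 * (200 * d ^ 2 / (π * G)) ≤ R ^ (-(5 * c) - s) / 100 := by
      have h1 : 200 * d ^ 2 / (π * G) ≤ 200 * R ^ (s / 2) / R ^ (23 * c) := by
        apply div_le_div₀ (by have := hp (s / 2); positivity) (by linarith) (hp _) hG1
      calc L ^ 2 * (200 * d ^ 2 / (π * G)) ≤
            R ^ (16 * c) * (200 * R ^ (s / 2) / R ^ (23 * c)) := by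
            rw [hL2]
            exact mul_le_mul_of_nonneg_left h1 (hp _).le
        _ = 200 * (R ^ (16 * c) * R ^ (s / 2) * R ^ (-(23 * c))) := by
            rw [div_eq_mul_inv, hinv]
            ring
        _ = 200 * R ^ (-(7 * c) + s / 2) := by
            rw [hadd, hadd]
            congr 2
            ring
        _ ≤ _ := hN.m1
    have tb : L ^ 2 * (2 * (3 / 2 * lam + 2 * (lam / 2) * (κ + Real.log (F / θ) + 1))) ≤
        R ^ (-(5 * c) - s) / 100 := by
      have hlam0 : 0 < lam := by rw [hlam]; exact hp _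
      calc L ^ 2 * (2 * (3 / 2 * lam + 2 * (lam / 2) * (κ + Real.log (F / θ) + 1))) =
            2 * (L ^ 2 * (lam * (κ + Real.log (F / θ) + 5 / 2))) := by ring
        _ ≤ 2 * (L ^ 2 * (lam * (2 * R ^ (24 * c)))) := by
            apply mul_le_mul_of_nonneg_left _ (by norm_num)
            apply mul_le_mul_of_nonneg_left _ (sq_nonneg _)
            apply mul_le_mul_of_nonneg_left _ hlam0.le
            have := hp (24 * c)
            linarith
        _ = 4 * (R ^ (16 * c) * R ^ (-(1 / 2) + s) * R ^ (24 * c)) := by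
            rw [hL2, hlam]
            ring
        _ = 4 * R ^ (40 * c - 1 / 2 + s) := by
            rw [hadd, hadd]
            congr 2
            ring
        _ ≤ _ := hN.m2
    have tc : 4 * θ ≤ R ^ (-(5 * c) - s) / 100 := by
      rw [hθ]
      exact hN.m3
    have td : 4 * e1 * (1 + κ) ≤ R ^ (-(5 * c) - s) / 100 := by
      calc 4 * e1 * (1 + κ) ≤ 4 * e1 * R ^ (24 * c) := by
            apply mul_le_mul_of_nonneg_left _ (by rw [he1]; have := hp (-(1 / 2) + 17 * c); positivity)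
            linarith
        _ = 4 * (R ^ (-(1 / 2) + 17 * c) * R ^ (24 * c)) := by
            rw [he1]
            ring
        _ = 4 * R ^ (-(1 / 2) + 41 * c) := by
            rw [hadd]
            congr 2
            ring
        _ ≤ _ := hN.m4
    have h5 := hp (-(5 * c) - s)
    calc _ = L ^ 2 * (200 * d ^ 2 / (π * G)) +
          L ^ 2 * (2 * (3 / 2 * lam + 2 * (lam / 2) * (κ + Real.log (F / θ) + 1))) + 4 * θ +
          4 * e1 * (1 + κ) := by ring
      _ < _ := by linarith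

end Pool.Agent.LRC
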