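import Pool.Agent.Lib_helper83.LRC.XQd
import Pool.Agent.Lib_helper83.LRC.XQe

/-!
# X': the main step
-/

set_option autoImplicit false
set_option linter.unusedSectionVars false
set_option linter.unusedVariables false

open Finset Matrix

namespace Pool.Agent.LRC

open Pool.Agent.LR2

theorem xf_1 {c s l : ℝ} (hc : 0 ≤ c) (hs : 0 ≤ s) (hl : 10 ≤ l) :
    1 ≤ (1 / 2 + 3 * c + 5 * s) * l := by
  nlinarith [mul_nonneg hc (show (0 : ℝ) ≤ l by linarith),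
    mul_nonneg hs (show (0 : ℝ) ≤ l by linarith)]

theorem xf_2 {c s l : ℝ} (hs : 0 < s) (h : 100 * s ≤ c) (h3 : c ≤ 1 / 1000) (hl : 0 ≤ l) :
    (1 / 2 + 3 * c + 5 * s) * l ≤ l := by
  have : (1 / 2 + 3 * c + 5 * s) * l ≤ 1 * l := mul_le_mul_of_nonneg_right (by linarith) hl
  linarith

theorem xf_3 {V k N t l : ℝ} (hVk : V ≤ k) (hk : 0 ≤ k) (hN : 0 ≤ N) (ht : t ≤ l) :
    (2 * V + 2 * k) * N + k * N * t ≤ (2 * k + 2 * k) * N + k * N * l := by
  have e1 : (2 * V + 2 * k) * N ≤ (2 * k + 2 * k) * N :=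
    mul_le_mul_of_nonneg_right (by linarith) hN
  have e2 : k * N * t ≤ k * N * l := mul_le_mul_of_nonneg_left ht (by positivity)
  linarith

theorem xf_4 {T Y a b x y z w : ℝ} (hcon : Y < T) (hsel : T ≤ a + b + x) (d1 : a ≤ Y / 4)
    (d2 : b ≤ Y / 4) (d3 : x ≤ y) (d4 : y ≤ z) (d5 : w = 2 * z) (d8 : w ≤ Y) : False := by
  linarith

theorem xf_5 {a b e : ℝ} (d : 1 ≤ b) (ha : 0 ≤ a) (he : e = a * b) : a ≤ e := by
  rw [he]
  exact le_mul_of_one_le_right ha d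

theorem xf_6 {E Q : ℝ} (h : E ≤ -(Q / 4)) : 1 / 4 * E ≤ -(Q / 16) := by
  linarith

theorem xf_8 {l : ℝ} (hl : 10 ≤ l) : 1 ≤ 10 * l := by linarith

theorem xf_7 {x y : ℝ} (hx : 0 ≤ x) (hy : 0 ≤ y) : 0 ≤ x + y := by positivity

section Main

variable {X Y ι A : Type} [Fintype X] [Fintype Y] [Fintype ι] [DecidableEq ι] [Fintype A]
  {μ : X → ℝ} {ν : Y → ℝ} {M : X → Y → ℝ} {V : ι → ℝ} {be : X → ι → ℝ} {z : Y → ι → ℝ}
  {R s c : ℝ}

theorem xq_mom (mom : ∀ i j, ∑ x, μ x * (be x i * be x j) = if i = j then V i else 0)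
    {V0 : ℝ} (hV : ∀ i, V i ≤ V0) (v : ι → ℝ) :
    ∑ x, μ x * (v ⬝ᵥ be x) ^ 2 ≤ V0 * (v ⬝ᵥ v) := by
  have h1 : ∑ x, μ x * (v ⬝ᵥ be x) ^ 2 = ∑ i, V i * (v i * v i) := by
    have e1 : ∀ x, μ x * (v ⬝ᵥ be x) ^ 2 =
        ∑ i, ∑ j, v i * v j * (μ x * (be x i * be x j)) := by
      intro x
      simp only [dotProduct, sq, Finset.mul_sum, Finset.sum_mul]
      rw [Finset.sum_comm]
      apply Finset.sum_congr rfl
      intro i _
      apply Finset.sum_congr rfl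
      intro j _
      ring
    simp only [e1]
    rw [Finset.sum_comm]
    apply Finset.sum_congr rfl
    intro i _
    rw [Finset.sum_comm]
    simp only [← Finset.mul_sum, mom]
    simp only [mul_ite, mul_zero, Finset.sum_ite_eq, Finset.mem_univ, if_true]
    ring
  rw [h1]
  simp only [dotProduct]
  rw [Finset.mul_sum]
  exact Finset.sum_le_sum fun i _ => mul_le_mul_of_nonneg_right (hV i) (mul_self_nonneg _)

/-- normalised vector -/
noncomputable def xqU (v : ι → ℝ) : ι → ℝ := (Real.sqrt (v ⬝ᵥ v))⁻¹ • v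

theorem xqU_dot (v x : ι → ℝ) : (xqU v ⬝ᵥ x) ^ 2 = (v ⬝ᵥ x) ^ 2 / (v ⬝ᵥ v) := by
  unfold xqU
  rw [smul_dotProduct, smul_eq_mul, mul_pow, inv_pow, Real.sq_sqrt (dot_self_nonneg v)]
  rw [inv_mul_eq_div]

theorem xqU_le (v : ι → ℝ) : xqU v ⬝ᵥ xqU v ≤ 1 := by
  unfold xqU
  rw [smul_dotProduct, dotProduct_smul, smul_eq_mul, smul_eq_mul]
  rcases (dot_self_nonneg v).eq_or_lt with h | h
  · rw [← h]
    simp
  · have e : (Real.sqrt (v ⬝ᵥ v))⁻¹ * ((Real.sqrt (v ⬝ᵥ v))⁻¹ * (v ⬝ᵥ v)) = 1 := by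
      have h1 := Real.sq_sqrt h.le
      have h2 : 0 < Real.sqrt (v ⬝ᵥ v) := Real.sqrt_pos.mpr h
      rw [← mul_assoc, ← mul_inv, ← sq, h1]
      exact inv_mul_cancel₀ h.ne'
    exact e.le

theorem xq_core (hs0 : 0 < s) (hsc : 100 * s ≤ c) (hc : c ≤ 1 / 1000) (hN : XN R s c)
    (hμ : IsPr μ) (hν : IsPr ν) (sgn : ∀ x y, M x y = 1 ∨ M x y = -1)
    (rank : ((Matrix.of M).rank : ℝ) ≤ R)
    (ps : ∀ (p : X → ℝ) (q : Y → ℝ) (s' t : ℝ), IsPr p → IsPr q →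
      (∀ x, p x ≤ Real.exp s' * μ x) → (∀ y, q y ≤ Real.exp t * ν y) →
      LR2.em p q (ctd μ ν M) ≤ R ^ (-(1 / 2) + s) * (s' + t + 2))
    (pkl : ∀ (p : X → ℝ) (q : Y → ℝ), IsPr p → IsPr q → AC p μ → AC q ν →
      LR2.em p q (ctd μ ν M) ≤ 2 * R ^ (-(1 / 2) + s) * (KL p μ + KL q ν) +
        6 * R ^ (-(1 / 2) + s))
    (bez : ∀ x i, be x i = ∑ y, ν y * (ctd μ ν M x y * z y i)) (iso : Iso ν z)
    (mom : ∀ i j, ∑ x, μ x * (be x i * be x j) = if i = j then V i else 0)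
    (hV : ∀ i, V i ≤ R ^ (-1 + s))
    (f4 : FT μ be V (R ^ (-(1 / 2) + s))) (f5 : FT ν z (fun _ => 1) (R ^ (1 / 2 + s)))
    (gam : A → ℝ) (Ra : A → Matrix ι ι ℝ) (h0 : ∀ a, 0 ≤ gam a) (h1 : ∑ a, gam a ≤ 1)
    (hRa : ∀ w : ι → ℝ, ∑ a, gam a * ((Ra a *ᵥ w) ⬝ᵥ (Ra a *ᵥ w)) ≤
      R ^ (1 / 2 + c) * (w ⬝ᵥ w))
    (hop : ∀ a, OpB (Ra a) (R ^ (1 / 2 + c))) (hhs : ∀ a, hs (Ra a) ≤ R ^ (3 / 2 + c)) :
    ∑ x, ∑ a, ∑ y, μ x * gam a * ν y * (if R ^ (1 - 2 * c) ≤ ((Ra a *ᵥ be x) ⬝ᵥ z y) ^ 2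
        then ((Ra a *ᵥ be x) ⬝ᵥ z y) ^ 2 else 0) ≤ R ^ (1 / 2 - c) := by
  classical
  have hR0 : 0 < R := lt_of_lt_of_le (by norm_num) hN.R8
  have hR1 : 1 ≤ R := le_trans (by norm_num) hN.R8
  have hc0 : 0 < c := lt_of_lt_of_le (by positivity) hsc
  have hp : ∀ x : ℝ, 0 < R ^ x := fun x => Real.rpow_pos_of_pos hR0 x
  have hadd : ∀ x y : ℝ, R ^ x * R ^ y = R ^ (x + y) := fun x y => (Real.rpow_add hR0 x y).symm
  have hinv : ∀ x : ℝ, (R ^ x)⁻¹ = R ^ (-x) := fun x => (Real.rpow_neg hR0.le x).symm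
  have hlog := hN.lg1
  have hlog0 : 0 ≤ Real.log R := le_trans (by norm_num) hlog
  by_contra hcon
  push Not at hcon
  set w : A × Y → ℝ := fun ζ => gam ζ.1 * ν ζ.2 with hw
  set v : A × Y → ι → ℝ := fun ζ => (Ra ζ.1)ᵀ *ᵥ z ζ.2 with hv
  have hw0 : ∀ ζ, 0 ≤ w ζ := fun ζ => mul_nonneg (h0 _) (hν.nonneg _)
  have hw1 : ∑ ζ, w ζ ≤ 1 := by
    rw [hw, Fintype.sum_prod_type]
    simp only [← Finset.mul_sum, hν.sum, mul_one]
    exact h1
  have hT : ∑ x, ∑ a, ∑ y, μ x * gam a * ν y * (if R ^ (1 - 2 * c) ≤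
        ((Ra a *ᵥ be x) ⬝ᵥ z y) ^ 2 then ((Ra a *ᵥ be x) ⬝ᵥ z y) ^ 2 else 0) =
      ∑ ζ, w ζ * ∑ x, μ x * (if R ^ (1 - 2 * c) ≤ (v ζ ⬝ᵥ be x) ^ 2 then (v ζ ⬝ᵥ be x) ^ 2
        else 0) := by
    rw [Fintype.sum_prod_type]
    simp only [Finset.mul_sum]
    rw [Finset.sum_comm]
    apply Finset.sum_congr rfl
    intro a _
    rw [Finset.sum_comm]
    apply Finset.sum_congr rfl
    intro y _
    apply Finset.sum_congr rfl
    intro x _
    have e : (Ra a *ᵥ be x) ⬝ᵥ z y = v (a, y) ⬝ᵥ be x := by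
      rw [dotProduct_comm, xq_dot]
    rw [e, hw]
    ring
  rw [hT] at hcon
  -- norms of label vectors
  set ρ := R ^ (1 / 2 + s) with hρ
  set kap := R ^ (-(1 / 2) + s) with hkap
  set V0 := R ^ (-1 + s) with hV0
  have hρ0 : 0 < ρ := hp _
  have hkap0 : 0 < kap := hp _
  have hV00 : 0 < V0 := hp _
  set Nv : ℝ := (2 * R ^ (3 / 2 + c) + 2 * (ρ * (R ^ (1 / 2 + c)) ^ 2)) +
    ρ * (R ^ (1 / 2 + c)) ^ 2 * (10 * Real.log R) with hNv
  have hsqc : (R ^ (1 / 2 + c)) ^ 2 = R ^ (1 + 2 * c) := by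
    rw [sq, hadd]
    congr 1
    ring
  have hNvle : Nv ≤ R ^ (3 / 2 + 2 * c + 2 * s) := by
    rw [hNv, hsqc]
    exact hN.nv
  have hNv0 : 0 < Nv := by
    rw [hNv]
    have := hp (3 / 2 + c)
    have : 0 ≤ ρ * (R ^ (1 / 2 + c)) ^ 2 * (10 * Real.log R) := by positivity
    positivity
  have hexp : Real.exp (-(10 * Real.log R)) = R ^ (-(10 : ℝ)) := by
    rw [Real.rpow_def_of_pos hR0]
    congr 1
    ring
  have hev : ∑ ζ, w ζ * (if Nv < v ζ ⬝ᵥ v ζ then v ζ ⬝ᵥ v ζ else 0) ≤ R ^ (-(10 : ℝ)) * Nv := by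
    rw [Fintype.sum_prod_type]
    have e1 : ∀ a, ∑ y, w (a, y) * (if Nv < v (a, y) ⬝ᵥ v (a, y) then v (a, y) ⬝ᵥ v (a, y)
        else 0) ≤ gam a * (R ^ (-(10 : ℝ)) * Nv) := by
      intro a
      have e2 := xq_nv (R := Ra a) hν hρ0.le f5 (hop a) (hhs a) (t := 10 * Real.log R)
        (xf_8 hlog) hNv
      rw [hexp] at e2
      have e3 := mul_le_mul_of_nonneg_left e2 (h0 a)
      refine le_trans (le_of_eq ?_) e3
      rw [Finset.mul_sum]
      apply Finset.sum_congr rfl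
      intro y _
      rw [hw, hv]
      ring
    calc _ ≤ ∑ a, gam a * (R ^ (-(10 : ℝ)) * Nv) := Finset.sum_le_sum fun a _ => e1 a
      _ = (∑ a, gam a) * (R ^ (-(10 : ℝ)) * Nv) := by rw [Finset.sum_mul]
      _ ≤ 1 * (R ^ (-(10 : ℝ)) * Nv) :=
          mul_le_mul_of_nonneg_right h1 (mul_nonneg (hp _).le hNv0.le)
      _ = _ := one_mul _
  have hmom := xq_mom (V0 := V0) mom hV
  set t1 : ℝ := (1 / 2 + 3 * c + 5 * s) * Real.log R with ht1
  have ht1a : 1 ≤ t1 := xf_1 hc0.le hs0.le hlog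
  have ht1b : t1 ≤ Real.log R := xf_2 hs0 hsc hc hlog0
  have hp1 : Real.exp (-t1) = R ^ (-(1 / 2) - 3 * c - 5 * s) := by
    rw [Real.rpow_def_of_pos hR0, ht1]
    congr 1
    ring
  have hsel := xq_sel hμ f4 hkap0.le hV00.le hV hmom hw0 hw1 v (θ0 := R ^ (1 - 2 * c)) hNv0.le
    ht1a hev
  rw [hp1] at hsel
  set p1 : ℝ := R ^ (-(1 / 2) - 3 * c - 5 * s) with hp1d
  set Sel : A × Y → Prop := fun ζ => xqSel μ be (R ^ (1 - 2 * c)) Nv p1 (v ζ) with hSel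
  set Γ : ℝ := ∑ ζ, (if Sel ζ then w ζ else 0) with hΓ
  have hΓ1 : R ^ (-(3 * c) - 4 * s) ≤ Γ := by
    have d1 : V0 * (R ^ (-(10 : ℝ)) * Nv) ≤ R ^ (1 / 2 - c) / 4 := by
      refine le_trans ?_ hN.e1
      apply mul_le_mul_of_nonneg_left _ hV00.le
      exact mul_le_mul_of_nonneg_left hNvle (hp _).le
    have d2 : p1 * ((2 * V0 + 2 * kap) * Nv + kap * Nv * t1) ≤ R ^ (1 / 2 - c) / 4 := by
      have hVk : V0 ≤ kap := Real.rpow_le_rpow_of_exponent_le hR1 (by linarith)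
      have hp10 : 0 < p1 := hp _
      calc p1 * ((2 * V0 + 2 * kap) * Nv + kap * Nv * t1) ≤
            p1 * ((2 * kap + 2 * kap) * Nv + kap * Nv * Real.log R) := by
            apply mul_le_mul_of_nonneg_left _ hp10.le
            exact xf_3 hVk hkap0.le hNv0.le ht1b
        _ = p1 * kap * Nv * (4 + Real.log R) := by ring
        _ ≤ p1 * kap * R ^ (3 / 2 + 2 * c + 2 * s) * (4 + Real.log R) := by
            apply mul_le_mul_of_nonneg_right _ (by positivity)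
            exact mul_le_mul_of_nonneg_left hNvle (by positivity)
        _ = R ^ (1 / 2 - c - 2 * s) * (4 + Real.log R) := by
            have e : p1 * kap * R ^ (3 / 2 + 2 * c + 2 * s) = R ^ (1 / 2 - c - 2 * s) := by
              rw [hp1d, hkap, hadd, hadd]
              congr 1
              ring
            rw [e]
        _ ≤ _ := hN.e2
    have d3 : V0 * Nv * Γ ≤ R ^ (1 / 2 + 2 * c + 3 * s) * Γ := by
      apply mul_le_mul_of_nonneg_right
      · calc V0 * Nv ≤ V0 * R ^ (3 / 2 + 2 * c + 2 * s) := mul_le_mul_of_nonneg_left hNvle hV00.le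
          _ = _ := by
              rw [hV0, hadd]
              congr 1
              ring
      · exact Finset.sum_nonneg fun ζ _ => by
          split_ifs
          · exact hw0 ζ
          · exact le_rfl
    by_contra hcon2
    push Not at hcon2
    have d4 : R ^ (1 / 2 + 2 * c + 3 * s) * Γ ≤
        R ^ (1 / 2 + 2 * c + 3 * s) * R ^ (-(3 * c) - 4 * s) :=
      mul_le_mul_of_nonneg_left hcon2.le (hp _).le
    have d5 := mul_le_mul_of_nonneg_left hN.ga (hp (1 / 2 + 2 * c + 3 * s)).le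
    have d6 : R ^ (1 / 2 + 2 * c + 3 * s) * R ^ (-(3 * c) - 3 * s) = R ^ (1 / 2 - c) := by
      rw [hadd]
      congr 1
      ring
    rw [d6] at d5
    exact xf_4 hcon hsel d1 d2 d3 d4 (mul_left_comm _ _ _) d5
  have hΓ0 : 0 < Γ := lt_of_lt_of_le (hp _) hΓ1
  set γ : A × Y → ℝ := fun ζ => (if Sel ζ then w ζ else 0) / Γ with hγ
  have hγ0 : ∀ ζ, 0 ≤ γ ζ := fun ζ => by
    apply div_nonneg _ hΓ0.le
    split_ifs
    · exact hw0 ζ
    · exact le_rfl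
  have hγ1 : ∑ ζ, γ ζ = 1 := by
    simp only [hγ]
    rw [← Finset.sum_div]
    exact div_self hΓ0.ne'
  have hγsel : ∀ ζ, γ ζ ≠ 0 → Sel ζ := by
    intro ζ h
    by_contra h'
    apply h
    simp only [hγ]
    rw [if_neg h', zero_div]
  set u : A × Y → ι → ℝ := fun ζ => xqU (v ζ) with hu
  have hn : ∀ ζ, Sel ζ → R ^ (3 / 2 - 5 * c - 6 * s) ≤ v ζ ⬝ᵥ v ζ := by
    intro ζ h
    have e1 := xq_sel_ge hμ hmom (hp (1 - 2 * c)).le h
    have e2 := mul_le_mul_of_nonneg_left e1 (hp (1 - s)).le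
    have e3 : R ^ (1 - s) * (R ^ (1 - 2 * c) * p1) = R ^ (3 / 2 - 5 * c - 6 * s) := by
      rw [hp1d, hadd, hadd]
      congr 1
      ring
    have e4 : R ^ (1 - s) * (V0 * (v ζ ⬝ᵥ v ζ)) = v ζ ⬝ᵥ v ζ := by
      rw [← mul_assoc, hV0, hadd]
      have : (1 - s + (-1 + s) : ℝ) = 0 := by ring
      rw [this, Real.rpow_zero, one_mul]
    rw [e3, e4] at e2
    exact e2
  have hspr : ∀ w' : ι → ℝ, ∑ ζ, γ ζ * (u ζ ⬝ᵥ w') ^ 2 ≤
      R ^ (-1 + 9 * c + 10 * s) * (w' ⬝ᵥ w') := by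
    intro w'
    have e1 : ∀ ζ, γ ζ * (u ζ ⬝ᵥ w') ^ 2 ≤
        R ^ (3 * c + 4 * s) * R ^ (-(3 / 2) + 5 * c + 6 * s) * (w ζ * (v ζ ⬝ᵥ w') ^ 2) := by
      intro ζ
      by_cases h : Sel ζ
      · have hnζ := hn ζ h
        have hn0 : 0 < v ζ ⬝ᵥ v ζ := lt_of_lt_of_le (hp _) hnζ
        simp only [hγ, hu]
        rw [if_pos h, xqU_dot]
        have d1 : w ζ / Γ ≤ w ζ * R ^ (3 * c + 4 * s) := by
          rw [div_le_iff₀ hΓ0, mul_assoc]
          have d2 : 1 ≤ R ^ (3 * c + 4 * s) * Γ := by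
            calc (1 : ℝ) = R ^ (3 * c + 4 * s) * R ^ (-(3 * c) - 4 * s) := by
                  rw [hadd]
                  have : (3 * c + 4 * s + (-(3 * c) - 4 * s) : ℝ) = 0 := by ring
                  rw [this, Real.rpow_zero]
              _ ≤ _ := mul_le_mul_of_nonneg_left hΓ1 (hp _).le
          exact xf_5 d2 (hw0 ζ) rfl
        have d3 : (v ζ ⬝ᵥ w') ^ 2 / (v ζ ⬝ᵥ v ζ) ≤
            (v ζ ⬝ᵥ w') ^ 2 * R ^ (-(3 / 2) + 5 * c + 6 * s) := by
          rw [div_le_iff₀ hn0, mul_assoc]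
          have d2 : 1 ≤ R ^ (-(3 / 2) + 5 * c + 6 * s) * (v ζ ⬝ᵥ v ζ) := by
            calc (1 : ℝ) = R ^ (-(3 / 2) + 5 * c + 6 * s) * R ^ (3 / 2 - 5 * c - 6 * s) := by
                  rw [hadd]
                  have : (-(3 / 2) + 5 * c + 6 * s + (3 / 2 - 5 * c - 6 * s) : ℝ) = 0 := by ring
                  rw [this, Real.rpow_zero]
              _ ≤ _ := mul_le_mul_of_nonneg_left hnζ (hp _).le
          exact xf_5 d2 (sq_nonneg (v ζ ⬝ᵥ w')) rfl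
        calc w ζ / Γ * ((v ζ ⬝ᵥ w') ^ 2 / (v ζ ⬝ᵥ v ζ)) ≤
              (w ζ * R ^ (3 * c + 4 * s)) * ((v ζ ⬝ᵥ w') ^ 2 * R ^ (-(3 / 2) + 5 * c + 6 * s)) :=
              mul_le_mul d1 d3 (by positivity)
                (mul_nonneg (hw0 ζ) (hp _).le)
          _ = _ := by ring
      · simp only [hγ]
        rw [if_neg h, zero_div, zero_mul]
        have := hp (3 * c + 4 * s)
        have := hp (-(3 / 2) + 5 * c + 6 * s)
        have := hw0 ζ
        positivity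
    calc _ ≤ ∑ ζ, R ^ (3 * c + 4 * s) * R ^ (-(3 / 2) + 5 * c + 6 * s) *
          (w ζ * (v ζ ⬝ᵥ w') ^ 2) := Finset.sum_le_sum fun ζ _ => e1 ζ
      _ = R ^ (3 * c + 4 * s) * R ^ (-(3 / 2) + 5 * c + 6 * s) *
          ∑ a, gam a * ((Ra a *ᵥ w') ⬝ᵥ (Ra a *ᵥ w')) := by
          rw [← Finset.mul_sum, ← xq_spread iso gam Ra w']
      _ ≤ R ^ (3 * c + 4 * s) * R ^ (-(3 / 2) + 5 * c + 6 * s) *
          (R ^ (1 / 2 + c) * (w' ⬝ᵥ w')) :=
          mul_le_mul_of_nonneg_left (hRa w') (mul_nonneg (hp _).le (hp _).le)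
      _ = R ^ (3 * c + 4 * s) * R ^ (-(3 / 2) + 5 * c + 6 * s) * R ^ (1 / 2 + c) *
          (w' ⬝ᵥ w') := by ring
      _ = _ := by
          rw [hadd, hadd]
          congr 2
          ring
  have hlab : ∀ ζ, ∃ (f : X → ℝ) (g : Y → ℝ), (∀ x, 0 ≤ f x) ∧
      (∀ x, f x ≤ R ^ (1 / 2 + 4 * c)) ∧ ∑ x, μ x * f x = 1 ∧ (∀ y, 0 ≤ g y) ∧
      (∀ y, g y ≤ R ^ (1 / 2 + 4 * c)) ∧ ∑ y, ν y * g y = 1 ∧
      (Sel ζ → (∀ x, f x ≤ 8 * R ^ (1 + 7 * c + 7 * s) * (u ζ ⬝ᵥ be x) ^ 2) ∧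
        (∀ y, g y ≤ 16 * R ^ (5 * c + s) * (u ζ ⬝ᵥ z y) ^ 2) ∧
        LR2.em (fun x => μ x * f x) (fun y => ν y * g y) (ctd μ ν M) ≤
          -(R ^ (-(5 * c) - s) / 4)) := by
    intro ζ
    by_cases h : Sel ζ
    · have hnζ := hn ζ h
      have hn0 : 0 < v ζ ⬝ᵥ v ζ := lt_of_lt_of_le (hp _) hnζ
      obtain ⟨f, g, f0, f1, f2, g0, g1, g2, f3, g3, hem⟩ := xq_lab hs0 hsc hc hN hμ hν sgn ps bez
        iso f5 (u := u ζ) (xqU_le (v ζ)) (S := xqX be (R ^ (1 - 2 * c)) (v ζ)) h.2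
        (fun x hx => by
          have hx2 : R ^ (1 - 2 * c) ≤ (v ζ ⬝ᵥ be x) ^ 2 := (Finset.mem_filter.mp hx).2
          simp only [hu]
          rw [xqU_dot, le_div_iff₀ hn0]
          calc (R ^ (-(1 / 4) - 2 * c - s)) ^ 2 * (v ζ ⬝ᵥ v ζ) ≤
                (R ^ (-(1 / 4) - 2 * c - s)) ^ 2 * R ^ (3 / 2 + 2 * c + 2 * s) :=
                mul_le_mul_of_nonneg_left (h.1.trans hNvle) (sq_nonneg _)
            _ = R ^ (1 - 2 * c) := by
                rw [sq, hadd, hadd]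
                congr 1
                ring
            _ ≤ _ := hx2)
      exact ⟨f, g, f0, f1, f2, g0, g1, g2, fun _ => ⟨f3, g3, hem⟩⟩
    · have hF1 : 1 ≤ R ^ (1 / 2 + 4 * c) := Real.one_le_rpow hR1 (by positivity)
      exact ⟨fun _ => 1, fun _ => 1, fun _ => zero_le_one, fun _ => hF1,
        by simpa using hμ.sum, fun _ => zero_le_one, fun _ => hF1, by simpa using hν.sum,
        fun h' => absurd h' h⟩
  choose f g f0 f1 f2 g0 g1 g2 hfg using hlab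
  obtain ⟨d, G, hd, hG, h4d, hnum⟩ := xq_num hs0 hsc hc hN
  obtain ⟨ζ0, -, -⟩ := Finset.exists_ne_zero_of_sum_ne_zero (s := Finset.univ) hΓ0.ne'
  have : Inhabited (A × Y) := ⟨ζ0⟩
  have hrow0 : ∀ x, ∑ y, ν y * (ctd μ ν M x y / 4) = 0 := fun x => by
    have e := (ctd_cen hμ hν M).row x
    have e2 : ∀ y, ν y * (ctd μ ν M x y / 4) = ν y * ctd μ ν M x y / 4 := fun y => by ring
    simp only [e2]
    rw [← Finset.sum_div, e, zero_div]
  have hcol0 : ∀ y, ∑ x, μ x * (ctd μ ν M x y / 4) = 0 := fun y => by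
    have e := (ctd_cen hμ hν M).col y
    have e2 : ∀ x, μ x * (ctd μ ν M x y / 4) = μ x * ctd μ ν M x y / 4 := fun x => by ring
    simp only [e2]
    rw [← Finset.sum_div, e, zero_div]
  have H := pb hμ hν (M := fun x y => ctd μ ν M x y / 4) (blr_abs hμ hν sgn) hd (by
      have h5 : ((Matrix.of M).rank : ℝ) ≤ ((4 ^ d : ℕ) : ℝ) := by
        push_cast
        exact rank.trans h4d
      exact (blr_rank μ ν M).trans (by exact_mod_cast h5))
    (U := 0) (A := 3 / 2 * kap) (B := kap / 2) (A' := 0) (B' := 0) (by norm_num)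
    (by positivity) (by positivity) le_rfl le_rfl (blr_upr pkl)
    (fun p _ _ => by
      rw [em_row]
      have : ∀ x, p x * rmean ν (fun x y => ctd μ ν M x y / 4) x = 0 := fun x => by
        unfold rmean
        rw [hrow0, mul_zero]
      simp only [this]
      simp)
    (fun q _ _ => by
      rw [em_col]
      have : ∀ y, q y * cmean μ (fun x y => ctd μ ν M x y / 4) y = 0 := fun y => by
        unfold cmean
        rw [hcol0, mul_zero]
      simp only [this]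
      simp)
    hγ0 hγ1 (f := f) (g := g) (F := R ^ (1 / 2 + 4 * c)) (Real.one_le_rpow hR1 (by positivity))
    f0 f1 f2 g0 g1 g2 (L := R ^ (8 * c)) (e1 := R ^ (-(1 / 2) + 17 * c))
    (Real.one_le_rpow hR1 (by positivity)) (hp _).le
    (fun p hpp hpa => by
      have hk := KL_nonneg hpp hμ hpa
      refine (xq_R hμ f4 hkap0 hV00.le hV hγ0 (fun ζ => xqU_le (v ζ)) (hp (-1 + 9 * c + 10 * s))
        hspr (A1 := 8 * R ^ (1 + 7 * c + 7 * s)) (by have := hp (1 + 7 * c + 7 * s); positivity)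
        (fun ζ hζ => (hfg ζ (hγsel ζ hζ)).1) ?_ hpp hpa).trans ?_
      · refine le_trans (le_of_eq ?_) hN.l1
        rw [show 4 * (8 * R ^ (1 + 7 * c + 7 * s)) * V0 = 32 * (R ^ (1 + 7 * c + 7 * s) * V0) by
          ring, hV0, hadd]
        congr 2
        ring
      · apply mul_le_mul_of_nonneg_right _ (xf_7 zero_le_one hk)
        refine le_trans (le_of_eq ?_) hN.r1
        rw [show 8 * (8 * R ^ (1 + 7 * c + 7 * s)) * kap * R ^ (-1 + 9 * c + 10 * s) =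
          64 * (R ^ (1 + 7 * c + 7 * s) * kap * R ^ (-1 + 9 * c + 10 * s)) by ring, hkap, hadd,
          hadd]
        congr 2
        ring)
    (fun q hqq hqa => by
      have hk := KL_nonneg hqq hν hqa
      refine (xq_R hν f5 hρ0 zero_le_one (fun _ => le_rfl) hγ0 (fun ζ => xqU_le (v ζ))
        (hp (-1 + 9 * c + 10 * s))
        hspr (A1 := 16 * R ^ (5 * c + s)) (by have := hp (5 * c + s); positivity)
        (fun ζ hζ => (hfg ζ (hγsel ζ hζ)).2.1) ?_ hqq hqa).trans ?_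
      · refine le_trans (le_of_eq ?_) hN.l2
        ring
      · apply mul_le_mul_of_nonneg_right _ (xf_7 zero_le_one hk)
        refine le_trans (le_of_eq ?_) hN.r2
        rw [show 8 * (16 * R ^ (5 * c + s)) * ρ * R ^ (-1 + 9 * c + 10 * s) =
          128 * (R ^ (5 * c + s) * ρ * R ^ (-1 + 9 * c + 10 * s)) by ring, hρ, hadd,
          hadd]
        congr 2
        ring)
    (θ := R ^ (-(6 * c))) (hp _) (Real.rpow_le_one_of_one_le_of_nonpos hR1 (neg_nonpos.2 (by positivity)))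
    hG rfl rfl
  have Hn := hnum _ _ _ _ _ _ _ rfl rfl rfl rfl rfl rfl rfl
  have Hup : ∑ ζ, γ ζ * LR2.em (fun x => μ x * f ζ x) (fun y => ν y * g ζ y)
      (fun x y => ctd μ ν M x y / 4 - 0) ≤ -(R ^ (-(5 * c) - s) / 16) := by
    calc _ ≤ ∑ ζ, γ ζ * (-(R ^ (-(5 * c) - s) / 16)) := by
          apply Finset.sum_le_sum
          intro ζ _
          by_cases h : γ ζ = 0
          · rw [h, zero_mul, zero_mul]
          · apply mul_le_mul_of_nonneg_left _ (hγ0 ζ)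
            have e1 := (hfg ζ (hγsel ζ h)).2.2
            have e2 : LR2.em (fun x => μ x * f ζ x) (fun y => ν y * g ζ y)
                (fun x y => ctd μ ν M x y / 4 - 0) = 1 / 4 *
                LR2.em (fun x => μ x * f ζ x) (fun y => ν y * g ζ y) (ctd μ ν M) := by
              rw [← em_smul]
              congr 1
              funext x y
              ring
            rw [e2]
            exact xf_6 e1
      _ = _ := by rw [← Finset.sum_mul, hγ1, one_mul]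
  linarith

end Main

end Pool.Agent.LRC
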